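import Pool.Agent.TX17.BSt

set_option autoImplicit false
set_option linter.all false

namespace Pool.Agent.TX17

open Pool.Agent.TV17 Pool.Agent.TW17

theorem Bc0 (F : Set (Finset ℕ)) (hF : SevenTwoCoverable F) (k t : ℕ)
    (hk : ∀ A ∈ F, A.card = k) (H : Missed F t) (htk : t ≤ k) (ht : 6 * k + 60 ≤ 7 * t)
    (ht2 : 7 * t ≤ 6 * k + 67)
    (A B C : Finset ℕ) (hA : A ∈ F) (hB : B ∈ F) (hC : C ∈ F) (e : A ∩ B ∩ C = ∅)
    (c a b : ℕ) (hc : (A ∩ B).card = c) (ha : (A ∩ C).card = a) (hb : (B ∩ C).card = b)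
    (d0 : 6 * k ≤ 14 * c)
    (d1 : 2 * c ≤ k)
    (d2 : 14 * a + 70 ≤ 4 * k)
    (d3 : b ≤ a)
    (x0 : 1000 * a ≤ 143 * k)
    : False := by
  obtain ⟨R, hR⟩ : ∃ R : ℕ, R + (c + a + b) = t := ⟨t - (c + a + b), by omega⟩
  obtain ⟨D, n0, n1, n2, n3, n4, n5, n6, n7, n8, n9, n10, n11, cf, e1, e2, e3, e4, e5, e6, f1, f2, f3,
    f4, f5, f6, f7, gA, gB, gC⟩ := respond F k t hk H A B C hA hB hC e c a b hc ha hb
    c a b 0 0 R (by omega) (by omega) (by omega) (by omega) (by omega) (by omega) (by omega)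
  by_cases u1 : n2 + n4 + n7 + n9 ≤ t
  swap
  · by_cases u2 : n0 + n2 + 2 * n4 + n7 + n9 ≤ 2 * t
    swap
    · exact sB F hF k t hk H htk B C D hB hC cf.hD
        (emptyD B C D n5 cf.r5 (by linarith)) b (n1 + n5 + n9) (n3 + n5 + n11) hb gB gC
        (by linarith) (by linarith) (by linarith) (by linarith) (by linarith) (by linarith) (by linarith)
    exact BS383 F hF t H A B C D n0 n1 n2 n3 n4 n5 n6 n7 n8 n9 n10 n11 cf
      (by linarith) (by linarith) (by linarith) (by linarith) (by linarith) (by linarith) (by linarith) (by linarith) (by linarith) (by linarith)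
  exact BS385 F hF t H A B C D n0 n1 n2 n3 n4 n5 n6 n7 n8 n9 n10 n11 cf
    (by linarith) (by linarith) (by linarith) (by linarith) (by linarith) (by linarith) (by linarith) (by linarith) (by linarith) (by linarith)

end Pool.Agent.TX17
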