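import Pool.Agent.TX17.BSt

set_option autoImplicit false
set_option linter.all false

namespace Pool.Agent.TX17

open Pool.Agent.TV17 Pool.Agent.TW17

theorem Bc3 (F : Set (Finset ℕ)) (hF : SevenTwoCoverable F) (k t : ℕ)
    (hk : ∀ A ∈ F, A.card = k) (H : Missed F t) (htk : t ≤ k) (ht : 6 * k + 60 ≤ 7 * t)
    (ht2 : 7 * t ≤ 6 * k + 67)
    (A B C : Finset ℕ) (hA : A ∈ F) (hB : B ∈ F) (hC : C ∈ F) (e : A ∩ B ∩ C = ∅)
    (c a b : ℕ) (hc : (A ∩ B).card = c) (ha : (A ∩ C).card = a) (hb : (B ∩ C).card = b)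
    (d0 : 6 * k ≤ 14 * c)
    (d1 : 2 * c ≤ k)
    (d2 : 14 * a + 70 ≤ 4 * k)
    (d3 : b ≤ a)
    (x0 : 143 * k ≤ 1000 * a)
    (x1 : 1000 * b ≤ 143 * k)
    (x2 : 71 * k ≤ 1000 * b)
    (x3 : 214 * k ≤ 1000 * a)
    (x4 : 1000 * b ≤ 107 * k)
    (x5 : 1000 * a ≤ 250 * k)
    : False := by
  obtain ⟨R, hR⟩ : ∃ R : ℕ, R + (c + a + b) = t := ⟨t - (c + a + b), by omega⟩
  obtain ⟨D, n0, n1, n2, n3, n4, n5, n6, n7, n8, n9, n10, n11, cf, e1, e2, e3, e4, e5, e6, f1, f2, f3,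
    f4, f5, f6, f7, gA, gB, gC⟩ := respond F k t hk H A B C hA hB hC e c a b hc ha hb
    c a b 0 0 R (by omega) (by omega) (by omega) (by omega) (by omega) (by omega) (by omega)
  by_cases u1 : 2 * n0 + n4 + n11 ≤ 2 * t
  swap
  · exact BS405 F hF t H A B C D n0 n1 n2 n3 n4 n5 n6 n7 n8 n9 n10 n11 cf
      (by linarith) (by linarith) (by linarith) (by linarith) (by linarith) (by linarith) (by linarith) (by linarith) (by linarith)
  exact BS383 F hF t H A B C D n0 n1 n2 n3 n4 n5 n6 n7 n8 n9 n10 n11 cf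
    (by linarith) (by linarith) (by linarith) (by linarith) (by linarith) (by linarith) (by linarith) (by linarith) (by linarith) (by linarith)

end Pool.Agent.TX17
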