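import Pool.Agent.TX17.CSt

set_option autoImplicit false
set_option linter.all false

namespace Pool.Agent.TX17

open Pool.Agent.TV17 Pool.Agent.TW17

theorem Cc2 (F : Set (Finset ℕ)) (hF : SevenTwoCoverable F) (k t : ℕ)
    (hk : ∀ A ∈ F, A.card = k) (H : Missed F t) (htk : t ≤ k) (ht : 6 * k + 60 ≤ 7 * t)
    (ht2 : 7 * t ≤ 6 * k + 67)
    (A B C : Finset ℕ) (hA : A ∈ F) (hB : B ∈ F) (hC : C ∈ F) (e : A ∩ B ∩ C = ∅)
    (c a b : ℕ) (hc : (A ∩ B).card = c) (ha : (A ∩ C).card = a) (hb : (B ∩ C).card = b)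
    (hcap : ∀ X ∈ F, ∀ Y ∈ F, 14 * (X ∩ Y).card + 70 ≤ 4 * k ∨ (c ≤ (X ∩ Y).card ∧
      14 * (X ∩ Y).card < 6 * k) ∨ k < 2 * (X ∩ Y).card)
    (d0 : 5 * k + 70 ≤ 14 * c)
    (d1 : c ≤ a)
    (d2 : 2 * a + c + t ≤ 2 * k + 1)
    (d3 : 5 * b ≤ k)
    (x0 : 1000 * b ≤ 100 * k)
    (x1 : 1000 * b ≤ 50 * k)
    (x2 : 25 * k ≤ 1000 * b)
    (x3 : 375 * k ≤ 1000 * a)
    (x4 : 1000 * b ≤ 38 * k)
    : False := by
  obtain ⟨R, hR⟩ : ∃ R : ℕ, R + (c + a + b) = t := ⟨t - (c + a + b), by omega⟩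
  obtain ⟨D, n0, n1, n2, n3, n4, n5, n6, n7, n8, n9, n10, n11, cf, e1, e2, e3, e4, e5, e6, f1, f2, f3,
    f4, f5, f6, f7, gA, gB, gC⟩ := respond F k t hk H A B C hA hB hC e c a b hc ha hb
    c a b R 0 0 (by omega) (by omega) (by omega) (by omega) (by omega) (by omega) (by omega)
  by_cases u1 : n0 + n1 + n11 ≤ t
  swap
  · by_cases u2 : n1 + n2 + n5 + n9 ≤ t
    swap
    · exact CS305 F hF t H A B C D n0 n1 n2 n3 n4 n5 n6 n7 n8 n9 n10 n11 cf
        (by linarith) (by linarith) (by linarith) (by linarith) (by linarith) (by linarith) (by linarith) (by linarith) (by linarith) (by linarith)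
    exact CS318 F hF t H A B C D n0 n1 n2 n3 n4 n5 n6 n7 n8 n9 n10 n11 cf
      (by linarith) (by linarith) (by linarith) (by linarith) (by linarith) (by linarith) (by linarith) (by linarith)
  exact CS462 F hF t H A B C D n0 n1 n2 n3 n4 n5 n6 n7 n8 n9 n10 n11 cf
    (by linarith) (by linarith) (by linarith) (by linarith) (by linarith) (by linarith) (by linarith) (by linarith) (by linarith)

end Pool.Agent.TX17
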