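import Pool.Agent.TX17.Stat

set_option autoImplicit false
set_option linter.all false

namespace Pool.Agent.TX17

open Pool.Agent.TV17 Pool.Agent.TW17

theorem CS97 (F : Set (Finset ℕ)) (hF : SevenTwoCoverable F) (t : ℕ) (H : Missed F t)
    (A B C D : Finset ℕ) (n0 n1 n2 n3 n4 n5 n6 n7 n8 n9 n10 n11 : ℕ)
    (cf : Cfg F A B C D ![n0, n1, n2, n3, n4, n5, n6, n7, n8, n9, n10, n11])
    (z3 : n3 = 0) (z5 : n5 = 0)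
    (q1 : n1 + n2 + n7 ≤ t)
    (q2 : n2 ≤ t)
    (q3 : n1 + 2 * n2 + n7 + n9 ≤ 2 * t)
    (q4 : n0 + n1 + n7 + n11 ≤ t)
    (q5 : n0 + 2 * n1 + n2 + n4 + 2 * n7 + n10 + n11 ≤ 2 * t)
    (q6 : n0 + n1 + n2 + n7 + n11 ≤ 2 * t)
    (q7 : n0 + 2 * n1 + 2 * n2 + n4 + 2 * n7 + n9 + n10 + n11 ≤ 3 * t)
    : False := by
  refine comp12 F hF t H A B C D _ cf
    ![some ({2}, ∅), some ({0, 2}, ∅), some ({0, 1}, ∅), none, some (∅, {0, 2}), none, some (∅, ∅), some ({0, 2}, ∅), some (∅, ∅), some (∅, {0, 1}), some (∅, {0, 2}), some ({2}, ∅)]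
    ![0, 0, 0, 1, 0, 1, 0, 0, 0, 0, 0, 0]
    ![![0, 1, 1, 0, 0, 0, 0, 1, 0, 0, 0, 0],
      ![0, 0, 1, 0, 0, 0, 0, 0, 0, 0, 0, 0],
      ![1, 1, 0, 0, 0, 0, 0, 1, 0, 0, 0, 1],
      ![0, 1, 2, 0, 0, 0, 0, 1, 0, 1, 0, 0],
      ![1, 2, 1, 0, 1, 0, 0, 2, 0, 0, 1, 1],
      ![1, 1, 1, 0, 0, 0, 0, 1, 0, 0, 0, 1],
      ![1, 2, 2, 0, 1, 0, 0, 2, 0, 1, 1, 1]]
    (by decide +kernel) ?_ ?_ ?_ ?_ ?_ ?_ ?_ ?_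
  all_goals
    simp only [lin12, Matrix.cons_val]
    omega

theorem CS305 (F : Set (Finset ℕ)) (hF : SevenTwoCoverable F) (t : ℕ) (H : Missed F t)
    (A B C D : Finset ℕ) (n0 n1 n2 n3 n4 n5 n6 n7 n8 n9 n10 n11 : ℕ)
    (cf : Cfg F A B C D ![n0, n1, n2, n3, n4, n5, n6, n7, n8, n9, n10, n11])
    (z1 : n1 = 0) (z3 : n3 = 0) (z5 : n5 = 0)
    (q1 : n0 + n2 + n4 + n7 ≤ t)
    (q2 : n2 ≤ t)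
    (q3 : n0 + 2 * n2 + n4 + n7 + n9 ≤ 2 * t)
    (q4 : n0 ≤ t)
    (q5 : 2 * n0 + n2 + n4 + n7 + n11 ≤ 2 * t)
    (q6 : n0 + n2 ≤ 2 * t)
    (q7 : 2 * n0 + 2 * n2 + n4 + n7 + n9 + n11 ≤ 3 * t)
    : False := by
  refine comp12 F hF t H A B C D _ cf
    ![some ({0, 2}, ∅), none, some ({0, 1}, ∅), none, some ({0}, ∅), none, some (∅, ∅), some ({0}, ∅), some (∅, ∅), some (∅, {0, 1}), some (∅, ∅), some (∅, {0, 2})]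
    ![0, 1, 0, 1, 0, 1, 0, 0, 0, 0, 0, 0]
    ![![1, 0, 1, 0, 1, 0, 0, 1, 0, 0, 0, 0],
      ![0, 0, 1, 0, 0, 0, 0, 0, 0, 0, 0, 0],
      ![1, 0, 0, 0, 0, 0, 0, 0, 0, 0, 0, 0],
      ![1, 0, 2, 0, 1, 0, 0, 1, 0, 1, 0, 0],
      ![2, 0, 1, 0, 1, 0, 0, 1, 0, 0, 0, 1],
      ![1, 0, 1, 0, 0, 0, 0, 0, 0, 0, 0, 0],
      ![2, 0, 2, 0, 1, 0, 0, 1, 0, 1, 0, 1]]
    (by decide +kernel) ?_ ?_ ?_ ?_ ?_ ?_ ?_ ?_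
  all_goals
    simp only [lin12, Matrix.cons_val]
    omega

theorem CS318 (F : Set (Finset ℕ)) (hF : SevenTwoCoverable F) (t : ℕ) (H : Missed F t)
    (A B C D : Finset ℕ) (n0 n1 n2 n3 n4 n5 n6 n7 n8 n9 n10 n11 : ℕ)
    (cf : Cfg F A B C D ![n0, n1, n2, n3, n4, n5, n6, n7, n8, n9, n10, n11])
    (z3 : n3 = 0)
    (q1 : n0 + n1 + n4 + n5 + n7 ≤ t)
    (q2 : n1 + n2 + n5 + n9 ≤ t)
    (q3 : n0 + 2 * n1 + n2 + n4 + 2 * n5 + n6 + n7 + n9 ≤ 2 * t)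
    (q4 : n0 + n1 ≤ t)
    (q5 : 2 * n0 + 2 * n1 + n4 + n5 + n7 + n11 ≤ 2 * t)
    (q6 : n0 + 2 * n1 + n2 + n5 + n9 ≤ 2 * t)
    (q7 : 2 * n0 + 3 * n1 + n2 + n4 + 2 * n5 + n6 + n7 + n9 + n10 + n11 ≤ 3 * t)
    : False := by
  refine comp12 F hF t H A B C D _ cf
    ![some ({0, 2}, ∅), some ({0, 1, 2}, ∅), some ({1}, ∅), none, some ({0}, ∅), some ({0, 1}, ∅), some (∅, {0, 1}), some ({0}, ∅), some (∅, ∅), some ({1}, ∅), some (∅, {0, 1, 2}), some (∅, {0, 2})]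
    ![0, 0, 0, 1, 0, 0, 0, 0, 0, 0, 0, 0]
    ![![1, 1, 0, 0, 1, 1, 0, 1, 0, 0, 0, 0],
      ![0, 1, 1, 0, 0, 1, 0, 0, 0, 1, 0, 0],
      ![1, 1, 0, 0, 0, 0, 0, 0, 0, 0, 0, 0],
      ![1, 2, 1, 0, 1, 2, 1, 1, 0, 1, 0, 0],
      ![2, 2, 0, 0, 1, 1, 0, 1, 0, 0, 0, 1],
      ![1, 2, 1, 0, 0, 1, 0, 0, 0, 1, 0, 0],
      ![2, 3, 1, 0, 1, 2, 1, 1, 0, 1, 1, 1]]
    (by decide +kernel) ?_ ?_ ?_ ?_ ?_ ?_ ?_ ?_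
  all_goals
    simp only [lin12, Matrix.cons_val]
    omega

theorem CS431 (F : Set (Finset ℕ)) (hF : SevenTwoCoverable F) (t : ℕ) (H : Missed F t)
    (A B C D : Finset ℕ) (n0 n1 n2 n3 n4 n5 n6 n7 n8 n9 n10 n11 : ℕ)
    (cf : Cfg F A B C D ![n0, n1, n2, n3, n4, n5, n6, n7, n8, n9, n10, n11])
    (z1 : n1 = 0)
    (q1 : n2 + n3 + n4 + n5 + n7 ≤ t)
    (q2 : n0 + n3 + n5 + n11 ≤ t)
    (q3 : n0 + n2 + 2 * n3 + n4 + 2 * n5 + n6 + n7 + n11 ≤ 2 * t)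
    (q4 : n2 + n3 ≤ t)
    (q5 : 2 * n2 + 2 * n3 + n4 + n5 + n7 + n9 ≤ 2 * t)
    (q6 : n0 + n2 + 2 * n3 + n5 + n11 ≤ 2 * t)
    (q7 : n0 + 2 * n2 + 3 * n3 + n4 + 2 * n5 + n6 + n7 + n8 + n9 + n11 ≤ 3 * t)
    : False := by
  refine comp12 F hF t H A B C D _ cf
    ![some ({1}, ∅), none, some ({0, 2}, ∅), some ({0, 1, 2}, ∅), some ({0}, ∅), some ({0, 1}, ∅), some (∅, {0, 1}), some ({0}, ∅), some (∅, {0, 1, 2}), some (∅, {0, 2}), some (∅, ∅), some ({1}, ∅)]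
    ![0, 1, 0, 0, 0, 0, 0, 0, 0, 0, 0, 0]
    ![![0, 0, 1, 1, 1, 1, 0, 1, 0, 0, 0, 0],
      ![1, 0, 0, 1, 0, 1, 0, 0, 0, 0, 0, 1],
      ![0, 0, 1, 1, 0, 0, 0, 0, 0, 0, 0, 0],
      ![1, 0, 1, 2, 1, 2, 1, 1, 0, 0, 0, 1],
      ![0, 0, 2, 2, 1, 1, 0, 1, 0, 1, 0, 0],
      ![1, 0, 1, 2, 0, 1, 0, 0, 0, 0, 0, 1],
      ![1, 0, 2, 3, 1, 2, 1, 1, 1, 1, 0, 1]]
    (by decide +kernel) ?_ ?_ ?_ ?_ ?_ ?_ ?_ ?_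
  all_goals
    simp only [lin12, Matrix.cons_val]
    omega

theorem CS462 (F : Set (Finset ℕ)) (hF : SevenTwoCoverable F) (t : ℕ) (H : Missed F t)
    (A B C D : Finset ℕ) (n0 n1 n2 n3 n4 n5 n6 n7 n8 n9 n10 n11 : ℕ)
    (cf : Cfg F A B C D ![n0, n1, n2, n3, n4, n5, n6, n7, n8, n9, n10, n11])
    (z3 : n3 = 0) (z5 : n5 = 0)
    (q1 : n1 + n2 + n4 + n7 ≤ t)
    (q2 : n0 + n1 + n11 ≤ t)
    (q3 : n0 + 2 * n1 + n2 + n4 + n7 + n10 + n11 ≤ 2 * t)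
    (q4 : n2 ≤ t)
    (q5 : n1 + 2 * n2 + n4 + n7 + n9 ≤ 2 * t)
    (q6 : n0 + n1 + n2 + n11 ≤ 2 * t)
    (q7 : n0 + 2 * n1 + 2 * n2 + n4 + n7 + n9 + n10 + n11 ≤ 3 * t)
    : False := by
  refine comp12 F hF t H A B C D _ cf
    ![some ({1}, ∅), some ({0, 1}, ∅), some ({0, 2}, ∅), none, some ({0}, ∅), none, some (∅, ∅), some ({0}, ∅), some (∅, ∅), some (∅, {0, 2}), some (∅, {0, 1}), some ({1}, ∅)]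
    ![0, 0, 0, 1, 0, 1, 0, 0, 0, 0, 0, 0]
    ![![0, 1, 1, 0, 1, 0, 0, 1, 0, 0, 0, 0],
      ![1, 1, 0, 0, 0, 0, 0, 0, 0, 0, 0, 1],
      ![0, 0, 1, 0, 0, 0, 0, 0, 0, 0, 0, 0],
      ![1, 2, 1, 0, 1, 0, 0, 1, 0, 0, 1, 1],
      ![0, 1, 2, 0, 1, 0, 0, 1, 0, 1, 0, 0],
      ![1, 1, 1, 0, 0, 0, 0, 0, 0, 0, 0, 1],
      ![1, 2, 2, 0, 1, 0, 0, 1, 0, 1, 1, 1]]
    (by decide +kernel) ?_ ?_ ?_ ?_ ?_ ?_ ?_ ?_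
  all_goals
    simp only [lin12, Matrix.cons_val]
    omega

end Pool.Agent.TX17
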