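import Pool.Agent.TX17.BC0
import Pool.Agent.TX17.BC1
import Pool.Agent.TX17.BC2
import Pool.Agent.TX17.BC3
import Pool.Agent.TX17.BC4
import Pool.Agent.TX17.BC5
import Pool.Agent.TX17.BC6
import Pool.Agent.TX17.CC0
import Pool.Agent.TX17.CC1
import Pool.Agent.TX17.CC2
import Pool.Agent.TX17.CC3
import Pool.Agent.TX17.CC4
import Pool.Agent.TX17.CC5
import Pool.Agent.TX17.CC6
import Pool.Agent.TX17.CC7
import Pool.Agent.TX17.CC8
import Pool.Agent.TX17.CC9
import Pool.Agent.TX17.End67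

set_option autoImplicit false
set_option linter.all false

namespace Pool.Agent.TX17

open Pool.Agent.TV17 Pool.Agent.TW17

theorem Bmain (F : Set (Finset ℕ)) (hF : SevenTwoCoverable F) (k t : ℕ)
    (hk : ∀ A ∈ F, A.card = k) (H : Missed F t) (htk : t ≤ k) (ht : 6 * k + 60 ≤ 7 * t)
    (ht2 : 7 * t ≤ 6 * k + 67)
    (A B C : Finset ℕ) (hA : A ∈ F) (hB : B ∈ F) (hC : C ∈ F) (e : A ∩ B ∩ C = ∅)
    (c a b : ℕ) (hc : (A ∩ B).card = c) (ha : (A ∩ C).card = a) (hb : (B ∩ C).card = b)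
    (d0 : 6 * k ≤ 14 * c)
    (d1 : 2 * c ≤ k)
    (d2 : 14 * a + 70 ≤ 4 * k)
    (d3 : b ≤ a)
    : False := by
  rcases le_total (1000 * a) (143 * k) with y1 | y1
  · exact Bc0 F hF k t hk H htk ht ht2 A B C hA hB hC e c a b hc ha hb d0 d1 d2 d3 y1
  · rcases le_total (1000 * b) (143 * k) with y2 | y2
    · rcases le_total (1000 * b) (71 * k) with y3 | y3
      · exact Bc1 F hF k t hk H htk ht ht2 A B C hA hB hC e c a b hc ha hb d0 d1 d2 d3 y1 y2 y3
      · rcases le_total (1000 * a) (214 * k) with y4 | y4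
        · exact Bc2 F hF k t hk H htk ht ht2 A B C hA hB hC e c a b hc ha hb d0 d1 d2 d3 y1 y2 y3 y4
        · rcases le_total (1000 * b) (107 * k) with y5 | y5
          · rcases le_total (1000 * a) (250 * k) with y6 | y6
            · exact Bc3 F hF k t hk H htk ht ht2 A B C hA hB hC e c a b hc ha hb d0 d1 d2 d3 y1 y2 y3 y4 y5 y6
            · exact Bc4 F hF k t hk H htk ht ht2 A B C hA hB hC e c a b hc ha hb d0 d1 d2 d3 y1 y2 y3 y4 y5 y6
          · exact Bc5 F hF k t hk H htk ht ht2 A B C hA hB hC e c a b hc ha hb d0 d1 d2 d3 y1 y2 y3 y4 y5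
    · exact Bc6 F hF k t hk H htk ht ht2 A B C hA hB hC e c a b hc ha hb d0 d1 d2 d3 y1 y2

theorem Cmain (F : Set (Finset ℕ)) (hF : SevenTwoCoverable F) (k t : ℕ)
    (hk : ∀ A ∈ F, A.card = k) (H : Missed F t) (htk : t ≤ k) (ht : 6 * k + 60 ≤ 7 * t)
    (ht2 : 7 * t ≤ 6 * k + 67)
    (A B C : Finset ℕ) (hA : A ∈ F) (hB : B ∈ F) (hC : C ∈ F) (e : A ∩ B ∩ C = ∅)
    (c a b : ℕ) (hc : (A ∩ B).card = c) (ha : (A ∩ C).card = a) (hb : (B ∩ C).card = b)
    (hcap : ∀ X ∈ F, ∀ Y ∈ F, 14 * (X ∩ Y).card + 70 ≤ 4 * k ∨ (c ≤ (X ∩ Y).card ∧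
      14 * (X ∩ Y).card < 6 * k) ∨ k < 2 * (X ∩ Y).card)
    (d0 : 5 * k + 70 ≤ 14 * c)
    (d1 : c ≤ a)
    (d2 : 2 * a + c + t ≤ 2 * k + 1)
    (d3 : 5 * b ≤ k)
    : False := by
  rcases le_total (1000 * b) (100 * k) with y1 | y1
  · rcases le_total (1000 * b) (50 * k) with y2 | y2
    · rcases le_total (1000 * b) (25 * k) with y3 | y3
      · exact Cc0 F hF k t hk H htk ht ht2 A B C hA hB hC e c a b hc ha hb hcap d0 d1 d2 d3 y1 y2 y3
      · rcases le_total (1000 * a) (375 * k) with y4 | y4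
        · exact Cc1 F hF k t hk H htk ht ht2 A B C hA hB hC e c a b hc ha hb hcap d0 d1 d2 d3 y1 y2 y3 y4
        · rcases le_total (1000 * b) (38 * k) with y5 | y5
          · exact Cc2 F hF k t hk H htk ht ht2 A B C hA hB hC e c a b hc ha hb hcap d0 d1 d2 d3 y1 y2 y3 y4 y5
          · exact Cc3 F hF k t hk H htk ht ht2 A B C hA hB hC e c a b hc ha hb hcap d0 d1 d2 d3 y1 y2 y3 y4 y5
    · rcases le_total (1000 * b) (75 * k) with y6 | y6
      · rcases le_total (1000 * a) (375 * k) with y7 | y7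
        · rcases le_total (1000 * b) (63 * k) with y8 | y8
          · exact Cc4 F hF k t hk H htk ht ht2 A B C hA hB hC e c a b hc ha hb hcap d0 d1 d2 d3 y1 y2 y6 y7 y8
          · rcases le_total (1000 * c) (366 * k) with y9 | y9
            · exact Cc5 F hF k t hk H htk ht ht2 A B C hA hB hC e c a b hc ha hb hcap d0 d1 d2 d3 y1 y2 y6 y7 y8 y9
            · exact Cc6 F hF k t hk H htk ht ht2 A B C hA hB hC e c a b hc ha hb hcap d0 d1 d2 d3 y1 y2 y6 y7 y8 y9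
        · exact Cc7 F hF k t hk H htk ht ht2 A B C hA hB hC e c a b hc ha hb hcap d0 d1 d2 d3 y1 y2 y6 y7
      · exact Cc8 F hF k t hk H htk ht ht2 A B C hA hB hC e c a b hc ha hb hcap d0 d1 d2 d3 y1 y2 y6
  · exact Cc9 F hF k t hk H htk ht ht2 A B C hA hB hC e c a b hc ha hb hcap d0 d1 d2 d3 y1

end Pool.Agent.TX17
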