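import Pool.Agent.TX17.Leaf

set_option autoImplicit false

namespace Pool.Agent.TX17

open Pool.Agent.TV17 Pool.Agent.TW17

/-- linear form with numeral coefficients -/
def dot : List ℕ → List ℕ → ℕ
  | a :: l, b :: m => a * b + dot l m
  | _, _ => 0

lemma dot_nil (l : List ℕ) : dot [] l = 0 := by
  cases l <;> rfl

lemma dot_nil' (l : List ℕ) : dot l [] = 0 := by
  cases l <;> rfl

lemma dot_cons (a b : ℕ) (l m : List ℕ) : dot (a :: l) (b :: m) = a * b + dot l m := rfl

lemma dot_map {α : Type} (f : α → ℕ) (cells : List α) (size : List ℕ) :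
    dot (cells.map f) size = ∑ i : Fin cells.length, f (cells.get i) * size.getD i 0 := by
  induction cells generalizing size with
  | nil => simp [dot_nil]
  | cons a l ih =>
    cases size with
    | nil => simp [dot_nil']
    | cons b m =>
      rw [List.map_cons, dot_cons, ih m]
      simp only [List.length_cons, Fin.sum_univ_succ]
      simp

/-- the cells are pairwise compatible -/
def cellsV (cells : List (Fin 12 × Fam)) : Prop :=
  ∀ p ∈ cells, ∀ q ∈ cells, mask p.1 ∪ mask q.1 = Finset.univ → okPair p.2 q.2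

/-- `cnt` are the regions of the cells -/
def cellsR (cells : List (Fin 12 × Fam)) (cnt : Fin 12 → List ℕ) : Prop :=
  ∀ r, cells.map (fun p => if p.1 = r then 1 else 0) = cnt r

/-- `W` are the weights of the cells -/
def cellsW (cells : List (Fin 12 × Fam)) (W : Fin 7 → List ℕ) : Prop :=
  ∀ j, cells.map (fun p => wt (some p.2) (Js j)) = W j

instance instV (cells : List (Fin 12 × Fam)) : Decidable (cellsV cells) := by
  unfold cellsV; infer_instance

instance instR (cells : List (Fin 12 × Fam)) (cnt : Fin 12 → List ℕ) :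
    Decidable (cellsR cells cnt) := by
  unfold cellsR; infer_instance

instance instW (cells : List (Fin 12 × Fam)) (W : Fin 7 → List ℕ) :
    Decidable (cellsW cells W) := by
  unfold cellsW; infer_instance

/-- the cells are pairwise compatible, `cnt` are their regions and `W` their weights -/
def cellsOk (cells : List (Fin 12 × Fam)) (cnt : Fin 12 → List ℕ) (W : Fin 7 → List ℕ) : Prop :=
  cellsV cells ∧ cellsR cells cnt ∧ cellsW cells W

instance (cells : List (Fin 12 × Fam)) (cnt : Fin 12 → List ℕ) (W : Fin 7 → List ℕ) :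
    Decidable (cellsOk cells cnt W) := by
  unfold cellsOk; infer_instance

/-- `comp_cells` with lists: cell number `i` is in the region `(cells i).1`, has the family
`(cells i).2` and at most `size i` points. -/
theorem comp_list (F : Set (Finset ℕ)) (hF : SevenTwoCoverable F) (t : ℕ) (H : Missed F t)
    (A B C D : Finset ℕ) (n : Fin 12 → ℕ) (h : Cfg F A B C D n)
    (cells : List (Fin 12 × Fam)) (size : List ℕ) (cnt : Fin 12 → List ℕ) (W : Fin 7 → List ℕ)
    (hp : cellsOk cells cnt W)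
    (p0 : n 0 ≤ dot (cnt 0) size) (p1 : n 1 ≤ dot (cnt 1) size) (p2 : n 2 ≤ dot (cnt 2) size)
    (p3 : n 3 ≤ dot (cnt 3) size) (p4 : n 4 ≤ dot (cnt 4) size) (p5 : n 5 ≤ dot (cnt 5) size)
    (p6 : n 6 ≤ dot (cnt 6) size) (p7 : n 7 ≤ dot (cnt 7) size) (p8 : n 8 ≤ dot (cnt 8) size)
    (p9 : n 9 ≤ dot (cnt 9) size) (p10 : n 10 ≤ dot (cnt 10) size)
    (p11 : n 11 ≤ dot (cnt 11) size)
    (q0 : dot (W 0) size ≤ t) (q1 : dot (W 1) size ≤ t) (q2 : dot (W 2) size ≤ t)
    (q3 : dot (W 3) size ≤ 2 * t) (q4 : dot (W 4) size ≤ 2 * t) (q5 : dot (W 5) size ≤ 2 * t)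
    (q6 : dot (W 6) size ≤ 3 * t) : False := by
  classical
  obtain ⟨hv, hc, hw⟩ := hp
  refine comp_cells F hF t H A B C D n h (fun i : Fin cells.length => (cells.get i).1)
    (fun i => (cells.get i).2) (fun i => size.getD i 0) ?_ ?_ ?_
  · intro i j hm
    exact hv _ (List.get_mem _ _) _ (List.get_mem _ _) hm
  · intro r
    have e : ∑ i : Fin cells.length with (cells.get i).1 = r, size.getD i 0
        = dot (cnt r) size := by
      rw [← hc r, dot_map, Finset.sum_filter]
      refine Finset.sum_congr rfl fun i _ => ?_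
      by_cases hi : (cells.get i).1 = r
      · rw [if_pos hi, if_pos hi, one_mul]
      · rw [if_neg hi, if_neg hi, zero_mul]
    rw [e]
    fin_cases r
    · exact p0
    · exact p1
    · exact p2
    · exact p3
    · exact p4
    · exact p5
    · exact p6
    · exact p7
    · exact p8
    · exact p9
    · exact p10
    · exact p11
  · intro J hJ
    obtain ⟨j, rfl⟩ := Js_surj J hJ
    have e : ∑ i : Fin cells.length, wt (some (cells.get i).2) (Js j) * size.getD i 0
        = dot (W j) size := by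
      rw [← hw j, dot_map]
    rw [e]
    fin_cases j
    · exact q0.trans (by simp [Js])
    · exact q1.trans (by simp [Js])
    · exact q2.trans (by simp [Js])
    · exact q3.trans (by simp [Js])
    · exact q4.trans (by simp [Js])
    · exact q5.trans (by simp [Js])
    · exact q6.trans (by simp [Js])

/-- the regions opposite to region `r`, as a bit mask -/
def oppM (r : ℕ) : ℕ := [2088, 3132, 546, 819, 138, 207, 32, 48, 8, 12, 2, 3].getD r 0

/-- `okPair` for bit masks -/
def okN (p1 p2 q1 q2 : ℕ) : Bool :=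
  (p1 &&& q1 != 0) || (p2 != 0 && p2 &&& q1 == p2) || (q2 != 0 && q2 &&& p1 == q2)

/-- the set of colours with bit mask `m` -/
def dec (m : ℕ) : Finset (Fin 3) := Finset.univ.filter (fun i : Fin 3 => m.testBit i.val = true)

/-- the weight for bit masks -/
def wtN (p1 p2 J : ℕ) : ℕ :=
  ((p1 &&& J) % 2 + (p1 &&& J) / 2 % 2 + (p1 &&& J) / 4 % 2) +
    if (p2 != 0 && p2 &&& J == p2) = true then 1 else 0

/-- the bit masks of the seven sets of colours -/
def JN : Fin 7 → ℕ := ![1, 2, 4, 3, 5, 6, 7]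

/-- the check of a list of cells (region, forced mask, choice mask) -/
def codeOk (cells : List (ℕ × ℕ × ℕ)) (cnt : Fin 12 → List ℕ) (W : Fin 7 → List ℕ) : Bool :=
  (cells.all fun p => decide (p.1 < 12) && decide (p.2.1 < 8) && decide (p.2.2 < 8) &&
    cells.all fun q => !((oppM p.1).testBit q.1) || okN p.2.1 p.2.2 q.2.1 q.2.2) &&
  decide (∀ r : Fin 12, cells.map (fun p => if p.1 = r.val then 1 else 0) = cnt r) &&
  decide (∀ j : Fin 7, cells.map (fun p => wtN p.2.1 p.2.2 (JN j)) = W j)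

/-- the cell with a given code -/
def conv (p : ℕ × ℕ × ℕ) : Fin 12 × Fam := (Fin.ofNat 12 p.1, (dec p.2.1, dec p.2.2))

lemma opp_spec : ∀ r s : Fin 12, mask r ∪ mask s = Finset.univ →
    (oppM r.val).testBit s.val = true := by decide +kernel

lemma dec_inter : ∀ a b : Fin 8, (dec a.val ∩ dec b.val).Nonempty ↔ (a.val &&& b.val != 0) = true := by
  decide +kernel

lemma dec_subset : ∀ a b : Fin 8, ((dec a.val).Nonempty ∧ dec a.val ⊆ dec b.val) ↔
    (a.val != 0 && a.val &&& b.val == a.val) = true := by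
  decide +kernel

lemma wt_spec : ∀ (a b : Fin 8) (j : Fin 7), wt (some (dec a.val, dec b.val)) (Js j)
    = wtN a.val b.val (JN j) := by
  decide +kernel

lemma okN_spec (p1 p2 q1 q2 : ℕ) (h1 : p1 < 8) (h2 : p2 < 8) (h3 : q1 < 8) (h4 : q2 < 8)
    (h : okN p1 p2 q1 q2 = true) : okPair (dec p1, dec p2) (dec q1, dec q2) := by
  unfold okN at h
  rw [Bool.or_eq_true, Bool.or_eq_true] at h
  rcases h with (h | h) | h
  · exact Or.inl ((dec_inter ⟨p1, h1⟩ ⟨q1, h3⟩).2 h)
  · exact Or.inr (Or.inl ((dec_subset ⟨p2, h2⟩ ⟨q1, h3⟩).2 h))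
  · exact Or.inr (Or.inr ((dec_subset ⟨q2, h4⟩ ⟨p1, h1⟩).2 h))

lemma codeOk_spec (cells : List (ℕ × ℕ × ℕ)) (cnt : Fin 12 → List ℕ) (W : Fin 7 → List ℕ)
    (h : codeOk cells cnt W = true) : cellsOk (cells.map conv) cnt W := by
  unfold codeOk at h
  simp only [Bool.and_eq_true, List.all_eq_true, decide_eq_true_eq, Bool.or_eq_true,
    Bool.not_eq_true'] at h
  obtain ⟨⟨hv, hc⟩, hw⟩ := h
  have hfin : ∀ p ∈ cells, ((conv p).1).val = p.1 := by
    intro p hp
    exact Nat.mod_eq_of_lt (hv p hp).1.1.1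
  refine ⟨?_, ?_, ?_⟩
  · intro p' hp' q' hq' hm
    obtain ⟨p, hp, rfl⟩ := List.mem_map.1 hp'
    obtain ⟨q, hq, rfl⟩ := List.mem_map.1 hq'
    obtain ⟨⟨⟨-, h1⟩, h2⟩, h3⟩ := hv p hp
    obtain ⟨⟨⟨-, h1'⟩, h2'⟩, -⟩ := hv q hq
    have ho := opp_spec _ _ hm
    rw [hfin p hp, hfin q hq] at ho
    rcases h3 q hq with h4 | h4
    · rw [ho] at h4
      exact absurd h4 (by simp)
    · exact okN_spec _ _ _ _ h1 h2 h1' h2' h4
  · intro r
    rw [← hc r, List.map_map]
    refine List.map_congr_left fun p hp => ?_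
    simp only [Function.comp]
    by_cases hr : p.1 = r.val
    · rw [if_pos hr, if_pos (Fin.ext (by rw [hfin p hp]; exact hr))]
    · rw [if_neg hr, if_neg (fun e => hr (by rw [← hfin p hp, e]))]
  · intro j
    rw [← hw j, List.map_map]
    refine List.map_congr_left fun p hp => ?_
    obtain ⟨⟨⟨-, h1⟩, h2⟩, -⟩ := hv p hp
    exact wt_spec ⟨p.2.1, h1⟩ ⟨p.2.2, h2⟩ j

/-- `comp_list` with numeral codes: a cell is (region, bit mask of the forced colours, bit mask of
the one-choice colours). -/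
theorem comp_code (F : Set (Finset ℕ)) (hF : SevenTwoCoverable F) (t : ℕ) (H : Missed F t)
    (A B C D : Finset ℕ) (n : Fin 12 → ℕ) (h : Cfg F A B C D n)
    (cells : List (ℕ × ℕ × ℕ)) (size : List ℕ) (cnt : Fin 12 → List ℕ) (W : Fin 7 → List ℕ)
    (hp : codeOk cells cnt W = true)
    (p0 : n 0 ≤ dot (cnt 0) size) (p1 : n 1 ≤ dot (cnt 1) size) (p2 : n 2 ≤ dot (cnt 2) size)
    (p3 : n 3 ≤ dot (cnt 3) size) (p4 : n 4 ≤ dot (cnt 4) size) (p5 : n 5 ≤ dot (cnt 5) size)
    (p6 : n 6 ≤ dot (cnt 6) size) (p7 : n 7 ≤ dot (cnt 7) size) (p8 : n 8 ≤ dot (cnt 8) size)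
    (p9 : n 9 ≤ dot (cnt 9) size) (p10 : n 10 ≤ dot (cnt 10) size)
    (p11 : n 11 ≤ dot (cnt 11) size)
    (q0 : dot (W 0) size ≤ t) (q1 : dot (W 1) size ≤ t) (q2 : dot (W 2) size ≤ t)
    (q3 : dot (W 3) size ≤ 2 * t) (q4 : dot (W 4) size ≤ 2 * t) (q5 : dot (W 5) size ≤ 2 * t)
    (q6 : dot (W 6) size ≤ 3 * t) : False :=
  comp_list F hF t H A B C D n h (cells.map conv) size cnt W (codeOk_spec cells cnt W hp)
    p0 p1 p2 p3 p4 p5 p6 p7 p8 p9 p10 p11 q0 q1 q2 q3 q4 q5 q6

end Pool.Agent.TX17
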