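import Pool.Agent.TW17.Main

set_option autoImplicit false

namespace Pool.Agent.TX17

open Pool.Agent.TV17 Pool.Agent.TW17

/-- four members, no common point of `A`, `B`, `C`; the sizes of the 12 regions -/
structure Cfg (F : Set (Finset ℕ)) (A B C D : Finset ℕ) (n : Fin 12 → ℕ) : Prop where
  hA : A ∈ F
  hB : B ∈ F
  hC : C ∈ F
  hD : D ∈ F
  e : A ∩ B ∩ C = ∅
  r0 : ((A ∩ B) \ D).card = n 0
  r1 : (A ∩ B ∩ D).card = n 1
  r2 : ((A ∩ C) \ D).card = n 2
  r3 : (A ∩ C ∩ D).card = n 3
  r4 : ((B ∩ C) \ D).card = n 4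
  r5 : (B ∩ C ∩ D).card = n 5
  r6 : (A \ (B ∪ C ∪ D)).card = n 6
  r7 : ((A ∩ D) \ (B ∪ C)).card = n 7
  r8 : (B \ (A ∪ C ∪ D)).card = n 8
  r9 : ((B ∩ D) \ (A ∪ C)).card = n 9
  r10 : (C \ (A ∪ B ∪ D)).card = n 10
  r11 : ((C ∩ D) \ (A ∪ B)).card = n 11

/-- forced colours and one-choice colours (the second empty: no choice) -/
abbrev Fam := Finset (Fin 3) × Finset (Fin 3)

/-- the number of points used in the colours `J` by a point of type `p` -/
def wt (p : Option Fam) (J : Finset (Fin 3)) : ℕ :=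
  match p with
  | none => 0
  | some p => (p.1 ∩ J).card + if p.2.Nonempty ∧ p.2 ⊆ J then 1 else 0

/-- the members containing the points of a region -/
def mask : Fin 12 → Finset (Fin 4) :=
  ![{0, 1}, {0, 1, 3}, {0, 2}, {0, 2, 3}, {1, 2}, {1, 2, 3}, {0}, {0, 3}, {1}, {1, 3}, {2}, {2, 3}]

/-- points of types `p` and `q` have a common colour whatever the choices are -/
def okPair (p q : Fam) : Prop :=
  (p.1 ∩ q.1).Nonempty ∨ (p.2.Nonempty ∧ p.2 ⊆ q.1) ∨ (q.2.Nonempty ∧ q.2 ⊆ p.1)

instance (p q : Fam) : Decidable (okPair p q) := by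
  unfold okPair; infer_instance

/-- the same for optional types -/
def okOpt (p q : Option Fam) : Prop :=
  match p, q with
  | some p, some q => okPair p q
  | _, _ => True

instance (p q : Option Fam) : Decidable (okOpt p q) := by
  cases p <;> cases q <;> unfold okOpt <;> infer_instance

/-- the pairs of regions which cover the four members -/
def pairs : List (Fin 12 × Fin 12) :=
  [(0, 3), (0, 5), (0, 11), (1, 2), (1, 3), (1, 4), (1, 5), (1, 10), (1, 11), (2, 5), (2, 9),
    (3, 4), (3, 5), (3, 8), (3, 9), (4, 7), (5, 6), (5, 7)]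

/-- any two points which cover the four members have a common colour -/
def valid (f : Fin 12 → Option Fam) : Prop :=
  ∀ rs ∈ pairs, okOpt (f rs.1) (f rs.2)

instance (f : Fin 12 → Option Fam) : Decidable (valid f) := by
  unfold valid; infer_instance

lemma okPair_symm (p q : Fam) (h : okPair p q) : okPair q p := by
  rcases h with h | h | h
  · left
    rw [Finset.inter_comm]
    exact h
  · exact Or.inr (Or.inr h)
  · exact Or.inr (Or.inl h)

lemma mem_pairs : ∀ r s : Fin 12, mask r ∪ mask s = Finset.univ →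
    (r, s) ∈ pairs ∨ (s, r) ∈ pairs := by decide

lemma valid_spec (f : Fin 12 → Option Fam) (hv : valid f) (r s : Fin 12)
    (h : mask r ∪ mask s = Finset.univ) (p q : Fam) (hp : f r = some p) (hq : f s = some q) :
    okPair p q := by
  rcases mem_pairs r s h with h' | h'
  · have := hv _ h'
    simp only [hp, hq, okOpt] at this
    exact this
  · have := hv _ h'
    simp only [hp, hq, okOpt] at this
    exact okPair_symm _ _ this

lemma mask_inj : ∀ r s : Fin 12, mask r = mask s → r = s := by decide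

lemma mask_surj : ∀ m : Finset (Fin 4), ¬ ({0, 1, 2} ⊆ m) → (0 ∈ m ∨ 1 ∈ m ∨ 2 ∈ m) →
    ∃ r : Fin 12, mask r = m := by decide

/-- the members containing `z` -/
def mk (A B C D : Finset ℕ) (z : ℕ) : Finset (Fin 4) :=
  Finset.univ.filter (fun i => z ∈ (![A, B, C, D] : Fin 4 → Finset ℕ) i)

/-- the points of a region -/
def reg (A B C D : Finset ℕ) (r : Fin 12) : Finset ℕ :=
  (A ∪ B ∪ C).filter (fun z => mk A B C D z = mask r)

lemma mask_meets : ∀ r : Fin 12, 0 ∈ mask r ∨ 1 ∈ mask r ∨ 2 ∈ mask r := by decide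

lemma mem_mk (A B C D : Finset ℕ) (z : ℕ) :
    (0 ∈ mk A B C D z ↔ z ∈ A) ∧ (1 ∈ mk A B C D z ↔ z ∈ B) ∧ (2 ∈ mk A B C D z ↔ z ∈ C) ∧
      (3 ∈ mk A B C D z ↔ z ∈ D) := by
  simp [mk]

lemma mem_reg (A B C D : Finset ℕ) (r : Fin 12) (z : ℕ) :
    z ∈ reg A B C D r ↔ (z ∈ A ↔ 0 ∈ mask r) ∧ (z ∈ B ↔ 1 ∈ mask r) ∧ (z ∈ C ↔ 2 ∈ mask r) ∧
      (z ∈ D ↔ 3 ∈ mask r) := by
  obtain ⟨h0, h1, h2, h3⟩ := mem_mk A B C D z
  have hext : mk A B C D z = mask r ↔ (z ∈ A ↔ 0 ∈ mask r) ∧ (z ∈ B ↔ 1 ∈ mask r) ∧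
      (z ∈ C ↔ 2 ∈ mask r) ∧ (z ∈ D ↔ 3 ∈ mask r) := by
    rw [Finset.ext_iff, Fin.forall_fin_succ, Fin.forall_fin_succ, Fin.forall_fin_succ,
      Fin.forall_fin_succ]
    constructor
    · rintro ⟨k0, k1, k2, k3, -⟩
      exact ⟨h0.symm.trans k0, h1.symm.trans k1, h2.symm.trans k2, h3.symm.trans k3⟩
    · rintro ⟨k0, k1, k2, k3⟩
      exact ⟨h0.trans k0, h1.trans k1, h2.trans k2, h3.trans k3, fun i => i.elim0⟩
  rw [reg, Finset.mem_filter, hext]
  constructor
  · exact fun h => h.2
  · intro h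
    refine ⟨?_, h⟩
    simp only [Finset.mem_union]
    rcases mask_meets r with hm | hm | hm
    · exact Or.inl (Or.inl (h.1.2 hm))
    · exact Or.inl (Or.inr (h.2.1.2 hm))
    · exact Or.inr (h.2.2.1.2 hm)

lemma mk_eq_of_mem (A B C D : Finset ℕ) (r : Fin 12) (z : ℕ) (h : z ∈ reg A B C D r) :
    mk A B C D z = mask r := (Finset.mem_filter.1 h).2

lemma reg_unique (A B C D : Finset ℕ) (r s : Fin 12) (z : ℕ) (h : z ∈ reg A B C D r)
    (h' : z ∈ reg A B C D s) : r = s :=
  mask_inj r s ((mk_eq_of_mem A B C D r z h).symm.trans (mk_eq_of_mem A B C D s z h'))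

lemma card_reg (F : Set (Finset ℕ)) (A B C D : Finset ℕ) (n : Fin 12 → ℕ)
    (h : Cfg F A B C D n) (r : Fin 12) : (reg A B C D r).card = n r := by
  have he : ∀ z, z ∈ A → z ∈ B → z ∉ C := by
    intro z h1 h2 h3
    have : z ∈ A ∩ B ∩ C := by simp [h1, h2, h3]
    rw [h.e] at this
    simp at this
  fin_cases r
  · refine Eq.trans ?_ h.r0
    congr 1; ext z; have := he z; rw [mem_reg]; simp [mask]; tauto
  · refine Eq.trans ?_ h.r1
    congr 1; ext z; have := he z; rw [mem_reg]; simp [mask]; tauto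
  · refine Eq.trans ?_ h.r2
    congr 1; ext z; have := he z; rw [mem_reg]; simp [mask]; tauto
  · refine Eq.trans ?_ h.r3
    congr 1; ext z; have := he z; rw [mem_reg]; simp [mask]; tauto
  · refine Eq.trans ?_ h.r4
    congr 1; ext z; have := he z; rw [mem_reg]; simp [mask]; tauto
  · refine Eq.trans ?_ h.r5
    congr 1; ext z; have := he z; rw [mem_reg]; simp [mask]; tauto
  · refine Eq.trans ?_ h.r6
    congr 1; ext z; have := he z; rw [mem_reg]; simp [mask]; try tauto
  · refine Eq.trans ?_ h.r7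
    congr 1; ext z; have := he z; rw [mem_reg]; simp [mask]; tauto
  · refine Eq.trans ?_ h.r8
    congr 1; ext z; have := he z; rw [mem_reg]; simp [mask]; tauto
  · refine Eq.trans ?_ h.r9
    congr 1; ext z; have := he z; rw [mem_reg]; simp [mask]; tauto
  · refine Eq.trans ?_ h.r10
    congr 1; ext z; have := he z; rw [mem_reg]; simp [mask]; tauto
  · refine Eq.trans ?_ h.r11
    congr 1; ext z; have := he z; rw [mem_reg]; simp [mask]; tauto

/-- distribution of the points to three colours, each with at most `t` points -/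
lemma assign {ι : Type} [Fintype ι] (R : ι → Finset ℕ) (g1 g2 : ι → Finset (Fin 3)) (t : ℕ)
    (hH : ∀ J : Finset (Fin 3), J.Nonempty →
      ∑ r, ((g1 r ∩ J).card + if (g2 r).Nonempty ∧ g2 r ⊆ J then 1 else 0) * (R r).card
        ≤ J.card * t) :
    ∃ T : Fin 3 → Finset ℕ, (∀ i, (T i).card ≤ t) ∧
      (∀ z, (∃ r, z ∈ R r) →
        ∃ r, z ∈ R r ∧ (∀ i ∈ g1 r, z ∈ T i) ∧ ((g2 r).Nonempty → ∃ i ∈ g2 r, z ∈ T i)) := by
  classical
  set V : Finset ℕ := (Finset.univ.filter (fun r => (g2 r).Nonempty)).biUnion R with hV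
  have hrg : ∀ z : V, ∃ r, (g2 r).Nonempty ∧ z.1 ∈ R r := by
    intro z
    obtain ⟨r, hr, hz⟩ := Finset.mem_biUnion.1 z.2
    exact ⟨r, (Finset.mem_filter.1 hr).2, hz⟩
  choose rg hrg1 hrg2 using hrg
  set L : Fin 3 → ℕ := fun i => ∑ r, if i ∈ g1 r then (R r).card else 0 with hL
  have hload : ∀ J : Finset (Fin 3), ∑ r, (g1 r ∩ J).card * (R r).card = ∑ i ∈ J, L i := by
    intro J
    simp only [hL]
    rw [Finset.sum_comm]
    refine Finset.sum_congr rfl fun r _ => ?_
    rw [← Finset.sum_filter, Finset.sum_const, smul_eq_mul, Finset.filter_mem_eq_inter,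
      Finset.inter_comm]
  have hH' : ∀ J : Finset (Fin 3), J.Nonempty → ∑ i ∈ J, L i +
      ∑ r, (if (g2 r).Nonempty ∧ g2 r ⊆ J then (R r).card else 0) ≤ J.card * t := by
    intro J hJ
    have := hH J hJ
    simp only [add_mul, Finset.sum_add_distrib, hload, ite_mul, one_mul, zero_mul] at this
    exact this
  set slots : Fin 3 → Finset (Fin 3 × ℕ) := fun i => (Finset.range (t - L i)).image (Prod.mk i)
    with hslots
  have hsc : ∀ i, (slots i).card = t - L i := by
    intro i
    rw [hslots, Finset.card_image_of_injective _ (Prod.mk_right_injective i), Finset.card_range]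
  have hsd : ∀ i j, i ≠ j → Disjoint (slots i) (slots j) := by
    intro i j hij
    rw [Finset.disjoint_left]
    intro x hx hx'
    simp only [hslots, Finset.mem_image] at hx hx'
    obtain ⟨a, -, rfl⟩ := hx
    obtain ⟨b, -, hb⟩ := hx'
    exact hij (congrArg Prod.fst hb).symm
  have hall : ∀ Z : Finset V, Z.card ≤ (Z.biUnion fun z => (g2 (rg z)).biUnion slots).card := by
    intro Z
    rcases Z.eq_empty_or_nonempty with rfl | ⟨z0, hz0⟩
    · simp
    set J : Finset (Fin 3) := Z.biUnion (fun z => g2 (rg z)) with hJ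
    have hJne : J.Nonempty := by
      obtain ⟨i, hi⟩ := hrg1 z0
      exact ⟨i, Finset.mem_biUnion.2 ⟨z0, hz0, hi⟩⟩
    have e : (Z.biUnion fun z => (g2 (rg z)).biUnion slots) = J.biUnion slots := by
      rw [hJ, Finset.biUnion_biUnion]
    have hc : (J.biUnion slots).card = ∑ i ∈ J, (t - L i) := by
      rw [Finset.card_biUnion (fun i _ j _ hij => hsd i j hij)]
      exact Finset.sum_congr rfl fun i _ => hsc i
    have hZ : Z.card ≤ ∑ r, (if (g2 r).Nonempty ∧ g2 r ⊆ J then (R r).card else 0) := by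
      rw [← Finset.sum_filter]
      have h1 : (Z.image Subtype.val).card = Z.card :=
        Finset.card_image_of_injective _ Subtype.val_injective
      have h2 : Z.image Subtype.val ⊆
          (Finset.univ.filter (fun r => (g2 r).Nonempty ∧ g2 r ⊆ J)).biUnion R := by
        intro z hz
        obtain ⟨w, hw, rfl⟩ := Finset.mem_image.1 hz
        refine Finset.mem_biUnion.2 ⟨rg w, ?_, hrg2 w⟩
        rw [Finset.mem_filter]
        refine ⟨Finset.mem_univ _, hrg1 w, ?_⟩
        intro i hi
        exact Finset.mem_biUnion.2 ⟨w, hw, hi⟩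
      rw [← h1]
      exact (Finset.card_le_card h2).trans Finset.card_biUnion_le
    have h3 : J.card * t ≤ ∑ i ∈ J, (t - L i) + ∑ i ∈ J, L i := by
      rw [← Finset.sum_add_distrib, ← smul_eq_mul, ← Finset.sum_const]
      exact Finset.sum_le_sum fun i _ => by omega
    have h4 := hH' J hJne
    rw [e, hc]
    omega
  obtain ⟨φ, hφi, hφ⟩ := (Finset.all_card_le_biUnion_card_iff_exists_injective
    (fun z : V => (g2 (rg z)).biUnion slots)).1 hall
  have hφ' : ∀ z, (φ z).1 ∈ g2 (rg z) ∧ (φ z).2 < t - L (φ z).1 := by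
    intro z
    obtain ⟨i, hi, hx⟩ := Finset.mem_biUnion.1 (hφ z)
    simp only [hslots, Finset.mem_image, Finset.mem_range] at hx
    obtain ⟨a, ha, hax⟩ := hx
    rw [← hax]
    exact ⟨hi, ha⟩
  have hforced : ∀ r z i, z ∈ R r → i ∈ g1 r →
      z ∈ (Finset.univ.filter (fun r => i ∈ g1 r)).biUnion R := by
    intro r z i hz hi
    refine Finset.mem_biUnion.2 ⟨r, ?_, hz⟩
    rw [Finset.mem_filter]
    exact ⟨Finset.mem_univ _, hi⟩
  refine ⟨fun i => (Finset.univ.filter (fun r => i ∈ g1 r)).biUnion R ∪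
    (Finset.univ.filter (fun z : V => (φ z).1 = i)).image Subtype.val, ?_, ?_⟩
  · intro i
    have h1 : ((Finset.univ.filter (fun r => i ∈ g1 r)).biUnion R).card ≤ L i := by
      refine Finset.card_biUnion_le.trans ?_
      rw [Finset.sum_filter]
    have h2 : ((Finset.univ.filter (fun z : V => (φ z).1 = i)).image Subtype.val).card
        ≤ t - L i := by
      refine Finset.card_image_le.trans ?_
      rw [← Finset.card_range (t - L i)]
      refine Finset.card_le_card_of_injOn (fun z => (φ z).2) ?_ ?_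
      · intro z hz
        have hz' : (φ z).1 = i := (Finset.mem_filter.1 hz).2
        have := (hφ' z).2
        rw [hz'] at this
        exact Finset.mem_coe.2 (Finset.mem_range.2 this)
      · intro z hz w hw hzw
        have hz' : (φ z).1 = i := (Finset.mem_filter.1 hz).2
        have hw' : (φ w).1 = i := (Finset.mem_filter.1 hw).2
        exact hφi (Prod.ext (hz'.trans hw'.symm) hzw)
    have h3 : L i ≤ t := by
      have := hH' {i} (Finset.singleton_nonempty i)
      rw [Finset.sum_singleton, Finset.card_singleton, one_mul] at this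
      omega
    have h4 := Finset.card_union_le ((Finset.univ.filter (fun r => i ∈ g1 r)).biUnion R)
      ((Finset.univ.filter (fun z : V => (φ z).1 = i)).image Subtype.val)
    simp only
    omega
  · rintro z ⟨r, hz⟩
    by_cases hzV : z ∈ V
    · refine ⟨rg ⟨z, hzV⟩, hrg2 ⟨z, hzV⟩, ?_, ?_⟩
      · intro i hi
        exact Finset.mem_union_left _ (hforced _ z i (hrg2 ⟨z, hzV⟩) hi)
      · intro _
        refine ⟨(φ ⟨z, hzV⟩).1, (hφ' _).1, ?_⟩
        refine Finset.mem_union_right _ (Finset.mem_image.2 ⟨⟨z, hzV⟩, ?_, rfl⟩)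
        rw [Finset.mem_filter]
        exact ⟨Finset.mem_univ _, rfl⟩
    · refine ⟨r, hz, ?_, ?_⟩
      · intro i hi
        exact Finset.mem_union_left _ (hforced r z i hz hi)
      · intro hne
        exfalso
        apply hzV
        rw [hV]
        refine Finset.mem_biUnion.2 ⟨r, ?_, hz⟩
        rw [Finset.mem_filter]
        exact ⟨Finset.mem_univ _, hne⟩

/-- forced colours -/
def g1 (p : Option Fam) : Finset (Fin 3) := p.elim ∅ Prod.fst

/-- one-choice colours -/
def g2 (p : Option Fam) : Finset (Fin 3) := p.elim ∅ Prod.snd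

lemma wt_eq (p : Option Fam) (J : Finset (Fin 3)) :
    wt p J = (g1 p ∩ J).card + if (g2 p).Nonempty ∧ g2 p ⊆ J then 1 else 0 := by
  cases p with
  | none => simp [wt, g1, g2]
  | some p => rfl

/-- General form: the regions are cut into cells, every cell has a family. -/
theorem comp_gen {ι : Type} [Fintype ι] (F : Set (Finset ℕ)) (hF : SevenTwoCoverable F) (t : ℕ)
    (H : Missed F t) (A B C D : Finset ℕ) (n : Fin 12 → ℕ) (h : Cfg F A B C D n)
    (R : ι → Finset ℕ) (loc : ι → Fin 12) (f : ι → Option Fam)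
    (hsub : ∀ i, R i ⊆ reg A B C D (loc i))
    (hcov : ∀ r z, z ∈ reg A B C D r → ∃ i, z ∈ R i)
    (hv : ∀ i j, mask (loc i) ∪ mask (loc j) = Finset.univ → ∀ p q, f i = some p →
      f j = some q → okPair p q)
    (h0 : ∀ i, f i = none → R i = ∅)
    (hH : ∀ J : Finset (Fin 3), J.Nonempty → ∑ i, wt (f i) J * (R i).card ≤ J.card * t) :
    False := by
  classical
  obtain ⟨T, hT, hT1⟩ := assign R (fun r => g1 (f r)) (fun r => g2 (f r)) t (by
    intro J hJ
    refine le_trans (le_of_eq ?_) (hH J hJ)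
    refine Finset.sum_congr rfl fun r _ => ?_
    rw [wt_eq])
  choose E hE mE using fun i => H (T i) (hT i)
  -- the seven members
  obtain ⟨x, y, hxy⟩ := hF (Finset.univ.image (![A, B, C, D, E 0, E 1, E 2] :
      Fin 7 → Finset ℕ)) (by
      intro X hX
      simp only [Finset.coe_image, Finset.coe_univ, Set.image_univ, Set.mem_range] at hX
      obtain ⟨i, rfl⟩ := hX
      fin_cases i
      · exact h.hA
      · exact h.hB
      · exact h.hC
      · exact h.hD
      · exact hE 0
      · exact hE 1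
      · exact hE 2)
    (Finset.card_image_le.trans (by simp))
  have hxyi : ∀ i : Fin 7, x ∈ (![A, B, C, D, E 0, E 1, E 2] : Fin 7 → Finset ℕ) i ∨
      y ∈ (![A, B, C, D, E 0, E 1, E 2] : Fin 7 → Finset ℕ) i := fun i =>
    hxy _ (Finset.mem_image_of_mem _ (Finset.mem_univ i))
  have hA : x ∈ A ∨ y ∈ A := hxyi 0
  have hB : x ∈ B ∨ y ∈ B := hxyi 1
  have hC : x ∈ C ∨ y ∈ C := hxyi 2
  have hD : x ∈ D ∨ y ∈ D := hxyi 3
  have hxE : ∀ i, x ∈ E i ∨ y ∈ E i := by
    intro i
    fin_cases i
    · exact hxyi 4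
    · exact hxyi 5
    · exact hxyi 6
  clear hxyi hxy
  have he : ∀ z, ¬ (z ∈ A ∧ z ∈ B ∧ z ∈ C) := by
    rintro z ⟨h1, h2, h3⟩
    have : z ∈ A ∩ B ∩ C := by simp [h1, h2, h3]
    rw [h.e] at this
    simp at this
  have hreg : ∀ z, (z ∈ A ∨ z ∈ B ∨ z ∈ C) → ∃ r, z ∈ reg A B C D r := by
    intro z hz
    obtain ⟨k0, k1, k2, k3⟩ := mem_mk A B C D z
    obtain ⟨r, hr⟩ := mask_surj (mk A B C D z) (by
      intro hsub
      refine he z ⟨k0.1 (hsub ?_), k1.1 (hsub ?_), k2.1 (hsub ?_)⟩ <;> simp) (by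
      rcases hz with hz | hz | hz
      · exact Or.inl (k0.2 hz)
      · exact Or.inr (Or.inl (k1.2 hz))
      · exact Or.inr (Or.inr (k2.2 hz)))
    refine ⟨r, Finset.mem_filter.2 ⟨?_, hr.symm⟩⟩
    rw [Finset.mem_union, Finset.mem_union]
    rcases hz with hz | hz | hz
    · exact Or.inl (Or.inl hz)
    · exact Or.inl (Or.inr hz)
    · exact Or.inr hz
  have hxm : x ∈ A ∨ x ∈ B ∨ x ∈ C := by
    by_contra hcon
    push Not at hcon
    exact he y ⟨hA.resolve_left hcon.1, hB.resolve_left hcon.2.1, hC.resolve_left hcon.2.2⟩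
  have hym : y ∈ A ∨ y ∈ B ∨ y ∈ C := by
    by_contra hcon
    push Not at hcon
    exact he x ⟨hA.resolve_right hcon.1, hB.resolve_right hcon.2.1, hC.resolve_right hcon.2.2⟩
  have hcell : ∀ z, (z ∈ A ∨ z ∈ B ∨ z ∈ C) → ∃ i p, f i = some p ∧
      mk A B C D z = mask (loc i) ∧ (∀ j ∈ p.1, z ∈ T j) ∧
      (p.2.Nonempty → ∃ j ∈ p.2, z ∈ T j) := by
    intro z hz
    obtain ⟨r, hr⟩ := hreg z hz
    obtain ⟨i, hi, hi1, hi2⟩ := hT1 z (hcov r z hr)
    obtain ⟨p, hp⟩ : ∃ p, f i = some p := by
      rw [← Option.ne_none_iff_exists']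
      intro hnone
      rw [h0 i hnone] at hi
      simp at hi
    refine ⟨i, p, hp, mk_eq_of_mem A B C D _ z (hsub i hi), ?_, ?_⟩
    · simpa [g1, hp] using hi1
    · simpa [g2, hp] using hi2
  obtain ⟨i, p, hp, mx, x1, x2⟩ := hcell x hxm
  obtain ⟨j, q, hq, my, y1, y2⟩ := hcell y hym
  have hrs : mask (loc i) ∪ mask (loc j) = Finset.univ := by
    rw [← mx, ← my]
    obtain ⟨k0, k1, k2, k3⟩ := mem_mk A B C D x
    obtain ⟨l0, l1, l2, l3⟩ := mem_mk A B C D y
    rw [Finset.eq_univ_iff_forall]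
    intro i
    rw [Finset.mem_union]
    fin_cases i
    · exact hA.imp k0.2 l0.2
    · exact hB.imp k1.2 l1.2
    · exact hC.imp k2.2 l2.2
    · exact hD.imp k3.2 l3.2
  have hcommon : ∃ i, x ∈ T i ∧ y ∈ T i := by
    rcases hv i j hrs p q hp hq with ⟨c, hc⟩ | ⟨hne, hsub⟩ | ⟨hne, hsub⟩
    · rw [Finset.mem_inter] at hc
      exact ⟨c, x1 c hc.1, y1 c hc.2⟩
    · obtain ⟨c, hc, hxc⟩ := x2 hne
      exact ⟨c, hxc, y1 c (hsub hc)⟩
    · obtain ⟨c, hc, hyc⟩ := y2 hne
      exact ⟨c, x1 c (hsub hc), hyc⟩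
  obtain ⟨c, hxc, hyc⟩ := hcommon
  rcases hxE c with hh | hh
  · exact mE c x hxc hh
  · exact mE c y hyc hh

/-- The members `A`, `B`, `C`, `D` with the region sizes `n` cannot exist if the points can be
distributed to three sets of at most `t` points according to a valid plan. -/
theorem comp (F : Set (Finset ℕ)) (hF : SevenTwoCoverable F) (t : ℕ) (H : Missed F t)
    (A B C D : Finset ℕ) (n : Fin 12 → ℕ) (h : Cfg F A B C D n) (f : Fin 12 → Option Fam)
    (hv : valid f) (h0 : ∀ r, f r = none → n r = 0)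
    (hH : ∀ J : Finset (Fin 3), J.Nonempty → ∑ r, wt (f r) J * n r ≤ J.card * t) : False := by
  have hcard := card_reg F A B C D n h
  refine comp_gen F hF t H A B C D n h (reg A B C D) id f (fun i => Finset.Subset.refl _)
    (fun r z hz => ⟨r, hz⟩) (valid_spec f hv) ?_ ?_
  · intro i hi
    rw [← Finset.card_eq_zero, hcard i]
    exact h0 i hi
  · intro J hJ
    simp only [hcard]
    exact hH J hJ

lemma mask_ne_univ : ∀ r : Fin 12, mask r ∪ mask r ≠ Finset.univ := by decide

/-- The same with `m` points of the region `s` in a second cell with the family `g`. -/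
theorem comp_split (F : Set (Finset ℕ)) (hF : SevenTwoCoverable F) (t : ℕ) (H : Missed F t)
    (A B C D : Finset ℕ) (n : Fin 12 → ℕ) (h : Cfg F A B C D n) (f : Fin 12 → Option Fam)
    (s : Fin 12) (g : Fam) (m : ℕ) (hm : m ≤ n s) (hv : valid f)
    (hv' : valid (Function.update f s (some g))) (hfs : f s ≠ none)
    (h0 : ∀ r, f r = none → n r = 0)
    (hH : ∀ J : Finset (Fin 3), J.Nonempty →
      ∑ r, wt (f r) J * (if r = s then n s - m else n r) + wt (some g) J * m ≤ J.card * t) :
    False := by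
  classical
  have hcard := card_reg F A B C D n h
  obtain ⟨M, hM, hMc⟩ := Finset.exists_subset_card_eq (s := reg A B C D s) (n := m)
    (by rw [hcard s]; exact hm)
  have hsd : (reg A B C D s \ M).card = n s - m := by
    have := Finset.card_sdiff_add_card_eq_card hM
    rw [hcard s] at this
    omega
  refine comp_gen (ι := Option (Fin 12)) F hF t H A B C D n h
    (fun i => i.elim M (fun r => if r = s then reg A B C D s \ M else reg A B C D r))
    (fun i => i.elim s id) (fun i => i.elim (some g) f) ?_ ?_ ?_ ?_ ?_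
  · rintro (_ | r)
    · exact hM
    · by_cases hr : r = s
      · subst hr
        simp
      · simp [hr]
  · intro r z hz
    by_cases hr : r = s
    · subst hr
      by_cases hzM : z ∈ M
      · exact ⟨none, hzM⟩
      · exact ⟨some r, by simp [hz, hzM]⟩
    · exact ⟨some r, by simp [hr, hz]⟩
  · rintro (_ | r) (_ | r') hm p q hp hq
    · exact absurd hm (mask_ne_univ s)
    · by_cases hr' : r' = s
      · subst hr'
        exact absurd hm (mask_ne_univ r')
      · refine valid_spec _ hv' s r' hm p q ?_ ?_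
        · rw [Function.update_self]; exact hp
        · rw [Function.update_of_ne hr']; exact hq
    · by_cases hr' : r = s
      · subst hr'
        exact absurd hm (mask_ne_univ r)
      · refine valid_spec _ hv' r s hm p q ?_ ?_
        · rw [Function.update_of_ne hr']; exact hp
        · rw [Function.update_self]; exact hq
    · exact valid_spec f hv r r' hm p q hp hq
  · rintro (_ | r) hi
    · exact absurd hi (by simp)
    · have hrs : r ≠ s := fun e => hfs (by rw [← e]; exact hi)
      have : (reg A B C D r).card = 0 := by rw [hcard r]; exact h0 r hi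
      simpa [hrs] using this
  · intro J hJ
    rw [Fintype.sum_option]
    refine le_trans (le_of_eq ?_) (hH J hJ)
    rw [add_comm]
    congr 1
    · refine Finset.sum_congr rfl fun r _ => ?_
      by_cases hr : r = s
      · simp [hr, hsd]
      · simp [hr, hcard r]
    · simp [hMc]

lemma split_many {N : ℕ} (S : Finset ℕ) (size : Fin N → ℕ) (P : Finset (Fin N))
    (h : S.card ≤ ∑ i ∈ P, size i) :
    ∃ R : Fin N → Finset ℕ, (∀ i, R i ⊆ S) ∧ (∀ i, (R i).card ≤ size i) ∧
      ∀ z ∈ S, ∃ i ∈ P, z ∈ R i := by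
  classical
  induction P using Finset.induction_on generalizing S with
  | empty =>
    refine ⟨fun _ => ∅, by simp, by simp, ?_⟩
    intro z hz
    rw [Finset.sum_empty, Nat.le_zero, Finset.card_eq_zero] at h
    rw [h] at hz
    simp at hz
  | insert a P ha ih =>
    rw [Finset.sum_insert ha] at h
    obtain ⟨X, Y, hXY, hX, hY, hXc, hYc⟩ := split2 S (size a) (∑ i ∈ P, size i) h
    obtain ⟨R, hR1, hR2, hR3⟩ := ih Y hYc
    refine ⟨Function.update R a X, ?_, ?_, ?_⟩
    · intro i
      by_cases hi : i = a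
      · subst hi
        rw [Function.update_self]
        exact hX
      · rw [Function.update_of_ne hi]
        exact (hR1 i).trans hY
    · intro i
      by_cases hi : i = a
      · subst hi
        rw [Function.update_self]
        exact hXc
      · rw [Function.update_of_ne hi]
        exact hR2 i
    · intro z hz
      rcases hXY z hz with hz' | hz'
      · exact ⟨a, Finset.mem_insert_self _ _, by rw [Function.update_self]; exact hz'⟩
      · obtain ⟨i, hi, hzi⟩ := hR3 z hz'
        have hia : i ≠ a := by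
          rintro rfl
          exact ha hi
        refine ⟨i, Finset.mem_insert_of_mem hi, ?_⟩
        rw [Function.update_of_ne hia]
        exact hzi

/-- Any number `N` of cells: cell `i` lies in the region `loc i`, has at most `size i` points and
the family `fam i`. -/
theorem comp_cells (F : Set (Finset ℕ)) (hF : SevenTwoCoverable F) (t : ℕ) (H : Missed F t)
    (A B C D : Finset ℕ) (n : Fin 12 → ℕ) (h : Cfg F A B C D n) {N : ℕ} (loc : Fin N → Fin 12)
    (fam : Fin N → Fam) (size : Fin N → ℕ)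
    (hv : ∀ i j, mask (loc i) ∪ mask (loc j) = Finset.univ → okPair (fam i) (fam j))
    (hn : ∀ r, n r ≤ ∑ i with loc i = r, size i)
    (hH : ∀ J : Finset (Fin 3), J.Nonempty →
      ∑ i, wt (some (fam i)) J * size i ≤ J.card * t) : False := by
  classical
  have hcard := card_reg F A B C D n h
  choose Q hQ1 hQ2 hQ3 using fun r => split_many (reg A B C D r) size
    (Finset.univ.filter (fun i => loc i = r)) (by rw [hcard r]; exact hn r)
  refine comp_gen F hF t H A B C D n h (fun i => Q (loc i) i) loc (fun i => some (fam i))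
    (fun i => hQ1 _ i) ?_ ?_ ?_ ?_
  · intro r z hz
    obtain ⟨i, hi, hzi⟩ := hQ3 r z hz
    have hir : loc i = r := (Finset.mem_filter.1 hi).2
    refine ⟨i, ?_⟩
    rw [hir]
    exact hzi
  · intro i j hm p q hp hq
    rw [← Option.some.inj hp, ← Option.some.inj hq]
    exact hv i j hm
  · intro i hi
    exact absurd hi (by simp)
  · intro J hJ
    refine le_trans ?_ (hH J hJ)
    exact Finset.sum_le_sum fun i _ => Nat.mul_le_mul_left _ (hQ2 _ i)

end Pool.Agent.TX17
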