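import Pool.Agent.TX17.Stat
import Pool.Agent.TX17.Cells
import Pool.Agent.TX17.ET2
import Pool.Agent.TX17.ET4

set_option autoImplicit false
set_option linter.all false

namespace Pool.Agent.TX17

open Pool.Agent.TV17 Pool.Agent.TW17

theorem EBc0 (F : Set (Finset ℕ)) (hF : SevenTwoCoverable F) (k t : ℕ)
    (hk : ∀ A ∈ F, A.card = k) (H : Missed F t) (htk : t ≤ k) (ht : 17 * k + 160 ≤ 20 * t)
    (ht2 : 20 * t ≤ 17 * k + 180)
    (A B C : Finset ℕ) (hA : A ∈ F) (hB : B ∈ F) (hC : C ∈ F) (e : A ∩ B ∩ C = ∅)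
    (c a b : ℕ) (hc : (A ∩ B).card = c) (ha : (A ∩ C).card = a) (hb : (B ∩ C).card = b)
    (hcap : ∀ X ∈ F, ∀ Y ∈ F, (X ∩ Y).card ≤ c ∨ 41 * k < 80 * (X ∩ Y).card)
    (hext : ∀ D ∈ F, A ∩ B ∩ D = ∅ → a ≤ (A ∩ D).card ∨ a ≤ (B ∩ D).card)
    (d0 : 1 * k ≤ 8 * c)
    (d1 : 20 * c ≤ 7 * k)
    (d2 : a ≤ c)
    (d3 : b ≤ a)
    : False := by
  obtain ⟨R, hR⟩ : ∃ R : ℕ, R + (c + a) = t := ⟨t - (c + a), by omega⟩
  obtain ⟨D, n0, n1, n2, n3, n4, n5, n6, n7, n8, n9, n10, n11, cf, e1, e2, e3, e4, e5, e6, f1, f2, f3,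
    f4, f5, f6, f7, gA, gB, gC⟩ := respond F k t hk H A B C hA hB hC e c a b hc ha hb
    c a 0 0 R 0
    (le_refl _)
    (le_refl _)
    (by linarith only [])
    (by linarith only [ht2, d1, d2, hR])
    (by linarith only [htk, ht2, d3, hR])
    (by linarith only [ht2, d1, d2, d3, hR])
    (by linarith only [hR])
  rcases hext D cf.hD (emptyD A B D n1 cf.r1 (Nat.le_zero.1 (by linarith only [f1]))) with w1 | w1
  · rw [gA] at w1
    rcases hcap B hB D cf.hD with w2 | w2
    · rw [gB] at w2
      by_cases u3 : n0 + n2 + 2 * n4 + 2 * n5 + n6 + n7 + n9 ≤ 2 * t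
      swap
      · exact ES1218 F hF t H A B C D n0 n1 n2 n3 n4 n5 n6 n7 n8 n9 n10 n11 cf
          (Nat.le_zero.1 (by linarith only [f1]))
          (Nat.le_zero.1 (by linarith only [f2]))
          (by linarith only [ht, d0, d2, d3, e1, e2, e3, e4, w2, u3])
          (by linarith only [hR, e2, w2])
          (by linarith only [ht, d1, d3, e1, e2, e3, e4, e6, f4, w1, w2])
          (by linarith only [ht, d1, e1])
          (by linarith only [ht, d1, d3, e1, e3, e4, e6, f7])
          (by linarith only [ht, d1, hR, e1, e2, f7, w1])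
          (by linarith only [ht, d1, d3, e1, e2, e3, e4, e5, e6, f7, w2])
          (by linarith only [ht, d1, d3, e1, e3, e4, e6, f7])
          (by linarith only [ht, d1, hR, e1, e2, f7, w1])
          (by linarith only [ht, d1, d3, e1, e2, e3, e4, e6, f7, w1, u3])
          (by linarith only [ht, d1, d3, e1, e2, e3, e4, e6, f7, w1, u3])
      exact ES953 F hF t H A B C D n0 n1 n2 n3 n4 n5 n6 n7 n8 n9 n10 n11 cf
        (Nat.le_zero.1 (by linarith only [f1]))
        (Nat.le_zero.1 (by linarith only [f2]))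
        (by linarith only [e1, e2, f1, w1, w2, u3])
        (by linarith only [d1, e1, e2, e4, f2, u3])
        (by linarith only [u3])
        (by linarith only [ht, d1, e1, u3])
        (by linarith only [u3])
        (by linarith only [ht, d1, e1, e3, e6])
        (by linarith only [ht, d1, d3, hR, e1, e2, e3, e4, e6, f5, f7, w1, u3])
    · rw [gB] at w2
      linarith only [htk, ht, d1, d2, hR, e3, f1, f5, w2]
  · rw [gB] at w1
    rcases hcap B hB D cf.hD with w4 | w4
    · rw [gB] at w4
      by_cases u5 : n0 + n2 + 2 * n4 + 2 * n5 + n6 + n7 + n9 ≤ 2 * t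
      swap
      · exact ES1218 F hF t H A B C D n0 n1 n2 n3 n4 n5 n6 n7 n8 n9 n10 n11 cf
          (Nat.le_zero.1 (by linarith only [f1]))
          (Nat.le_zero.1 (by linarith only [f2]))
          (by linarith only [ht, d0, d2, d3, e1, e2, e3, e4, w4, u5])
          (by linarith only [hR, e2, w4])
          (by linarith only [ht, d1, d2, d3, e1, e2, e3, e4, w4])
          (by linarith only [ht, d1, e1])
          (by linarith only [ht, d1, d3, e1, e3, e4, e6, f7])
          (by linarith only [ht, d1, d2, e1, e2, f7])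
          (by linarith only [ht, d1, d3, e1, e2, e3, e4, e5, e6, f7, w4])
          (by linarith only [ht, d1, d3, e1, e3, e4, e6, f7])
          (by linarith only [ht, d1, d2, e1, e2, f7])
          (by linarith only [ht, d1, d3, hR, e1, e2, e3, e4, e6, f5, f7, w4, u5])
          (by linarith only [ht, d1, d3, hR, e1, e2, e3, e4, e6, f5, f7, w4, u5])
      exact ES953 F hF t H A B C D n0 n1 n2 n3 n4 n5 n6 n7 n8 n9 n10 n11 cf
        (Nat.le_zero.1 (by linarith only [f1]))
        (Nat.le_zero.1 (by linarith only [f2]))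
        (by linarith only [ht, d1, d2, hR, e2, e3, f5])
        (by linarith only [d1, e1, e2, e4, f2, u5])
        (by linarith only [u5])
        (by linarith only [ht, d1, e1, u5])
        (by linarith only [u5])
        (by linarith only [ht, d1, e1, e3, e6])
        (by linarith only [ht, d1, d3, hR, e1, e2, e3, e4, e6, f5, f7, u5])
    · rw [gB] at w4
      linarith only [htk, ht, d1, d2, hR, e3, f1, f5, w4]

end Pool.Agent.TX17
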