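import Pool.Agent.TX17.EBC0

set_option autoImplicit false
set_option linter.all false

namespace Pool.Agent.TX17

open Pool.Agent.TV17 Pool.Agent.TW17

theorem EBmain (F : Set (Finset ℕ)) (hF : SevenTwoCoverable F) (k t : ℕ)
    (hk : ∀ A ∈ F, A.card = k) (H : Missed F t) (htk : t ≤ k) (ht : 17 * k + 160 ≤ 20 * t)
    (ht2 : 20 * t ≤ 17 * k + 180)
    (A B C : Finset ℕ) (hA : A ∈ F) (hB : B ∈ F) (hC : C ∈ F) (e : A ∩ B ∩ C = ∅)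
    (c a b : ℕ) (hc : (A ∩ B).card = c) (ha : (A ∩ C).card = a) (hb : (B ∩ C).card = b)
    (hcap : ∀ X ∈ F, ∀ Y ∈ F, (X ∩ Y).card ≤ c ∨ 41 * k < 80 * (X ∩ Y).card)
    (hext : ∀ D ∈ F, A ∩ B ∩ D = ∅ → a ≤ (A ∩ D).card ∨ a ≤ (B ∩ D).card)
    (d0 : 1 * k ≤ 8 * c)
    (d1 : 20 * c ≤ 7 * k)
    (d2 : a ≤ c)
    (d3 : b ≤ a)
    : False := by
  exact EBc0 F hF k t hk H htk ht ht2 A B C hA hB hC e c a b hc ha hb hcap hext d0 d1 d2 d3 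

end Pool.Agent.TX17
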