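import Pool.Agent.TX17.Stat
import Pool.Agent.TX17.Cells

set_option autoImplicit false
set_option linter.all false

namespace Pool.Agent.TX17

open Pool.Agent.TV17 Pool.Agent.TW17

theorem ES307 (F : Set (Finset ℕ)) (hF : SevenTwoCoverable F) (t : ℕ) (H : Missed F t)
    (A B C D : Finset ℕ) (n0 n1 n2 n3 n4 n5 n6 n7 n8 n9 n10 n11 : ℕ)
    (cf : Cfg F A B C D ![n0, n1, n2, n3, n4, n5, n6, n7, n8, n9, n10, n11])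
    (z1 : n1 = 0) (z5 : n5 = 0)
    (q0 : n3 + n4 + n7 ≤ t)
    (q1 : n2 + n3 + n9 ≤ t)
    (q2 : n2 + 2 * n3 + n4 + n7 + n9 + n11 ≤ 2 * t)
    (q3 : n3 + n11 ≤ t)
    (q4 : n0 + 2 * n3 + n4 + n7 + n11 ≤ 2 * t)
    (q5 : n0 + n2 + 2 * n3 + n9 + n11 ≤ 2 * t)
    (q6 : n0 + n2 + 3 * n3 + n4 + n7 + n8 + n9 + 2 * n11 ≤ 3 * t)
    (q7 : n0 + 2 * n3 + n4 + n7 + n11 ≤ 2 * t)
    (q8 : n0 + n2 + 2 * n3 + n9 + n11 ≤ 2 * t)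
    (q9 : 2 * n0 + n2 + 4 * n3 + n4 + n7 + n9 + 3 * n11 ≤ 4 * t)
    (q10 : 2 * n0 + n2 + 4 * n3 + n4 + n7 + n8 + n9 + 3 * n11 ≤ 4 * t)
    : False := by
  obtain ⟨m1, m2, hm, g1, g2, g3, g4, g5, g6, g7⟩ : ∃ m1 m2 : ℕ, n0 = m1 + m2 ∧
      n3 + n4 + n7 + m1 ≤ t ∧
      n2 + n3 + n9 + m1 ≤ t ∧
      n2 + 2 * n3 + n4 + n7 + n9 + n11 + 2 * m1 ≤ 2 * t ∧
      n3 + n11 + m2 ≤ t ∧
      2 * n3 + n4 + n7 + n11 + m1 + m2 ≤ 2 * t ∧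
      n2 + 2 * n3 + n9 + n11 + m1 + m2 ≤ 2 * t ∧
      n2 + 3 * n3 + n4 + n7 + n8 + n9 + 2 * n11 + 2 * m1 + m2 ≤ 3 * t := by
    rcases Nat.le_total (n0 + n3 + n11) (t) with hle | hle
    · exact ⟨0, n0, (Nat.zero_add _).symm,
        by linarith only [q0],
        by linarith only [q1],
        by linarith only [q2],
        by linarith only [hle],
        by linarith only [q4],
        by linarith only [q5],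
        by linarith only [q6]⟩
    · obtain ⟨m1, h1⟩ := Nat.exists_eq_add_of_le hle
      obtain ⟨m2, h2⟩ := Nat.exists_eq_add_of_le (show n3 + n11 ≤ t by linarith only [q3])
      have hs : n0 = m1 + m2 := by linarith only [h1, h2]
      exact ⟨m1, m2, hs,
        by linarith only [q7, h1, h2, hs],
        by linarith only [q8, h1, h2, hs],
        by linarith only [q9, h1, h2, hs],
        by linarith only [h1, h2, hs],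
        by linarith only [q4, hs],
        by linarith only [q5, hs],
        by linarith only [q10, h1, h2, hs]⟩
  refine comp_code F hF t H A B C D _ cf
    [(0, 3, 0), (0, 4, 0), (2, 2, 0), (3, 7, 0), (4, 1, 0), (6, 0, 0), (7, 1, 0), (8, 0, 7), (9, 2, 0), (10, 0, 0), (11, 4, 3)]
    [m1, m2, n2, n3, n4, n6, n7, n8, n9, n10, n11]
    ![[1, 1, 0, 0, 0, 0, 0, 0, 0, 0, 0],
      [0, 0, 0, 0, 0, 0, 0, 0, 0, 0, 0],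
      [0, 0, 1, 0, 0, 0, 0, 0, 0, 0, 0],
      [0, 0, 0, 1, 0, 0, 0, 0, 0, 0, 0],
      [0, 0, 0, 0, 1, 0, 0, 0, 0, 0, 0],
      [0, 0, 0, 0, 0, 0, 0, 0, 0, 0, 0],
      [0, 0, 0, 0, 0, 1, 0, 0, 0, 0, 0],
      [0, 0, 0, 0, 0, 0, 1, 0, 0, 0, 0],
      [0, 0, 0, 0, 0, 0, 0, 1, 0, 0, 0],
      [0, 0, 0, 0, 0, 0, 0, 0, 1, 0, 0],
      [0, 0, 0, 0, 0, 0, 0, 0, 0, 1, 0],
      [0, 0, 0, 0, 0, 0, 0, 0, 0, 0, 1]]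
    ![[1, 0, 0, 1, 1, 0, 1, 0, 0, 0, 0],
      [1, 0, 1, 1, 0, 0, 0, 0, 1, 0, 0],
      [0, 1, 0, 1, 0, 0, 0, 0, 0, 0, 1],
      [2, 0, 1, 2, 1, 0, 1, 0, 1, 0, 1],
      [1, 1, 0, 2, 1, 0, 1, 0, 0, 0, 1],
      [1, 1, 1, 2, 0, 0, 0, 0, 1, 0, 1],
      [2, 1, 1, 3, 1, 0, 1, 1, 1, 0, 2]]
    (by decide +kernel) ?_ ?_ ?_ ?_ ?_ ?_ ?_ ?_ ?_ ?_ ?_ ?_ ?_ ?_ ?_ ?_ ?_ ?_ ?_
  all_goals
    (try simp only [dot_cons, dot_nil, Matrix.cons_val, zero_mul, one_mul, zero_add, add_zero, le_refl])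
    (try linarith only [hm, g1, g2, g3, g4, g5, g6, g7, z1, z5])

theorem ES313 (F : Set (Finset ℕ)) (hF : SevenTwoCoverable F) (t : ℕ) (H : Missed F t)
    (A B C D : Finset ℕ) (n0 n1 n2 n3 n4 n5 n6 n7 n8 n9 n10 n11 : ℕ)
    (cf : Cfg F A B C D ![n0, n1, n2, n3, n4, n5, n6, n7, n8, n9, n10, n11])
    (z3 : n3 = 0) (z5 : n5 = 0)
    (q0 : n1 + n4 + n7 ≤ t)
    (q1 : n1 + n2 + n9 ≤ t)
    (q2 : 2 * n1 + n2 + n4 + n7 + n9 + n10 + n11 ≤ 2 * t)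
    (q3 : n11 ≤ t)
    (q4 : n0 + n1 + n4 + n7 + n11 ≤ 2 * t)
    (q5 : n0 + n1 + n2 + n9 + n11 ≤ 2 * t)
    (q6 : n0 + 2 * n1 + n2 + n4 + n7 + n9 + n10 + 2 * n11 ≤ 3 * t)
    (q7 : n0 + n1 + n4 + n7 + n11 ≤ 2 * t)
    (q8 : n0 + n1 + n2 + n9 + n11 ≤ 2 * t)
    (q9 : 2 * n0 + 2 * n1 + n2 + n4 + n7 + n9 + n10 + 3 * n11 ≤ 4 * t)
    (q10 : 2 * n0 + 2 * n1 + n2 + n4 + n7 + n9 + n10 + 3 * n11 ≤ 4 * t)
    : False := by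
  obtain ⟨m1, m2, hm, g1, g2, g3, g4, g5, g6, g7⟩ : ∃ m1 m2 : ℕ, n0 = m1 + m2 ∧
      n1 + n4 + n7 + m1 ≤ t ∧
      n1 + n2 + n9 + m1 ≤ t ∧
      2 * n1 + n2 + n4 + n7 + n9 + n10 + n11 + 2 * m1 ≤ 2 * t ∧
      n11 + m2 ≤ t ∧
      n1 + n4 + n7 + n11 + m1 + m2 ≤ 2 * t ∧
      n1 + n2 + n9 + n11 + m1 + m2 ≤ 2 * t ∧
      2 * n1 + n2 + n4 + n7 + n9 + n10 + 2 * n11 + 2 * m1 + m2 ≤ 3 * t := by
    rcases Nat.le_total (n0 + n11) (t) with hle | hle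
    · exact ⟨0, n0, (Nat.zero_add _).symm,
        by linarith only [q0],
        by linarith only [q1],
        by linarith only [q2],
        by linarith only [hle],
        by linarith only [q4],
        by linarith only [q5],
        by linarith only [q6]⟩
    · obtain ⟨m1, h1⟩ := Nat.exists_eq_add_of_le hle
      obtain ⟨m2, h2⟩ := Nat.exists_eq_add_of_le (show n11 ≤ t by linarith only [q3])
      have hs : n0 = m1 + m2 := by linarith only [h1, h2]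
      exact ⟨m1, m2, hs,
        by linarith only [q7, h1, h2, hs],
        by linarith only [q8, h1, h2, hs],
        by linarith only [q9, h1, h2, hs],
        by linarith only [h1, h2, hs],
        by linarith only [q4, hs],
        by linarith only [q5, hs],
        by linarith only [q10, h1, h2, hs]⟩
  refine comp_code F hF t H A B C D _ cf
    [(0, 3, 0), (0, 4, 0), (1, 3, 0), (2, 2, 0), (4, 1, 0), (6, 0, 0), (7, 1, 0), (8, 0, 0), (9, 2, 0), (10, 0, 3), (11, 4, 3)]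
    [m1, m2, n1, n2, n4, n6, n7, n8, n9, n10, n11]
    ![[1, 1, 0, 0, 0, 0, 0, 0, 0, 0, 0],
      [0, 0, 1, 0, 0, 0, 0, 0, 0, 0, 0],
      [0, 0, 0, 1, 0, 0, 0, 0, 0, 0, 0],
      [0, 0, 0, 0, 0, 0, 0, 0, 0, 0, 0],
      [0, 0, 0, 0, 1, 0, 0, 0, 0, 0, 0],
      [0, 0, 0, 0, 0, 0, 0, 0, 0, 0, 0],
      [0, 0, 0, 0, 0, 1, 0, 0, 0, 0, 0],
      [0, 0, 0, 0, 0, 0, 1, 0, 0, 0, 0],
      [0, 0, 0, 0, 0, 0, 0, 1, 0, 0, 0],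
      [0, 0, 0, 0, 0, 0, 0, 0, 1, 0, 0],
      [0, 0, 0, 0, 0, 0, 0, 0, 0, 1, 0],
      [0, 0, 0, 0, 0, 0, 0, 0, 0, 0, 1]]
    ![[1, 0, 1, 0, 1, 0, 1, 0, 0, 0, 0],
      [1, 0, 1, 1, 0, 0, 0, 0, 1, 0, 0],
      [0, 1, 0, 0, 0, 0, 0, 0, 0, 0, 1],
      [2, 0, 2, 1, 1, 0, 1, 0, 1, 1, 1],
      [1, 1, 1, 0, 1, 0, 1, 0, 0, 0, 1],
      [1, 1, 1, 1, 0, 0, 0, 0, 1, 0, 1],
      [2, 1, 2, 1, 1, 0, 1, 0, 1, 1, 2]]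
    (by decide +kernel) ?_ ?_ ?_ ?_ ?_ ?_ ?_ ?_ ?_ ?_ ?_ ?_ ?_ ?_ ?_ ?_ ?_ ?_ ?_
  all_goals
    (try simp only [dot_cons, dot_nil, Matrix.cons_val, zero_mul, one_mul, zero_add, add_zero, le_refl])
    (try linarith only [hm, g1, g2, g3, g4, g5, g6, g7, z3, z5])

theorem ES343 (F : Set (Finset ℕ)) (hF : SevenTwoCoverable F) (t : ℕ) (H : Missed F t)
    (A B C D : Finset ℕ) (n0 n1 n2 n3 n4 n5 n6 n7 n8 n9 n10 n11 : ℕ)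
    (cf : Cfg F A B C D ![n0, n1, n2, n3, n4, n5, n6, n7, n8, n9, n10, n11])
    (z1 : n1 = 0) (z5 : n5 = 0)
    (q1 : n3 + n4 + n7 + n11 ≤ t)
    (q2 : n2 + n3 + n9 ≤ t)
    (q3 : n2 + 2 * n3 + n4 + n7 + n9 + n11 ≤ 2 * t)
    (q4 : n3 + n11 ≤ t)
    (q5 : n0 + 2 * n3 + n4 + n7 + 2 * n11 ≤ 2 * t)
    (q6 : n2 + 2 * n3 + n9 + n11 ≤ 2 * t)
    (q7 : n0 + n2 + 3 * n3 + n4 + n7 + n8 + n9 + 2 * n11 ≤ 3 * t)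
    : False := by
  refine comp12 F hF t H A B C D _ cf
    ![some (∅, {0, 2}), none, some ({1}, ∅), some ({0, 1, 2}, ∅), some ({0}, ∅), none, some (∅, ∅), some ({0}, ∅), some (∅, {0, 1, 2}), some ({1}, ∅), some (∅, ∅), some ({0, 2}, ∅)]
    ![0, 1, 0, 0, 0, 1, 0, 0, 0, 0, 0, 0]
    ![![0, 0, 0, 1, 1, 0, 0, 1, 0, 0, 0, 1],
      ![0, 0, 1, 1, 0, 0, 0, 0, 0, 1, 0, 0],
      ![0, 0, 0, 1, 0, 0, 0, 0, 0, 0, 0, 1],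
      ![0, 0, 1, 2, 1, 0, 0, 1, 0, 1, 0, 1],
      ![1, 0, 0, 2, 1, 0, 0, 1, 0, 0, 0, 2],
      ![0, 0, 1, 2, 0, 0, 0, 0, 0, 1, 0, 1],
      ![1, 0, 1, 3, 1, 0, 0, 1, 1, 1, 0, 2]]
    (by decide +kernel) ?_ ?_ ?_ ?_ ?_ ?_ ?_ ?_
  all_goals
    simp only [lin12, Matrix.cons_val]
    linarith

theorem ES405 (F : Set (Finset ℕ)) (hF : SevenTwoCoverable F) (t : ℕ) (H : Missed F t)
    (A B C D : Finset ℕ) (n0 n1 n2 n3 n4 n5 n6 n7 n8 n9 n10 n11 : ℕ)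
    (cf : Cfg F A B C D ![n0, n1, n2, n3, n4, n5, n6, n7, n8, n9, n10, n11])
    (z1 : n1 = 0) (z5 : n5 = 0)
    (q1 : n2 + n3 + n7 + n9 ≤ t)
    (q2 : n3 + n7 + n11 ≤ t)
    (q3 : n2 + 2 * n3 + n4 + 2 * n7 + n9 + n11 ≤ 2 * t)
    (q4 : n3 + n11 ≤ t)
    (q5 : n2 + 2 * n3 + n7 + n9 + n11 ≤ 2 * t)
    (q6 : n0 + 2 * n3 + n7 + 2 * n11 ≤ 2 * t)
    (q7 : n0 + n2 + 3 * n3 + n4 + 2 * n7 + n8 + n9 + 2 * n11 ≤ 3 * t)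
    : False := by
  refine comp12 F hF t H A B C D _ cf
    ![some (∅, {1, 2}), none, some ({0}, ∅), some ({0, 1, 2}, ∅), some (∅, {0, 1}), none, some (∅, ∅), some ({0, 1}, ∅), some (∅, {0, 1, 2}), some ({0}, ∅), some (∅, ∅), some ({1, 2}, ∅)]
    ![0, 1, 0, 0, 0, 1, 0, 0, 0, 0, 0, 0]
    ![![0, 0, 1, 1, 0, 0, 0, 1, 0, 1, 0, 0],
      ![0, 0, 0, 1, 0, 0, 0, 1, 0, 0, 0, 1],
      ![0, 0, 0, 1, 0, 0, 0, 0, 0, 0, 0, 1],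
      ![0, 0, 1, 2, 1, 0, 0, 2, 0, 1, 0, 1],
      ![0, 0, 1, 2, 0, 0, 0, 1, 0, 1, 0, 1],
      ![1, 0, 0, 2, 0, 0, 0, 1, 0, 0, 0, 2],
      ![1, 0, 1, 3, 1, 0, 0, 2, 1, 1, 0, 2]]
    (by decide +kernel) ?_ ?_ ?_ ?_ ?_ ?_ ?_ ?_
  all_goals
    simp only [lin12, Matrix.cons_val]
    linarith

theorem ES611 (F : Set (Finset ℕ)) (hF : SevenTwoCoverable F) (t : ℕ) (H : Missed F t)
    (A B C D : Finset ℕ) (n0 n1 n2 n3 n4 n5 n6 n7 n8 n9 n10 n11 : ℕ)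
    (cf : Cfg F A B C D ![n0, n1, n2, n3, n4, n5, n6, n7, n8, n9, n10, n11])
    (z3 : n3 = 0) (z5 : n5 = 0)
    (q1 : n0 + n1 + n7 ≤ t)
    (q2 : n0 + n1 + n7 ≤ t)
    (q3 : 2 * n0 + 2 * n1 + 2 * n7 + n11 ≤ 2 * t)
    (q4 : n1 + n2 + n7 + n9 ≤ t)
    (q5 : n0 + 2 * n1 + n2 + 2 * n7 + n9 ≤ 2 * t)
    (q6 : n0 + 2 * n1 + n2 + 2 * n7 + n9 ≤ 2 * t)
    (q7 : 2 * n0 + 3 * n1 + n2 + n4 + 3 * n7 + n9 + n10 + n11 ≤ 3 * t)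
    : False := by
  refine comp12 F hF t H A B C D _ cf
    ![some ({0, 1}, ∅), some ({0, 1, 2}, ∅), some ({2}, ∅), none, some (∅, {0, 1, 2}), none, some (∅, ∅), some ({0, 1, 2}, ∅), some (∅, ∅), some ({2}, ∅), some (∅, {0, 1, 2}), some (∅, {0, 1})]
    ![0, 0, 0, 1, 0, 1, 0, 0, 0, 0, 0, 0]
    ![![1, 1, 0, 0, 0, 0, 0, 1, 0, 0, 0, 0],
      ![1, 1, 0, 0, 0, 0, 0, 1, 0, 0, 0, 0],
      ![0, 1, 1, 0, 0, 0, 0, 1, 0, 1, 0, 0],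
      ![2, 2, 0, 0, 0, 0, 0, 2, 0, 0, 0, 1],
      ![1, 2, 1, 0, 0, 0, 0, 2, 0, 1, 0, 0],
      ![1, 2, 1, 0, 0, 0, 0, 2, 0, 1, 0, 0],
      ![2, 3, 1, 0, 1, 0, 0, 3, 0, 1, 1, 1]]
    (by decide +kernel) ?_ ?_ ?_ ?_ ?_ ?_ ?_ ?_
  all_goals
    simp only [lin12, Matrix.cons_val]
    linarith

theorem ES633 (F : Set (Finset ℕ)) (hF : SevenTwoCoverable F) (t : ℕ) (H : Missed F t)
    (A B C D : Finset ℕ) (n0 n1 n2 n3 n4 n5 n6 n7 n8 n9 n10 n11 : ℕ)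
    (cf : Cfg F A B C D ![n0, n1, n2, n3, n4, n5, n6, n7, n8, n9, n10, n11])
    (z1 : n1 = 0) (z3 : n3 = 0) (z5 : n5 = 0)
    (q1 : n0 + n2 + n4 + n7 ≤ t)
    (q2 : n2 ≤ t)
    (q3 : n0 + 2 * n2 + n4 + n7 + n9 ≤ 2 * t)
    (q4 : n0 ≤ t)
    (q5 : 2 * n0 + n2 + n4 + n7 + n11 ≤ 2 * t)
    (q6 : n0 + n2 ≤ 2 * t)
    (q7 : 2 * n0 + 2 * n2 + n4 + n7 + n9 + n11 ≤ 3 * t)
    : False := by
  refine comp12 F hF t H A B C D _ cf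
    ![some ({0, 2}, ∅), none, some ({0, 1}, ∅), none, some ({0}, ∅), none, some (∅, ∅), some ({0}, ∅), some (∅, ∅), some (∅, {0, 1}), some (∅, ∅), some (∅, {0, 2})]
    ![0, 1, 0, 1, 0, 1, 0, 0, 0, 0, 0, 0]
    ![![1, 0, 1, 0, 1, 0, 0, 1, 0, 0, 0, 0],
      ![0, 0, 1, 0, 0, 0, 0, 0, 0, 0, 0, 0],
      ![1, 0, 0, 0, 0, 0, 0, 0, 0, 0, 0, 0],
      ![1, 0, 2, 0, 1, 0, 0, 1, 0, 1, 0, 0],
      ![2, 0, 1, 0, 1, 0, 0, 1, 0, 0, 0, 1],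
      ![1, 0, 1, 0, 0, 0, 0, 0, 0, 0, 0, 0],
      ![2, 0, 2, 0, 1, 0, 0, 1, 0, 1, 0, 1]]
    (by decide +kernel) ?_ ?_ ?_ ?_ ?_ ?_ ?_ ?_
  all_goals
    simp only [lin12, Matrix.cons_val]
    linarith

end Pool.Agent.TX17
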