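import Pool.Agent.TX17.Stat
import Pool.Agent.TX17.Cells
import Pool.Agent.TX17.ET1
import Pool.Agent.TX17.ET2
import Pool.Agent.TX17.ET4

set_option autoImplicit false
set_option linter.all false

namespace Pool.Agent.TX17

open Pool.Agent.TV17 Pool.Agent.TW17

theorem EX1c0 (F : Set (Finset ℕ)) (hF : SevenTwoCoverable F) (k t : ℕ)
    (hk : ∀ A ∈ F, A.card = k) (H : Missed F t) (htk : t ≤ k) (ht : 17 * k + 160 ≤ 20 * t)
    (ht2 : 20 * t ≤ 17 * k + 180)
    (A B C : Finset ℕ) (hA : A ∈ F) (hB : B ∈ F) (hC : C ∈ F) (e : A ∩ B ∩ C = ∅)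
    (c a b : ℕ) (hc : (A ∩ B).card = c) (ha : (A ∩ C).card = a) (hb : (B ∩ C).card = b)
    (hcap : ∀ X ∈ F, ∀ Y ∈ F, 20 * (X ∩ Y).card ≤ 7 * k ∨ c ≤ (X ∩ Y).card)
    (hext : ∀ D ∈ F, A ∩ B ∩ D = ∅ → a ≤ (A ∩ D).card ∨ a ≤ (B ∩ D).card)
    (d0 : 7 * k ≤ 20 * c)
    (d1 : 80 * c ≤ 41 * k)
    (d2 : 2 * a + c + t ≤ 2 * k + 1)
    (d3 : 20 * a ≤ 7 * k)
    (d4 : b ≤ a)
    (x0 : 1000 * a ≤ 175 * k)
    (x1 : 1000 * a ≤ 87 * k)
    : False := by
  obtain ⟨R, hR⟩ : ∃ R : ℕ, R + (c + a + b) = t := ⟨t - (c + a + b), by omega⟩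
  obtain ⟨D, n0, n1, n2, n3, n4, n5, n6, n7, n8, n9, n10, n11, cf, e1, e2, e3, e4, e5, e6, f1, f2, f3,
    f4, f5, f6, f7, gA, gB, gC⟩ := respond F k t hk H A B C hA hB hC e c a b hc ha hb
    c a b 0 0 R
    (le_refl _)
    (le_refl _)
    (le_refl _)
    (by linarith only [d1, x0])
    (by linarith only [d1, d4, x0])
    (by linarith only [htk, ht2, hR])
    (by linarith only [hR])
  rcases hext D cf.hD (emptyD A B D n1 cf.r1 (Nat.le_zero.1 (by linarith only [f1]))) with w1 | w1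
  · rw [gA] at w1
    exact ES1217 F hF t H A B C D n0 n1 n2 n3 n4 n5 n6 n7 n8 n9 n10 n11 cf
      (Nat.le_zero.1 (by linarith only [f1]))
      (Nat.le_zero.1 (by linarith only [f2]))
      (Nat.le_zero.1 (by linarith only [f3]))
      (by linarith only [ht, d0, d4, e3, e4])
      (by linarith only [ht, d0, x1, e2, e5])
      (by linarith only [ht, d4, x1, hR, e1, e2, e3, e4, e5, f7])
      (by linarith only [ht, d1, e1])
      (by linarith only [ht, d1, d4, hR, e1, e3, f7])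
      (by linarith only [ht, d1, x1, e1, e2, f7])
      (by linarith only [ht, d1, hR, e1, e2, e3, f7])
      (by linarith only [ht, d1, d4, hR, e1, e3, f7])
      (by linarith only [ht, d1, x1, e1, e2, f7])
      (by linarith only [ht, d1, d4, x1, hR, e1, e2, e3, e6, f6, f7])
      (by linarith only [ht, d1, d4, x1, hR, e1, e2, e3, e6, f6, f7])
  · rw [gB] at w1
    exact ES1217 F hF t H A B C D n0 n1 n2 n3 n4 n5 n6 n7 n8 n9 n10 n11 cf
      (Nat.le_zero.1 (by linarith only [f1]))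
      (Nat.le_zero.1 (by linarith only [f2]))
      (Nat.le_zero.1 (by linarith only [f3]))
      (by linarith only [ht, d0, d4, e3, e4])
      (by linarith only [ht, d0, x1, e2, e5])
      (by linarith only [ht, d4, x1, hR, e1, e2, e3, e4, e5, f7])
      (by linarith only [ht, d1, e1])
      (by linarith only [ht, d1, d4, hR, e1, e3, f7])
      (by linarith only [ht, d1, x1, e1, e2, f7])
      (by linarith only [ht, d1, hR, e1, e2, e3, f7])
      (by linarith only [ht, d1, d4, hR, e1, e3, f7])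
      (by linarith only [ht, d1, x1, e1, e2, f7])
      (by linarith only [ht, d1, d4, x1, hR, e1, e2, e3, e6, f6, f7])
      (by linarith only [ht, d1, d4, x1, hR, e1, e2, e3, e6, f6, f7])

theorem EX1c1 (F : Set (Finset ℕ)) (hF : SevenTwoCoverable F) (k t : ℕ)
    (hk : ∀ A ∈ F, A.card = k) (H : Missed F t) (htk : t ≤ k) (ht : 17 * k + 160 ≤ 20 * t)
    (ht2 : 20 * t ≤ 17 * k + 180)
    (A B C : Finset ℕ) (hA : A ∈ F) (hB : B ∈ F) (hC : C ∈ F) (e : A ∩ B ∩ C = ∅)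
    (c a b : ℕ) (hc : (A ∩ B).card = c) (ha : (A ∩ C).card = a) (hb : (B ∩ C).card = b)
    (hcap : ∀ X ∈ F, ∀ Y ∈ F, 20 * (X ∩ Y).card ≤ 7 * k ∨ c ≤ (X ∩ Y).card)
    (hext : ∀ D ∈ F, A ∩ B ∩ D = ∅ → a ≤ (A ∩ D).card ∨ a ≤ (B ∩ D).card)
    (d0 : 7 * k ≤ 20 * c)
    (d1 : 80 * c ≤ 41 * k)
    (d2 : 2 * a + c + t ≤ 2 * k + 1)
    (d3 : 20 * a ≤ 7 * k)
    (d4 : b ≤ a)
    (x0 : 1000 * a ≤ 175 * k)
    (x1 : 87 * k ≤ 1000 * a)
    : False := by
  obtain ⟨vA, hvA⟩ : ∃ v : ℕ, v + c + a = k := ⟨k - c - a, by omega⟩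
  obtain ⟨R, hR⟩ : ∃ R : ℕ, R + (a + b + vA) = t := ⟨t - (a + b + vA), by omega⟩
  obtain ⟨h, hh1, hh2⟩ : ∃ h : ℕ, 3 * h ≤ R ∧ R ≤ 3 * h + 2 := ⟨R / 3, by omega, by omega⟩
  obtain ⟨D, n0, n1, n2, n3, n4, n5, n6, n7, n8, n9, n10, n11, cf, e1, e2, e3, e4, e5, e6, f1, f2, f3,
    f4, f5, f6, f7, gA, gB, gC⟩ := respond F k t hk H A B C hA hB hC e c a b hc ha hb
    h a b vA 0 (2 * h)
    (by linarith only [htk, ht2, d0, x1, hR, hh1])
    (le_refl _)
    (le_refl _)
    (by linarith only [hvA])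
    (by linarith only [d1, d4, x0])
    (by linarith only [htk, ht2, d4, x0, hR, hh1])
    (by linarith only [hR, hh1])
  rcases hcap A hA D cf.hD with w1 | w1
  · rw [gA] at w1
    rcases hcap C hC D cf.hD with w2 | w2
    · rw [gC] at w2
      exact sC F hF k t hk H htk A C D hA hC cf.hD
        (emptyD A C D n3 cf.r3 (Nat.le_zero.1 (by linarith only [f2]))) a (n1 + n3 + n7) (n3 + n5 + n11) ha gA gC
        (by linarith only [ht, x0])
        (by linarith only [ht, w1])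
        (by linarith only [ht, x0, w1])
        (by linarith only [ht, w2])
        (by linarith only [ht, x0, w2])
        (by linarith only [ht, w1, w2])
        (by linarith only [ht, w2])
    · rw [gC] at w2
      exact ES611 F hF t H A B C D n0 n1 n2 n3 n4 n5 n6 n7 n8 n9 n10 n11 cf
        (Nat.le_zero.1 (by linarith only [f2]))
        (Nat.le_zero.1 (by linarith only [f3]))
        (by linarith only [ht, d1, hvA, e1, f4, w1])
        (by linarith only [ht, d1, hvA, e1, f4, w1])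
        (by linarith only [ht, d1, x1, hvA, hR, hh2, e1, f4, f6, f7])
        (by linarith only [ht, d0, x0, e2, f7, w2])
        (by linarith only [ht, x0, e1, e2, e5, f7, w1, w2])
        (by linarith only [ht, x0, e1, e2, e5, f7, w1, w2])
        (by linarith only [ht, d1, hvA, e1, e2, e3, e6, f4, f7, w1, w2])
  · rw [gA] at w1
    linarith only [htk, ht, d0, d4, x0, hvA, hR, hh2, f1, f2, f4, w1]

theorem EX1c2 (F : Set (Finset ℕ)) (hF : SevenTwoCoverable F) (k t : ℕ)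
    (hk : ∀ A ∈ F, A.card = k) (H : Missed F t) (htk : t ≤ k) (ht : 17 * k + 160 ≤ 20 * t)
    (ht2 : 20 * t ≤ 17 * k + 180)
    (A B C : Finset ℕ) (hA : A ∈ F) (hB : B ∈ F) (hC : C ∈ F) (e : A ∩ B ∩ C = ∅)
    (c a b : ℕ) (hc : (A ∩ B).card = c) (ha : (A ∩ C).card = a) (hb : (B ∩ C).card = b)
    (hcap : ∀ X ∈ F, ∀ Y ∈ F, 20 * (X ∩ Y).card ≤ 7 * k ∨ c ≤ (X ∩ Y).card)
    (hext : ∀ D ∈ F, A ∩ B ∩ D = ∅ → a ≤ (A ∩ D).card ∨ a ≤ (B ∩ D).card)
    (d0 : 7 * k ≤ 20 * c)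
    (d1 : 80 * c ≤ 41 * k)
    (d2 : 2 * a + c + t ≤ 2 * k + 1)
    (d3 : 20 * a ≤ 7 * k)
    (d4 : b ≤ a)
    (x0 : 175 * k ≤ 1000 * a)
    (x1 : 1000 * b ≤ 175 * k)
    (x2 : 1000 * a ≤ 262 * k)
    (x3 : 1000 * b ≤ 87 * k)
    (x4 : 1000 * c ≤ 431 * k)
    : False := by
  obtain ⟨R, hR⟩ : ∃ R : ℕ, R + (c + a) = t := ⟨t - (c + a), by omega⟩
  obtain ⟨D, n0, n1, n2, n3, n4, n5, n6, n7, n8, n9, n10, n11, cf, e1, e2, e3, e4, e5, e6, f1, f2, f3,
    f4, f5, f6, f7, gA, gB, gC⟩ := respond F k t hk H A B C hA hB hC e c a b hc ha hb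
    c a 0 0 R 0
    (le_refl _)
    (le_refl _)
    (by linarith only [])
    (by linarith only [x2, x4])
    (by linarith only [htk, ht2, x0, x3, hR])
    (by linarith only [x1, x2])
    (by linarith only [hR])
  rcases hext D cf.hD (emptyD A B D n1 cf.r1 (Nat.le_zero.1 (by linarith only [f1]))) with w1 | w1
  · rw [gA] at w1
    exact ES953 F hF t H A B C D n0 n1 n2 n3 n4 n5 n6 n7 n8 n9 n10 n11 cf
      (Nat.le_zero.1 (by linarith only [f1]))
      (Nat.le_zero.1 (by linarith only [f2]))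
      (by linarith only [ht, d0, x2, hR, e2, e3, e5, f5])
      (by linarith only [ht, x3, x4, e1, e3])
      (by linarith only [ht, d0, x2, x3, hR, e1, e2, e3, e4, e5, f5])
      (by linarith only [ht, x4, e1])
      (by linarith only [ht, x2, e1, e2, e3, e5])
      (by linarith only [ht, x0, x4, e1, e3, e6])
      (by linarith only [ht, x0, x3, x4, e1, e2, e3, e4, f7, w1])
  · rw [gB] at w1
    by_cases u2 : 2 * n0 + n2 + 2 * n4 + 2 * n5 + n6 + n7 + n9 + n11 ≤ 3 * t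
    swap
    · exact ES955 F hF t H A B C D n0 n1 n2 n3 n4 n5 n6 n7 n8 n9 n10 n11 cf
        (Nat.le_zero.1 (by linarith only [f1]))
        (Nat.le_zero.1 (by linarith only [f2]))
        (by linarith only [ht, x2, x3, x4, hR, e1, e2, e3, e4, f5, f7, u2])
        (by linarith only [ht, x3, x4, e1, e3])
        (by linarith only [ht, d0, x2, x3, hR, e1, e2, e3, e4, e5, f5])
        (by linarith only [ht, x4, e1])
        (by linarith only [ht, x2, x3, x4, e1, e2, e3, e4, e5, f7])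
        (by linarith only [ht, x0, x4, e1, e3, e6, f7])
        (by linarith only [ht, x3, x4, e1, e2, e3, e4, f7])
    exact ES953 F hF t H A B C D n0 n1 n2 n3 n4 n5 n6 n7 n8 n9 n10 n11 cf
      (Nat.le_zero.1 (by linarith only [f1]))
      (Nat.le_zero.1 (by linarith only [f2]))
      (by linarith only [ht, d0, x2, hR, e2, e3, e5, f5])
      (by linarith only [ht, x3, x4, e1, e3, u2])
      (by linarith only [ht, d0, x2, x3, hR, e1, e2, e3, e4, f5, u2])
      (by linarith only [ht, x4, e1, u2])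
      (by linarith only [ht, d0, x2, e2, e4, e5, u2])
      (by linarith only [ht, x0, x4, e1, e3, e4, e6, u2])
      (by linarith only [u2])

end Pool.Agent.TX17
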