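import Pool.Agent.TX17.Stat
import Pool.Agent.TX17.Cells
import Pool.Agent.TX17.ET0
import Pool.Agent.TX17.ET2
import Pool.Agent.TX17.ET3
import Pool.Agent.TX17.ET4

set_option autoImplicit false
set_option linter.all false

namespace Pool.Agent.TX17

open Pool.Agent.TV17 Pool.Agent.TW17

theorem EX1c3 (F : Set (Finset ℕ)) (hF : SevenTwoCoverable F) (k t : ℕ)
    (hk : ∀ A ∈ F, A.card = k) (H : Missed F t) (htk : t ≤ k) (ht : 17 * k + 160 ≤ 20 * t)
    (ht2 : 20 * t ≤ 17 * k + 180)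
    (A B C : Finset ℕ) (hA : A ∈ F) (hB : B ∈ F) (hC : C ∈ F) (e : A ∩ B ∩ C = ∅)
    (c a b : ℕ) (hc : (A ∩ B).card = c) (ha : (A ∩ C).card = a) (hb : (B ∩ C).card = b)
    (hcap : ∀ X ∈ F, ∀ Y ∈ F, 20 * (X ∩ Y).card ≤ 7 * k ∨ c ≤ (X ∩ Y).card)
    (hext : ∀ D ∈ F, A ∩ B ∩ D = ∅ → a ≤ (A ∩ D).card ∨ a ≤ (B ∩ D).card)
    (d0 : 7 * k ≤ 20 * c)
    (d1 : 80 * c ≤ 41 * k)
    (d2 : 2 * a + c + t ≤ 2 * k + 1)
    (d3 : 20 * a ≤ 7 * k)
    (d4 : b ≤ a)
    (x0 : 175 * k ≤ 1000 * a)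
    (x1 : 1000 * b ≤ 175 * k)
    (x2 : 1000 * a ≤ 262 * k)
    (x3 : 1000 * b ≤ 87 * k)
    (x4 : 431 * k ≤ 1000 * c)
    : False := by
  obtain ⟨vA, hvA⟩ : ∃ v : ℕ, v + c + a = k := ⟨k - c - a, by omega⟩
  obtain ⟨R, hR⟩ : ∃ R : ℕ, R + (a + b + vA) = t := ⟨t - (a + b + vA), by omega⟩
  obtain ⟨h, hh1, hh2⟩ : ∃ h : ℕ, 3 * h ≤ R ∧ R ≤ 3 * h + 2 := ⟨R / 3, by omega, by omega⟩
  obtain ⟨D, n0, n1, n2, n3, n4, n5, n6, n7, n8, n9, n10, n11, cf, e1, e2, e3, e4, e5, e6, f1, f2, f3,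
    f4, f5, f6, f7, gA, gB, gC⟩ := respond F k t hk H A B C hA hB hC e c a b hc ha hb
    h a b vA 0 (2 * h)
    (by linarith only [htk, ht2, x4, hR, hh1])
    (le_refl _)
    (le_refl _)
    (by linarith only [hvA])
    (by linarith only [d1, x1])
    (by linarith only [htk, ht2, x1, x2, hR, hh1])
    (by linarith only [hR, hh1])
  rcases hcap A hA D cf.hD with w1 | w1
  · rw [gA] at w1
    rcases hcap C hC D cf.hD with w2 | w2
    · rw [gC] at w2
      by_cases u3 : a + (n1 + n3 + n7) + 2 * k ≤ 3 * t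
      swap
      · by_cases u4 : (n3 + n5 + n11) + a + 2 * k ≤ 3 * t
        swap
        · exact s2 F hF k t hk H htk A C D hA hC cf.hD
            (emptyD A C D n3 cf.r3 (Nat.le_zero.1 (by linarith only [f2]))) a (n1 + n3 + n7) (n3 + n5 + n11) ha gA gC
            (by linarith only [ht, x0, w2, u3])
            (by linarith only [ht, x2, w1, u4])
            (by linarith only [ht, x2, u3, u4])
            (by linarith only [ht, x0, w1, w2])
            (by linarith only [ht, x0, w1, u4])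
            (by linarith only [ht, x2, w2, u3])
            (by linarith only [ht, x2, w1, w2])
        exact sB F hF k t hk H htk A C D hA hC cf.hD
          (emptyD A C D n3 cf.r3 (Nat.le_zero.1 (by linarith only [f2]))) a (n1 + n3 + n7) (n3 + n5 + n11) ha gA gC
          (by linarith only [ht, w2])
          (by linarith only [ht, x2])
          (by linarith only [u4])
          (by linarith only [ht, w1])
          (by linarith only [ht, w1, w2])
          (by linarith only [ht, x2, w1])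
          (by linarith only [ht, w1])
      exact sC F hF k t hk H htk A C D hA hC cf.hD
        (emptyD A C D n3 cf.r3 (Nat.le_zero.1 (by linarith only [f2]))) a (n1 + n3 + n7) (n3 + n5 + n11) ha gA gC
        (by linarith only [ht, x2])
        (by linarith only [ht, w1])
        (by linarith only [u3])
        (by linarith only [ht, w2])
        (by linarith only [ht, x2, w2])
        (by linarith only [ht, w1, w2])
        (by linarith only [ht, w2])
    · rw [gC] at w2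
      exact ES646 F hF t H A B C D n0 n1 n2 n3 n4 n5 n6 n7 n8 n9 n10 n11 cf
        (Nat.le_zero.1 (by linarith only [f2]))
        (Nat.le_zero.1 (by linarith only [f3]))
        (by linarith only [ht, d1, x3, hvA, e1, e3, f4, w1])
        (by linarith only [ht, x2, x4, e2, e5, f7, w1, w2])
        (by linarith only [ht, d1, x2, x3, e1, e2, e3, e5, f7, w1])
        (by linarith only [ht, d1, e1])
        (by linarith only [ht, d1, x0, x3, hvA, hR, hh2, e1, e3, f4, f6, f7])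
        (by linarith only [ht, d1, x2, e1, e2, e5, f7, w1])
        (by linarith only [ht, d1, e1, e2, e3, e5, e6, f7, w1, w2])
  · rw [gA] at w1
    linarith only [htk, ht, x3, x4, hvA, hR, hh2, f1, f2, f4, w1]

theorem EX1c4 (F : Set (Finset ℕ)) (hF : SevenTwoCoverable F) (k t : ℕ)
    (hk : ∀ A ∈ F, A.card = k) (H : Missed F t) (htk : t ≤ k) (ht : 17 * k + 160 ≤ 20 * t)
    (ht2 : 20 * t ≤ 17 * k + 180)
    (A B C : Finset ℕ) (hA : A ∈ F) (hB : B ∈ F) (hC : C ∈ F) (e : A ∩ B ∩ C = ∅)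
    (c a b : ℕ) (hc : (A ∩ B).card = c) (ha : (A ∩ C).card = a) (hb : (B ∩ C).card = b)
    (hcap : ∀ X ∈ F, ∀ Y ∈ F, 20 * (X ∩ Y).card ≤ 7 * k ∨ c ≤ (X ∩ Y).card)
    (hext : ∀ D ∈ F, A ∩ B ∩ D = ∅ → a ≤ (A ∩ D).card ∨ a ≤ (B ∩ D).card)
    (d0 : 7 * k ≤ 20 * c)
    (d1 : 80 * c ≤ 41 * k)
    (d2 : 2 * a + c + t ≤ 2 * k + 1)
    (d3 : 20 * a ≤ 7 * k)
    (d4 : b ≤ a)
    (x0 : 175 * k ≤ 1000 * a)
    (x1 : 1000 * b ≤ 175 * k)
    (x2 : 1000 * a ≤ 262 * k)
    (x3 : 87 * k ≤ 1000 * b)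
    (x4 : 1000 * c ≤ 431 * k)
    : False := by
  obtain ⟨T, hT1, hT2⟩ : ∃ T : ℕ, 20 * T ≤ 17 * k ∧ 17 * k ≤ 20 * T + 19 := ⟨17 * k / 20, by omega, by omega⟩
  obtain ⟨R, hR⟩ : ∃ R : ℕ, R + (a + b) = T := ⟨T - (a + b), by omega⟩
  obtain ⟨h, hh1, hh2⟩ : ∃ h : ℕ, 2 * h ≤ R ∧ R ≤ 2 * h + 1 := ⟨R / 2, by omega, by omega⟩
  obtain ⟨D, n0, n1, n2, n3, n4, n5, n6, n7, n8, n9, n10, n11, cf, e1, e2, e3, e4, e5, e6, f1, f2, f3,
    f4, f5, f6, f7, gA, gB, gC⟩ := respond F k t hk H A B C hA hB hC e c a b hc ha hb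
    h a b 0 h 0
    (by linarith only [d0, x0, x3, hT1, hR, hh1])
    (le_refl _)
    (le_refl _)
    (by linarith only [x2, x4])
    (by linarith only [x1, x4, hT1, hR, hh1])
    (by linarith only [x1, x2])
    (by linarith only [ht, hT1, hR, hh1])
  by_cases u1 : 2 * n0 + 3 * n1 + n2 + n4 + n7 + n9 + n10 + n11 ≤ 3 * t
  swap
  · exact ES285 F hF t H A B C D n0 n1 n2 n3 n4 n5 n6 n7 n8 n9 n10 n11 cf
      (Nat.le_zero.1 (by linarith only [f2]))
      (Nat.le_zero.1 (by linarith only [f3]))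
      (by linarith only [ht, x0, x1, hT2, hR, hh2, e3, e4, f1, f7])
      (by linarith only [ht, x2, hT2, hR, hh2, e2, f1, f5, f7])
      (by linarith only [ht, x1, x2, x4, hT2, hR, hh2, e1, e2, e3, f1, f7])
      (by linarith only [ht, x0, x3, x4, e1, e2, e3, e6, f7, u1])
      (by linarith only [ht, x1, x4, e1, e3, f7])
      (by linarith only [ht, x2, x4, e1, e2, f7])
      (by linarith only [ht, x1, x2, x4, hT2, hR, hh2, e1, e2, e3, e4, e6, f1, f5, f7])
  exact ES1235 F hF t H A B C D n0 n1 n2 n3 n4 n5 n6 n7 n8 n9 n10 n11 cf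
    (Nat.le_zero.1 (by linarith only [f2]))
    (Nat.le_zero.1 (by linarith only [f3]))
    (by linarith only [ht, d0, x0, x1, hT2, hR, hh2, e3, e4, e6, f1, u1])
    (by linarith only [ht, d0, x2, hT2, hR, hh2, e2, e6, f1, f5, u1])
    (by linarith only [ht, d0, x1, x2, e1, e2, e3, e6, f7, u1])
    (by linarith only [ht, x4, e1, u1])
    (by linarith only [ht, x0, x1, x4, e1, e2, e3, f7, u1])
    (by linarith only [ht, x2, x4, e1, e2, f7, u1])
    (by linarith only [u1])
    (by linarith only [ht, x0, x1, x4, e1, e2, e3, f7, u1])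
    (by linarith only [ht, x2, x4, e1, e2, f7, u1])
    (by linarith only [ht, x0, x3, x4, e1, e2, e3, e6, f7, u1])
    (by linarith only [ht, x0, x3, x4, e1, e2, e3, e6, f7, u1])

theorem EX1c5 (F : Set (Finset ℕ)) (hF : SevenTwoCoverable F) (k t : ℕ)
    (hk : ∀ A ∈ F, A.card = k) (H : Missed F t) (htk : t ≤ k) (ht : 17 * k + 160 ≤ 20 * t)
    (ht2 : 20 * t ≤ 17 * k + 180)
    (A B C : Finset ℕ) (hA : A ∈ F) (hB : B ∈ F) (hC : C ∈ F) (e : A ∩ B ∩ C = ∅)
    (c a b : ℕ) (hc : (A ∩ B).card = c) (ha : (A ∩ C).card = a) (hb : (B ∩ C).card = b)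
    (hcap : ∀ X ∈ F, ∀ Y ∈ F, 20 * (X ∩ Y).card ≤ 7 * k ∨ c ≤ (X ∩ Y).card)
    (hext : ∀ D ∈ F, A ∩ B ∩ D = ∅ → a ≤ (A ∩ D).card ∨ a ≤ (B ∩ D).card)
    (d0 : 7 * k ≤ 20 * c)
    (d1 : 80 * c ≤ 41 * k)
    (d2 : 2 * a + c + t ≤ 2 * k + 1)
    (d3 : 20 * a ≤ 7 * k)
    (d4 : b ≤ a)
    (x0 : 175 * k ≤ 1000 * a)
    (x1 : 1000 * b ≤ 175 * k)
    (x2 : 1000 * a ≤ 262 * k)
    (x3 : 87 * k ≤ 1000 * b)
    (x4 : 431 * k ≤ 1000 * c)
    : False := by
  obtain ⟨vA, hvA⟩ : ∃ v : ℕ, v + c + a = k := ⟨k - c - a, by omega⟩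
  obtain ⟨R, hR⟩ : ∃ R : ℕ, R + (a + b + vA) = t := ⟨t - (a + b + vA), by omega⟩
  obtain ⟨h, hh1, hh2⟩ : ∃ h : ℕ, 3 * h ≤ R ∧ R ≤ 3 * h + 2 := ⟨R / 3, by omega, by omega⟩
  obtain ⟨D, n0, n1, n2, n3, n4, n5, n6, n7, n8, n9, n10, n11, cf, e1, e2, e3, e4, e5, e6, f1, f2, f3,
    f4, f5, f6, f7, gA, gB, gC⟩ := respond F k t hk H A B C hA hB hC e c a b hc ha hb
    h a b vA 0 (2 * h)
    (by linarith only [htk, ht2, x4, hR, hh1])
    (le_refl _)
    (le_refl _)
    (by linarith only [hvA])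
    (by linarith only [d1, x1])
    (by linarith only [htk, ht2, x1, x2, hR, hh1])
    (by linarith only [hR, hh1])
  rcases hcap A hA D cf.hD with w1 | w1
  · rw [gA] at w1
    rcases hcap C hC D cf.hD with w2 | w2
    · rw [gC] at w2
      by_cases u3 : a + (n1 + n3 + n7) + 2 * k ≤ 3 * t
      swap
      · by_cases u4 : (n3 + n5 + n11) + a + 2 * k ≤ 3 * t
        swap
        · exact s2 F hF k t hk H htk A C D hA hC cf.hD
            (emptyD A C D n3 cf.r3 (Nat.le_zero.1 (by linarith only [f2]))) a (n1 + n3 + n7) (n3 + n5 + n11) ha gA gC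
            (by linarith only [ht, x0, w2, u3])
            (by linarith only [ht, x2, w1, u4])
            (by linarith only [ht, x2, u3, u4])
            (by linarith only [ht, x0, w1, w2])
            (by linarith only [ht, x0, w1, u4])
            (by linarith only [ht, x2, w2, u3])
            (by linarith only [ht, x2, w1, w2])
        exact sB F hF k t hk H htk A C D hA hC cf.hD
          (emptyD A C D n3 cf.r3 (Nat.le_zero.1 (by linarith only [f2]))) a (n1 + n3 + n7) (n3 + n5 + n11) ha gA gC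
          (by linarith only [ht, w2])
          (by linarith only [ht, x2])
          (by linarith only [u4])
          (by linarith only [ht, w1])
          (by linarith only [ht, w1, w2])
          (by linarith only [ht, x2, w1])
          (by linarith only [ht, w1])
      exact sC F hF k t hk H htk A C D hA hC cf.hD
        (emptyD A C D n3 cf.r3 (Nat.le_zero.1 (by linarith only [f2]))) a (n1 + n3 + n7) (n3 + n5 + n11) ha gA gC
        (by linarith only [ht, x2])
        (by linarith only [ht, w1])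
        (by linarith only [u3])
        (by linarith only [ht, w2])
        (by linarith only [ht, x2, w2])
        (by linarith only [ht, w1, w2])
        (by linarith only [ht, w2])
    · rw [gC] at w2
      exact ES975 F hF t H A B C D n0 n1 n2 n3 n4 n5 n6 n7 n8 n9 n10 n11 cf
        (Nat.le_zero.1 (by linarith only [f2]))
        (Nat.le_zero.1 (by linarith only [f3]))
        (by linarith only [ht, x2, x3, x4, e2, e5, f7, w1, w2])
        (by linarith only [ht, d1, hvA, e1, f4, w1])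
        (by linarith only [ht, x1, x2, hvA, e1, e2, e3, f4, f7, w1, w2])
        (by linarith only [ht, d1, e1])
        (by linarith only [ht, d1, x2, x3, e1, e2, e5, f7, w1])
        (by linarith only [ht, d1, x0, x3, hvA, hR, hh2, e1, f4, f6, f7])
        (by linarith only [ht, d1, hvA, e1, e2, e3, e6, f4, f7, w1, w2])
  · rw [gA] at w1
    linarith only [htk, ht, x1, x4, hvA, hR, hh2, f1, f2, f4, w1]

end Pool.Agent.TX17
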