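import Pool.Agent.TX17.Stat
import Pool.Agent.TX17.Cells
import Pool.Agent.TX17.ET0
import Pool.Agent.TX17.ET1
import Pool.Agent.TX17.ET3
import Pool.Agent.TX17.ET4

set_option autoImplicit false
set_option linter.all false

namespace Pool.Agent.TX17

open Pool.Agent.TV17 Pool.Agent.TW17

theorem EX1c23 (F : Set (Finset ℕ)) (hF : SevenTwoCoverable F) (k t : ℕ)
    (hk : ∀ A ∈ F, A.card = k) (H : Missed F t) (htk : t ≤ k) (ht : 17 * k + 160 ≤ 20 * t)
    (ht2 : 20 * t ≤ 17 * k + 180)
    (A B C : Finset ℕ) (hA : A ∈ F) (hB : B ∈ F) (hC : C ∈ F) (e : A ∩ B ∩ C = ∅)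
    (c a b : ℕ) (hc : (A ∩ B).card = c) (ha : (A ∩ C).card = a) (hb : (B ∩ C).card = b)
    (hcap : ∀ X ∈ F, ∀ Y ∈ F, 20 * (X ∩ Y).card ≤ 7 * k ∨ c ≤ (X ∩ Y).card)
    (hext : ∀ D ∈ F, A ∩ B ∩ D = ∅ → a ≤ (A ∩ D).card ∨ a ≤ (B ∩ D).card)
    (d0 : 7 * k ≤ 20 * c)
    (d1 : 80 * c ≤ 41 * k)
    (d2 : 2 * a + c + t ≤ 2 * k + 1)
    (d3 : 20 * a ≤ 7 * k)
    (d4 : b ≤ a)
    (x0 : 175 * k ≤ 1000 * a)
    (x1 : 175 * k ≤ 1000 * b)
    (x2 : 262 * k ≤ 1000 * a)
    (x3 : 262 * k ≤ 1000 * b)
    (x4 : 431 * k ≤ 1000 * c)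
    (x5 : 1000 * a ≤ 306 * k)
    : False := by
  obtain ⟨R, hR⟩ : ∃ R : ℕ, R + (a + b) = t := ⟨t - (a + b), by omega⟩
  obtain ⟨h, hh1, hh2⟩ : ∃ h : ℕ, 3 * h ≤ R ∧ R ≤ 3 * h + 2 := ⟨R / 3, by omega, by omega⟩
  obtain ⟨D, n0, n1, n2, n3, n4, n5, n6, n7, n8, n9, n10, n11, cf, e1, e2, e3, e4, e5, e6, f1, f2, f3,
    f4, f5, f6, f7, gA, gB, gC⟩ := respond F k t hk H A B C hA hB hC e c a b hc ha hb
    (2 * h) a b 0 h 0
    (by linarith only [htk, ht2, x2, x3, x4, hR, hh1])
    (le_refl _)
    (le_refl _)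
    (by linarith only [d1, x5])
    (by linarith only [htk, ht2, d1, d4, x5, hR, hh1])
    (by linarith only [d4, x5])
    (by linarith only [hR, hh1])
  rcases hcap A hA D cf.hD with w1 | w1
  · rw [gA] at w1
    rcases hcap B hB D cf.hD with w2 | w2
    · rw [gB] at w2
      exact ES313 F hF t H A B C D n0 n1 n2 n3 n4 n5 n6 n7 n8 n9 n10 n11 cf
        (Nat.le_zero.1 (by linarith only [f2]))
        (Nat.le_zero.1 (by linarith only [f3]))
        (by linarith only [ht, d4, x2, hR, e3, w1])
        (by linarith only [ht, x5, e2, w2])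
        (by linarith only [ht, e2, e3, e6, w1, w2])
        (by linarith only [ht, x2, x3, e6])
        (by linarith only [ht, d1, x2, e1, e3, e6, w1])
        (by linarith only [ht, d1, x3, x5, e1, e2, e6, f7, w2])
        (by linarith only [ht, d1, e1, e2, e3, e6, f7])
        (by linarith only [ht, d1, x2, e1, e3, e6, w1])
        (by linarith only [ht, d1, x3, x5, e1, e2, e6, f7, w2])
        (by linarith only [ht, d1, x2, x3, hR, hh2, e1, e2, e3, e4, e6, f5, f7])
        (by linarith only [ht, d1, x2, x3, hR, hh2, e1, e2, e3, e4, e6, f5, f7])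
    · rw [gB] at w2
      exact ES1235 F hF t H A B C D n0 n1 n2 n3 n4 n5 n6 n7 n8 n9 n10 n11 cf
        (Nat.le_zero.1 (by linarith only [f2]))
        (Nat.le_zero.1 (by linarith only [f3]))
        (by linarith only [ht, d4, x2, hR, e3, w1])
        (by linarith only [ht, x3, x4, x5, hR, hh2, e2, f1, f5, w1])
        (by linarith only [ht, x5, e1, e2, e3, e5, w1])
        (by linarith only [ht, d1, e1])
        (by linarith only [ht, d1, x2, e1, e3, e6, w1])
        (by linarith only [ht, d1, x3, x5, hR, hh2, e1, e2, e6, f1, f3, f5, w2])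
        (by linarith only [ht, d1, x3, x5, hR, hh2, e1, e2, e3, e5, e6, f5, w1])
        (by linarith only [ht, d1, x2, e1, e3, e6, w1])
        (by linarith only [ht, d1, x3, x5, hR, hh2, e1, e2, e6, f1, f3, f5, w2])
        (by linarith only [ht, d1, x3, x5, hR, hh2, e1, e2, e3, e6, f1, f5, w1, w2])
        (by linarith only [ht, d1, x3, x5, hR, hh2, e1, e2, e3, e6, f1, f5, w1, w2])
  · rw [gA] at w1
    rcases hcap C hC D cf.hD with w3 | w3
    · rw [gC] at w3
      by_cases u4 : n0 + n1 + n11 ≤ t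
      swap
      · exact s2 F hF k t hk H htk B C D hB hC cf.hD
          (emptyD B C D n5 cf.r5 (Nat.le_zero.1 (by linarith only [f3]))) b (n1 + n5 + n9) (n3 + n5 + n11) hb gB gC
          (by linarith only [ht, x2, x3, x4, e1, e4, w1, w3, u4])
          (by linarith only [ht, d1, d4, x5, hR, hh2, e1, e5, f1, u4])
          (by linarith only [ht, d4, x5, e1, e4, w1, u4])
          (by linarith only [ht, x3, x5, hR, hh2, f1, f3, f5, f7, w3])
          (by linarith only [ht, x3, x5, hR, hh2, e1, e4, f1, f5, w1, u4])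
          (by linarith only [ht, d4, x4, x5, e1, e4, w1, w3, u4])
          (by linarith only [ht, d4, x5, hR, hh2, f1, f3, f5, f7, w3])
      by_cases u5 : n0 + 2 * n1 + n4 + n7 + n11 ≤ 2 * t
      swap
      · linarith only [ht, d1, d4, x5, hR, hh2, e1, e3, e4, f1, w3, u4, u5]
      exact ES285 F hF t H A B C D n0 n1 n2 n3 n4 n5 n6 n7 n8 n9 n10 n11 cf
        (Nat.le_zero.1 (by linarith only [f2]))
        (Nat.le_zero.1 (by linarith only [f3]))
        (by linarith only [ht, d4, x4, x5, hR, hh2, e3, e4, f1, u5])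
        (by linarith only [ht, x3, x5, hR, hh2, e2, e5, f1, f5])
        (by linarith only [ht, d4, x5, hR, hh2, e2, e3, e4, f1, f5, f7, u5])
        (by linarith only [u4])
        (by linarith only [u5])
        (by linarith only [ht, d1, x5, hR, hh2, e1, e2, f1, f5, f7, u4])
        (by linarith only [ht, d1, d4, x5, hR, hh2, e1, e2, e3, e4, e6, f1, f5, u5])
    · rw [gC] at w3
      by_cases u6 : n1 + n4 + n7 + n9 ≤ t
      swap
      · exact ES1235 F hF t H A B C D n0 n1 n2 n3 n4 n5 n6 n7 n8 n9 n10 n11 cf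
          (Nat.le_zero.1 (by linarith only [f2]))
          (Nat.le_zero.1 (by linarith only [f3]))
          (by linarith only [ht, d4, x4, hR, hh2, e3, e4, f1, f2, f6, f7, w3])
          (by linarith only [ht, x4, x5, hR, hh2, e2, f1, f5, f7, w3])
          (by linarith only [ht, d1, d4, x5, e1, e2, e3, f7, w3])
          (by linarith only [ht, d1, e1])
          (by linarith only [ht, d4, hR, hh2, e1, e3, e4, e6, f1, f7, w3, u6])
          (by linarith only [ht, d1, x5, hR, hh2, e1, e2, e6, f1, f7, w1, w3])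
          (by linarith only [ht, d1, e1, e2, e3, e6, f7, w3])
          (by linarith only [ht, d4, hR, hh2, e1, e3, e4, e6, f1, f7, w3, u6])
          (by linarith only [ht, d1, x5, hR, hh2, e1, e2, e6, f1, f7, w1, w3])
          (by linarith only [ht, d1, x2, e1, e2, e3, e6, f7, w3, u6])
          (by linarith only [ht, d1, x2, e1, e2, e3, e6, f7, w3, u6])
      by_cases u7 : n0 + 2 * n1 + n2 + n4 + n7 + 2 * n9 ≤ 2 * t
      swap
      · exact ES1235 F hF t H A B C D n0 n1 n2 n3 n4 n5 n6 n7 n8 n9 n10 n11 cf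
          (Nat.le_zero.1 (by linarith only [f2]))
          (Nat.le_zero.1 (by linarith only [f3]))
          (by linarith only [u6])
          (by linarith only [ht, x4, x5, hR, hh2, e2, f1, f5, f7, w3])
          (by linarith only [ht, d1, x5, e1, e2, u6])
          (by linarith only [ht, d1, e1])
          (by linarith only [ht, d4, x2, e1, e2, e3, e6, f7, w3, u7])
          (by linarith only [ht, d1, x5, hR, hh2, e1, e2, e6, f1, f7, w1, w3])
          (by linarith only [ht, d1, x3, e1, e2, e3, e6, f7, w3, u6])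
          (by linarith only [ht, d4, x2, e1, e2, e3, e6, f7, w3, u7])
          (by linarith only [ht, d1, x5, hR, hh2, e1, e2, e6, f1, f7, w1, w3])
          (by linarith only [ht, d1, e1, e2, e3, e6, f7, w1, w3, u7])
          (by linarith only [ht, d1, e1, e2, e3, e6, f7, w1, w3, u7])
      by_cases u8 : 2 * n0 + 3 * n1 + n2 + n4 + n7 + 2 * n9 + n10 + n11 ≤ 3 * t
      swap
      · exact ES1235 F hF t H A B C D n0 n1 n2 n3 n4 n5 n6 n7 n8 n9 n10 n11 cf
          (Nat.le_zero.1 (by linarith only [f2]))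
          (Nat.le_zero.1 (by linarith only [f3]))
          (by linarith only [u6])
          (by linarith only [ht, x3, x5, hR, hh2, e1, e2, e3, f1, f3, u7])
          (by linarith only [u7])
          (by linarith only [ht, d1, e1, u7])
          (by linarith only [ht, x2, x3, e1, e2, e3, e6, f7, w3, u8])
          (by linarith only [ht, d1, x3, x5, hR, hh2, e1, e2, e3, e6, f1, f7, w1, u7])
          (by linarith only [ht, d1, x2, x3, e1, e2, e3, e6, f7, w3, u7])
          (by linarith only [ht, x2, x3, e1, e2, e3, e6, f7, w3, u8])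
          (by linarith only [ht, d1, x3, x5, hR, hh2, e1, e2, e3, e6, f1, f7, w1, u7])
          (by linarith only [ht, x2, x3, e1, e2, e3, e6, f7, w1, w3, u8])
          (by linarith only [ht, x2, x3, e1, e2, e3, e6, f7, w1, w3, u8])
      exact ES970 F hF t H A B C D n0 n1 n2 n3 n4 n5 n6 n7 n8 n9 n10 n11 cf
        (Nat.le_zero.1 (by linarith only [f2]))
        (Nat.le_zero.1 (by linarith only [f3]))
        (by linarith only [u6])
        (by linarith only [ht, x3, x5, e1, e5, e6, u8])
        (by linarith only [u7])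
        (by linarith only [ht, d1, e1, u8])
        (by linarith only [u6, u8])
        (by linarith only [ht, d1, x2, x3, e1, e3, e6, f2, f7, w1, u8])
        (by linarith only [u8])

end Pool.Agent.TX17
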