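import Pool.Agent.TX17.Stat
import Pool.Agent.TX17.Cells

set_option autoImplicit false
set_option linter.all false

namespace Pool.Agent.TX17

open Pool.Agent.TV17 Pool.Agent.TW17

theorem EX1c24 (F : Set (Finset ℕ)) (hF : SevenTwoCoverable F) (k t : ℕ)
    (hk : ∀ A ∈ F, A.card = k) (H : Missed F t) (htk : t ≤ k) (ht : 17 * k + 160 ≤ 20 * t)
    (ht2 : 20 * t ≤ 17 * k + 180)
    (A B C : Finset ℕ) (hA : A ∈ F) (hB : B ∈ F) (hC : C ∈ F) (e : A ∩ B ∩ C = ∅)
    (c a b : ℕ) (hc : (A ∩ B).card = c) (ha : (A ∩ C).card = a) (hb : (B ∩ C).card = b)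
    (hcap : ∀ X ∈ F, ∀ Y ∈ F, 20 * (X ∩ Y).card ≤ 7 * k ∨ c ≤ (X ∩ Y).card)
    (hext : ∀ D ∈ F, A ∩ B ∩ D = ∅ → a ≤ (A ∩ D).card ∨ a ≤ (B ∩ D).card)
    (d0 : 7 * k ≤ 20 * c)
    (d1 : 80 * c ≤ 41 * k)
    (d2 : 2 * a + c + t ≤ 2 * k + 1)
    (d3 : 20 * a ≤ 7 * k)
    (d4 : b ≤ a)
    (x0 : 175 * k ≤ 1000 * a)
    (x1 : 175 * k ≤ 1000 * b)
    (x2 : 262 * k ≤ 1000 * a)
    (x3 : 262 * k ≤ 1000 * b)
    (x4 : 431 * k ≤ 1000 * c)
    (x5 : 306 * k ≤ 1000 * a)
    : False := by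
  obtain ⟨R, hR⟩ : ∃ R : ℕ, R + (a) = t := ⟨t - (a), by omega⟩
  obtain ⟨h, hh1, hh2⟩ : ∃ h : ℕ, 2 * h ≤ R ∧ R ≤ 2 * h + 1 := ⟨R / 2, by omega, by omega⟩
  obtain ⟨D, n0, n1, n2, n3, n4, n5, n6, n7, n8, n9, n10, n11, cf, e1, e2, e3, e4, e5, e6, f1, f2, f3,
    f4, f5, f6, f7, gA, gB, gC⟩ := respond F k t hk H A B C hA hB hC e c a b hc ha hb
    h a 0 0 0 h
    (by linarith only [htk, ht2, x4, x5, hR, hh1])
    (le_refl _)
    (by linarith only [])
    (by linarith only [d1, d3])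
    (by linarith only [d1, d3, d4])
    (by linarith only [htk, ht2, d2, d3, d4, x4, hR, hh1])
    (by linarith only [hR, hh1])
  rcases hcap A hA D cf.hD with w1 | w1
  · rw [gA] at w1
    rcases hcap C hC D cf.hD with w2 | w2
    · rw [gC] at w2
      by_cases u3 : (n1 + n3 + n7) + (n3 + n5 + n11) + 2 * k ≤ 3 * t
      swap
      · exact s2 F hF k t hk H htk A C D hA hC cf.hD
          (emptyD A C D n3 cf.r3 (Nat.le_zero.1 (by linarith only [f2]))) a (n1 + n3 + n7) (n3 + n5 + n11) ha gA gC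
          (by linarith only [ht, x5, w2, u3])
          (by linarith only [ht, d3, w1, u3])
          (by linarith only [ht, d3, u3])
          (by linarith only [ht, x5, w1, w2])
          (by linarith only [ht, x5, w1, u3])
          (by linarith only [ht, d3, w2, u3])
          (by linarith only [ht, d3, w1, w2])
      exact sA F hF k t hk H htk A C D hA hC cf.hD
        (emptyD A C D n3 cf.r3 (Nat.le_zero.1 (by linarith only [f2]))) a (n1 + n3 + n7) (n3 + n5 + n11) ha gA gC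
        (by linarith only [ht, w1])
        (by linarith only [ht, w2])
        (by linarith only [u3])
        (by linarith only [ht, d3])
        (by linarith only [ht, d3, w1])
        (by linarith only [ht, d3, w2])
        (by linarith only [ht, d3])
    · rw [gC] at w2
      linarith only [ht, d2, x4, x5, hR, hh2, e3, f2, f6, w2]
  · rw [gA] at w1
    linarith only [ht, d2, x4, x5, hR, hh2, e4, f1, f2, w1]

end Pool.Agent.TX17
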