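import Pool.Agent.TX17.Stat
import Pool.Agent.TX17.Cells
import Pool.Agent.TX17.ET2
import Pool.Agent.TX17.ET3

set_option autoImplicit false
set_option linter.all false

namespace Pool.Agent.TX17

open Pool.Agent.TV17 Pool.Agent.TW17

theorem EX1c8 (F : Set (Finset ℕ)) (hF : SevenTwoCoverable F) (k t : ℕ)
    (hk : ∀ A ∈ F, A.card = k) (H : Missed F t) (htk : t ≤ k) (ht : 17 * k + 160 ≤ 20 * t)
    (ht2 : 20 * t ≤ 17 * k + 180)
    (A B C : Finset ℕ) (hA : A ∈ F) (hB : B ∈ F) (hC : C ∈ F) (e : A ∩ B ∩ C = ∅)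
    (c a b : ℕ) (hc : (A ∩ B).card = c) (ha : (A ∩ C).card = a) (hb : (B ∩ C).card = b)
    (hcap : ∀ X ∈ F, ∀ Y ∈ F, 20 * (X ∩ Y).card ≤ 7 * k ∨ c ≤ (X ∩ Y).card)
    (hext : ∀ D ∈ F, A ∩ B ∩ D = ∅ → a ≤ (A ∩ D).card ∨ a ≤ (B ∩ D).card)
    (d0 : 7 * k ≤ 20 * c)
    (d1 : 80 * c ≤ 41 * k)
    (d2 : 2 * a + c + t ≤ 2 * k + 1)
    (d3 : 20 * a ≤ 7 * k)
    (d4 : b ≤ a)
    (x0 : 175 * k ≤ 1000 * a)
    (x1 : 1000 * b ≤ 175 * k)
    (x2 : 262 * k ≤ 1000 * a)
    (x3 : 1000 * b ≤ 87 * k)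
    (x4 : 431 * k ≤ 1000 * c)
    (x5 : 1000 * a ≤ 306 * k)
    (x6 : 1000 * b ≤ 44 * k)
    (x7 : 472 * k ≤ 1000 * c)
    : False := by
  obtain ⟨R, hR⟩ : ∃ R : ℕ, R + (c + a) = t := ⟨t - (c + a), by omega⟩
  obtain ⟨D, n0, n1, n2, n3, n4, n5, n6, n7, n8, n9, n10, n11, cf, e1, e2, e3, e4, e5, e6, f1, f2, f3,
    f4, f5, f6, f7, gA, gB, gC⟩ := respond F k t hk H A B C hA hB hC e c a b hc ha hb
    c a 0 0 0 R
    (le_refl _)
    (le_refl _)
    (by linarith only [])
    (by linarith only [d1, x5])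
    (by linarith only [d1, x1])
    (by linarith only [htk, ht2, x6, x7, hR])
    (by linarith only [hR])
  rcases hext D cf.hD (emptyD A B D n1 cf.r1 (Nat.le_zero.1 (by linarith only [f1]))) with w1 | w1
  · rw [gA] at w1
    exact ES953 F hF t H A B C D n0 n1 n2 n3 n4 n5 n6 n7 n8 n9 n10 n11 cf
      (Nat.le_zero.1 (by linarith only [f1]))
      (Nat.le_zero.1 (by linarith only [f2]))
      (by linarith only [ht, x5, x7, e2, e3, e5])
      (by linarith only [ht, d1, x6, e1, e3])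
      (by linarith only [ht, x6, x7, e1, e2, e3, e4, e5])
      (by linarith only [ht, d1, e1])
      (by linarith only [ht, x5, e1, e2, e3, e5])
      (by linarith only [ht, d1, x2, hR, e1, e3, e6, f6])
      (by linarith only [ht, d1, x2, x6, e1, e2, e3, e4, f7, w1])
  · rw [gB] at w1
    rcases hcap B hB D cf.hD with w2 | w2
    · rw [gB] at w2
      by_cases u3 : 2 * n0 + n2 + 2 * n4 + 2 * n5 + n6 + n7 + n9 + n11 ≤ 3 * t
      swap
      · exact ES955 F hF t H A B C D n0 n1 n2 n3 n4 n5 n6 n7 n8 n9 n10 n11 cf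
          (Nat.le_zero.1 (by linarith only [f1]))
          (Nat.le_zero.1 (by linarith only [f2]))
          (by linarith only [ht, x5, x6, x7, e1, e2, e3, e4, f7, w2, u3])
          (by linarith only [ht, d1, x6, e1, f3, w2])
          (by linarith only [ht, x6, e1, e2, e3, e4, w2])
          (by linarith only [ht, d1, e1])
          (by linarith only [ht, d1, x5, x6, e1, e2, e3, e4, f7, w2])
          (by linarith only [ht, d1, x2, hR, e1, e3, e6, f6])
          (by linarith only [ht, d1, x6, hR, e1, e2, e3, e4, f6, f7, w2])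
      exact ES953 F hF t H A B C D n0 n1 n2 n3 n4 n5 n6 n7 n8 n9 n10 n11 cf
        (Nat.le_zero.1 (by linarith only [f1]))
        (Nat.le_zero.1 (by linarith only [f2]))
        (by linarith only [ht, x5, x6, e2, e3, w2, u3])
        (by linarith only [ht, d1, x6, e1, e3, u3])
        (by linarith only [ht, x6, x7, e1, e2, e3, e4, w2, u3])
        (by linarith only [ht, d1, e1, u3])
        (by linarith only [ht, x5, e2, w2, u3])
        (by linarith only [ht, d1, x2, hR, e1, e3, e6, f6])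
        (by linarith only [u3])
    · rw [gB] at w2
      exact ES637 F hF t H A B C D n0 n1 n2 n3 n4 n5 n6 n7 n8 n9 n10 n11 cf
        (Nat.le_zero.1 (by linarith only [f1]))
        (Nat.le_zero.1 (by linarith only [f2]))
        (by linarith only [ht, x2, x6, e1, e3, e4])
        (by linarith only [ht, x5, x7, e2, e3, e5, f7])
        (by linarith only [ht, x6, x7, e1, e2, e3, e4, e5, f7])
        (by linarith only [ht, d1, e1])
        (by linarith only [ht, d1, x6, e1, e3, f7, w2])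
        (by linarith only [ht, d1, x5, e1, e2, e3, e5, f7])
        (by linarith only [ht, d1, x6, e1, e2, e3, e4, e5, f7, w2])

theorem EX1c9 (F : Set (Finset ℕ)) (hF : SevenTwoCoverable F) (k t : ℕ)
    (hk : ∀ A ∈ F, A.card = k) (H : Missed F t) (htk : t ≤ k) (ht : 17 * k + 160 ≤ 20 * t)
    (ht2 : 20 * t ≤ 17 * k + 180)
    (A B C : Finset ℕ) (hA : A ∈ F) (hB : B ∈ F) (hC : C ∈ F) (e : A ∩ B ∩ C = ∅)
    (c a b : ℕ) (hc : (A ∩ B).card = c) (ha : (A ∩ C).card = a) (hb : (B ∩ C).card = b)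
    (hcap : ∀ X ∈ F, ∀ Y ∈ F, 20 * (X ∩ Y).card ≤ 7 * k ∨ c ≤ (X ∩ Y).card)
    (hext : ∀ D ∈ F, A ∩ B ∩ D = ∅ → a ≤ (A ∩ D).card ∨ a ≤ (B ∩ D).card)
    (d0 : 7 * k ≤ 20 * c)
    (d1 : 80 * c ≤ 41 * k)
    (d2 : 2 * a + c + t ≤ 2 * k + 1)
    (d3 : 20 * a ≤ 7 * k)
    (d4 : b ≤ a)
    (x0 : 175 * k ≤ 1000 * a)
    (x1 : 1000 * b ≤ 175 * k)
    (x2 : 262 * k ≤ 1000 * a)
    (x3 : 1000 * b ≤ 87 * k)
    (x4 : 431 * k ≤ 1000 * c)
    (x5 : 1000 * a ≤ 306 * k)
    (x6 : 44 * k ≤ 1000 * b)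
    (x7 : 1000 * c ≤ 472 * k)
    : False := by
  obtain ⟨R, hR⟩ : ∃ R : ℕ, R + (c + b) = t := ⟨t - (c + b), by omega⟩
  obtain ⟨h, hh1, hh2⟩ : ∃ h : ℕ, 2 * h ≤ R ∧ R ≤ 2 * h + 1 := ⟨R / 2, by omega, by omega⟩
  obtain ⟨D, n0, n1, n2, n3, n4, n5, n6, n7, n8, n9, n10, n11, cf, e1, e2, e3, e4, e5, e6, f1, f2, f3,
    f4, f5, f6, f7, gA, gB, gC⟩ := respond F k t hk H A B C hA hB hC e c a b hc ha hb
    c h b h 0 0
    (le_refl _)
    (by linarith only [htk, ht2, x2, x4, x6, hR, hh1])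
    (le_refl _)
    (by linarith only [htk, ht2, d2, x5, x6, x7, hR, hh1])
    (by linarith only [x1, x7])
    (by linarith only [x1, x5])
    (by linarith only [hR, hh1])
  rcases hext D cf.hD (emptyD A B D n1 cf.r1 (Nat.le_zero.1 (by linarith only [f1]))) with w1 | w1
  · rw [gA] at w1
    linarith only [htk, ht, x2, x3, hR, hh2, f1, f2, f4, w1]
  · rw [gB] at w1
    by_cases u2 : n2 + n3 + n4 + n7 + n9 ≤ t
    swap
    · exact ES963 F hF t H A B C D n0 n1 n2 n3 n4 n5 n6 n7 n8 n9 n10 n11 cf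
        (Nat.le_zero.1 (by linarith only [f1]))
        (Nat.le_zero.1 (by linarith only [f3]))
        (by linarith only [ht, x4, x5, x6, e2, e5])
        (by linarith only [ht, x5, x7, e1, e2])
        (by linarith only [ht, x5, e1, e2, e3, e5])
        (by linarith only [ht, x3, x7, e1, e3])
        (by linarith only [ht, x3, x5, x7, e1, e2, e3, e4, e5, f7])
        (by linarith only [ht, x2, x3, x7, hR, hh2, e1, e2, e3, f4, f7, w1, u2])
        (by linarith only [ht, x3, x5, x7, hR, hh2, e1, e2, e3, e5, f4, f7, w1, u2])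
        (by linarith only [ht, x3, x5, x7, e1, e2, e3, e4, e5, f7])
        (by linarith only [ht, x3, x7, e1, e2, e3, e4, f7])
        (by linarith only [ht, x3, x7, e1, e2, e3, e4, e5, f7])
        (by linarith only [ht, x2, x3, x7, e1, e2, e3, e4, e5, f7, w1])
    exact ES961 F hF t H A B C D n0 n1 n2 n3 n4 n5 n6 n7 n8 n9 n10 n11 cf
      (Nat.le_zero.1 (by linarith only [f1]))
      (Nat.le_zero.1 (by linarith only [f3]))
      (by linarith only [u2])
      (by linarith only [ht, x5, x7, e1, e2, u2])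
      (by linarith only [ht, x5, x6, hR, hh2, e1, e2, e3, e4, e5, f2, w1, u2])
      (by linarith only [ht, x7, e1])
      (by linarith only [ht, x7, e1, u2])
      (by linarith only [ht, x2, x7, e1, f7, w1])
      (by linarith only [ht, x5, x7, e1, e2, e3, e5, f7, w1])

theorem EX1c10 (F : Set (Finset ℕ)) (hF : SevenTwoCoverable F) (k t : ℕ)
    (hk : ∀ A ∈ F, A.card = k) (H : Missed F t) (htk : t ≤ k) (ht : 17 * k + 160 ≤ 20 * t)
    (ht2 : 20 * t ≤ 17 * k + 180)
    (A B C : Finset ℕ) (hA : A ∈ F) (hB : B ∈ F) (hC : C ∈ F) (e : A ∩ B ∩ C = ∅)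
    (c a b : ℕ) (hc : (A ∩ B).card = c) (ha : (A ∩ C).card = a) (hb : (B ∩ C).card = b)
    (hcap : ∀ X ∈ F, ∀ Y ∈ F, 20 * (X ∩ Y).card ≤ 7 * k ∨ c ≤ (X ∩ Y).card)
    (hext : ∀ D ∈ F, A ∩ B ∩ D = ∅ → a ≤ (A ∩ D).card ∨ a ≤ (B ∩ D).card)
    (d0 : 7 * k ≤ 20 * c)
    (d1 : 80 * c ≤ 41 * k)
    (d2 : 2 * a + c + t ≤ 2 * k + 1)
    (d3 : 20 * a ≤ 7 * k)
    (d4 : b ≤ a)
    (x0 : 175 * k ≤ 1000 * a)
    (x1 : 1000 * b ≤ 175 * k)
    (x2 : 262 * k ≤ 1000 * a)
    (x3 : 1000 * b ≤ 87 * k)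
    (x4 : 431 * k ≤ 1000 * c)
    (x5 : 1000 * a ≤ 306 * k)
    (x6 : 44 * k ≤ 1000 * b)
    (x7 : 472 * k ≤ 1000 * c)
    : False := by
  obtain ⟨R, hR⟩ : ∃ R : ℕ, R + (a + b) = t := ⟨t - (a + b), by omega⟩
  obtain ⟨h, hh1, hh2⟩ : ∃ h : ℕ, 3 * h ≤ R ∧ R ≤ 3 * h + 2 := ⟨R / 3, by omega, by omega⟩
  obtain ⟨D, n0, n1, n2, n3, n4, n5, n6, n7, n8, n9, n10, n11, cf, e1, e2, e3, e4, e5, e6, f1, f2, f3,
    f4, f5, f6, f7, gA, gB, gC⟩ := respond F k t hk H A B C hA hB hC e c a b hc ha hb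
    h a b h 0 h
    (by linarith only [htk, ht2, x7, hR, hh1])
    (le_refl _)
    (le_refl _)
    (by linarith only [htk, ht2, d1, d2, x5, x6, hR, hh1])
    (by linarith only [d1, x1])
    (by linarith only [htk, ht2, x1, x5, hR, hh1])
    (by linarith only [hR, hh1])
  rcases hcap A hA D cf.hD with w1 | w1
  · rw [gA] at w1
    rcases hcap C hC D cf.hD with w2 | w2
    · rw [gC] at w2
      by_cases u3 : (n3 + n5 + n11) + a + 2 * k ≤ 3 * t
      swap
      · by_cases u4 : a + (n1 + n3 + n7) + 2 * k ≤ 3 * t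
        swap
        · exact s2 F hF k t hk H htk A C D hA hC cf.hD
            (emptyD A C D n3 cf.r3 (Nat.le_zero.1 (by linarith only [f2]))) a (n1 + n3 + n7) (n3 + n5 + n11) ha gA gC
            (by linarith only [ht, x2, w2, u4])
            (by linarith only [ht, x5, w1, u3])
            (by linarith only [ht, x5, u3, u4])
            (by linarith only [ht, x2, w1, w2])
            (by linarith only [ht, x2, w1, u3])
            (by linarith only [ht, x5, w2, u4])
            (by linarith only [ht, x5, w1, w2])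
        exact sC F hF k t hk H htk A C D hA hC cf.hD
          (emptyD A C D n3 cf.r3 (Nat.le_zero.1 (by linarith only [f2]))) a (n1 + n3 + n7) (n3 + n5 + n11) ha gA gC
          (by linarith only [ht, x5])
          (by linarith only [ht, w1])
          (by linarith only [u4])
          (by linarith only [ht, w2])
          (by linarith only [ht, x5, w2])
          (by linarith only [ht, w1, w2])
          (by linarith only [ht, w2])
      exact sB F hF k t hk H htk A C D hA hC cf.hD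
        (emptyD A C D n3 cf.r3 (Nat.le_zero.1 (by linarith only [f2]))) a (n1 + n3 + n7) (n3 + n5 + n11) ha gA gC
        (by linarith only [ht, w2])
        (by linarith only [ht, x5])
        (by linarith only [u3])
        (by linarith only [ht, w1])
        (by linarith only [ht, w1, w2])
        (by linarith only [ht, x5, w1])
        (by linarith only [ht, w1])
    · rw [gC] at w2
      exact ES646 F hF t H A B C D n0 n1 n2 n3 n4 n5 n6 n7 n8 n9 n10 n11 cf
        (Nat.le_zero.1 (by linarith only [f2]))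
        (Nat.le_zero.1 (by linarith only [f3]))
        (by linarith only [ht, d1, x2, x3, hR, hh2, e1, e3, f4, w1])
        (by linarith only [ht, x5, x6, x7, e2, e5, f7, w1, w2])
        (by linarith only [ht, d1, x3, x5, e1, e2, e3, e5, f7, w1])
        (by linarith only [ht, d1, e1])
        (by linarith only [ht, d1, x2, x3, hR, hh2, e1, e3, f4, f6, w1])
        (by linarith only [ht, d1, x5, x6, e1, e2, e5, f7, w1])
        (by linarith only [ht, d1, x6, e1, e2, e3, e5, e6, f7, w1, w2])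
  · rw [gA] at w1
    linarith only [htk, ht, x2, x3, x7, hR, hh2, f1, f2, f4, w1]

end Pool.Agent.TX17
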