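import Pool.Agent.TX17.Stat
import Pool.Agent.TX17.Cells
import Pool.Agent.TX17.ET0
import Pool.Agent.TX17.ET2
import Pool.Agent.TX17.ET3
import Pool.Agent.TX17.ET4
import Pool.Agent.TX17.ET5

set_option autoImplicit false
set_option linter.all false

namespace Pool.Agent.TX17

open Pool.Agent.TV17 Pool.Agent.TW17

theorem EX1c17 (F : Set (Finset ℕ)) (hF : SevenTwoCoverable F) (k t : ℕ)
    (hk : ∀ A ∈ F, A.card = k) (H : Missed F t) (htk : t ≤ k) (ht : 17 * k + 160 ≤ 20 * t)
    (ht2 : 20 * t ≤ 17 * k + 180)
    (A B C : Finset ℕ) (hA : A ∈ F) (hB : B ∈ F) (hC : C ∈ F) (e : A ∩ B ∩ C = ∅)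
    (c a b : ℕ) (hc : (A ∩ B).card = c) (ha : (A ∩ C).card = a) (hb : (B ∩ C).card = b)
    (hcap : ∀ X ∈ F, ∀ Y ∈ F, 20 * (X ∩ Y).card ≤ 7 * k ∨ c ≤ (X ∩ Y).card)
    (hext : ∀ D ∈ F, A ∩ B ∩ D = ∅ → a ≤ (A ∩ D).card ∨ a ≤ (B ∩ D).card)
    (d0 : 7 * k ≤ 20 * c)
    (d1 : 80 * c ≤ 41 * k)
    (d2 : 2 * a + c + t ≤ 2 * k + 1)
    (d3 : 20 * a ≤ 7 * k)
    (d4 : b ≤ a)
    (x0 : 175 * k ≤ 1000 * a)
    (x1 : 175 * k ≤ 1000 * b)
    (x2 : 1000 * a ≤ 262 * k)
    : False := by
  obtain ⟨T, hT1, hT2⟩ : ∃ T : ℕ, 20 * T ≤ 17 * k ∧ 17 * k ≤ 20 * T + 19 := ⟨17 * k / 20, by omega, by omega⟩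
  obtain ⟨R, hR⟩ : ∃ R : ℕ, R + (a + b) = T := ⟨T - (a + b), by omega⟩
  obtain ⟨h, hh1, hh2⟩ : ∃ h : ℕ, 2 * h ≤ R ∧ R ≤ 2 * h + 1 := ⟨R / 2, by omega, by omega⟩
  obtain ⟨D, n0, n1, n2, n3, n4, n5, n6, n7, n8, n9, n10, n11, cf, e1, e2, e3, e4, e5, e6, f1, f2, f3,
    f4, f5, f6, f7, gA, gB, gC⟩ := respond F k t hk H A B C hA hB hC e c a b hc ha hb
    h a b h 0 0
    (by linarith only [d0, x0, x1, hT1, hR, hh1])
    (le_refl _)
    (le_refl _)
    (by linarith only [d1, x1, x2, hT1, hR, hh1])
    (by linarith only [d1, d4, x2])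
    (by linarith only [d4, x2])
    (by linarith only [ht, hT1, hR, hh1])
  rcases hcap A hA D cf.hD with w1 | w1
  · rw [gA] at w1
    rcases hcap B hB D cf.hD with w2 | w2
    · rw [gB] at w2
      by_cases u3 : 2 * n0 + 2 * n1 + n7 + n11 ≤ 2 * t
      swap
      · exact ES979 F hF t H A B C D n0 n1 n2 n3 n4 n5 n6 n7 n8 n9 n10 n11 cf
          (Nat.le_zero.1 (by linarith only [f2]))
          (Nat.le_zero.1 (by linarith only [f3]))
          (by linarith only [ht, d4, x2, hT2, hR, hh2, e1, e2, e3, f4, f6, f7, w2, u3])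
          (by linarith only [ht, d1, e1])
          (by linarith only [ht, x2, e1, e2, e3, e5, w1])
          (by linarith only [ht, d1, e1])
          (by linarith only [ht, x2, e1, e2, e3, e5, w1])
          (by linarith only [ht, d1, x0, x1, e1, e6])
          (by linarith only [ht, d1, x0, hT2, hR, hh2, e1, e2, e3, e5, e6, f4, w1, w2])
      exact ES975 F hF t H A B C D n0 n1 n2 n3 n4 n5 n6 n7 n8 n9 n10 n11 cf
        (Nat.le_zero.1 (by linarith only [f2]))
        (Nat.le_zero.1 (by linarith only [f3]))
        (by linarith only [ht, d0, d4, x2, hT2, hR, hh2, e2, f4, w1, w2])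
        (by linarith only [ht, d1, d4, hT2, hR, hh2, e1, f4, w1])
        (by linarith only [ht, d0, d4, x2, hT2, hR, hh2, e1, e2, e3, f4, w1, w2])
        (by linarith only [u3])
        (by linarith only [ht, x2, e2, w1, w2, u3])
        (by linarith only [u3])
        (by linarith only [ht, d4, x0, hT2, hR, hh2, e1, e2, e3, e5, e6, f4, w1, w2])
    · rw [gB] at w2
      rcases hcap C hC D cf.hD with w4 | w4
      · rw [gC] at w4
        by_cases u5 : a + (n1 + n3 + n7) + 2 * k ≤ 3 * t
        swap
        · by_cases u6 : (n3 + n5 + n11) + a + 2 * k ≤ 3 * t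
          swap
          · exact s2 F hF k t hk H htk A C D hA hC cf.hD
              (emptyD A C D n3 cf.r3 (Nat.le_zero.1 (by linarith only [f2]))) a (n1 + n3 + n7) (n3 + n5 + n11) ha gA gC
              (by linarith only [ht, x0, w4, u5])
              (by linarith only [ht, x2, w1, u6])
              (by linarith only [ht, x2, u5, u6])
              (by linarith only [ht, x0, w1, w4])
              (by linarith only [ht, x0, w1, u6])
              (by linarith only [ht, x2, w4, u5])
              (by linarith only [ht, x2, w1, w4])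
          exact sB F hF k t hk H htk A C D hA hC cf.hD
            (emptyD A C D n3 cf.r3 (Nat.le_zero.1 (by linarith only [f2]))) a (n1 + n3 + n7) (n3 + n5 + n11) ha gA gC
            (by linarith only [ht, w4])
            (by linarith only [ht, x2])
            (by linarith only [u6])
            (by linarith only [ht, w1])
            (by linarith only [ht, w1, w4])
            (by linarith only [ht, x2, w1])
            (by linarith only [ht, w1])
        exact sC F hF k t hk H htk A C D hA hC cf.hD
          (emptyD A C D n3 cf.r3 (Nat.le_zero.1 (by linarith only [f2]))) a (n1 + n3 + n7) (n3 + n5 + n11) ha gA gC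
          (by linarith only [ht, x2])
          (by linarith only [ht, w1])
          (by linarith only [u5])
          (by linarith only [ht, w4])
          (by linarith only [ht, x2, w4])
          (by linarith only [ht, w1, w4])
          (by linarith only [ht, w4])
      · rw [gC] at w4
        by_cases u7 : n1 + n2 + n9 ≤ t
        swap
        · exact ES1252 F hF t H A B C D n0 n1 n2 n3 n4 n5 n6 n7 n8 n9 n10 n11 cf
            (Nat.le_zero.1 (by linarith only [f3]))
            (by linarith only [ht, d4, x2, hT2, hR, hh2, e2, e3, f1, f7, w1, w4, u7])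
            (by linarith only [ht, x2, e2])
            (by linarith only [ht, d0, x2, e1, e2, e3, e5, f7, w1, w4, u7])
            (by linarith only [ht, d1, e1])
            (by linarith only [ht, d4, x2, hT2, hR, hh2, e1, e2, e3, e6, f1, f7, w1, w4, u7])
            (by linarith only [ht, d1, x1, e1, e2, e6])
            (by linarith only [ht, x1, x2, hT2, hR, hh2, e1, e2, e3, e5, e6, f4, f7, w4, u7])
            (by linarith only [ht, d4, x2, e1, e2, e3, e6, f7, w1, w4, u7])
            (by linarith only [ht, d1, x1, e1, e2, e6])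
            (by linarith only [ht, d1, x2, e1, e2, e3, e5, f7, w2, u7])
            (by linarith only [ht, d1, x1, x2, e1, e2, e3, e5, e6, f7, w4, u7])
        by_cases u8 : 2 * n0 + 2 * n1 + n4 + n7 + n11 ≤ 2 * t
        swap
        · by_cases u9 : 2 * n0 + 3 * n1 + n2 + n4 + 2 * n7 + n9 + n10 + n11 ≤ 3 * t
          swap
          · exact ES1235 F hF t H A B C D n0 n1 n2 n3 n4 n5 n6 n7 n8 n9 n10 n11 cf
              (Nat.le_zero.1 (by linarith only [f2]))
              (Nat.le_zero.1 (by linarith only [f3]))
              (by linarith only [ht, d4, x2, e3, w1])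
              (by linarith only [u7])
              (by linarith only [ht, d1, d4, x2, e1, e2, e3, e5, w1, u7])
              (by linarith only [ht, d1, e1])
              (by linarith only [ht, d1, x0, e1, e3, e6, w1])
              (by linarith only [ht, x2, e1, e2, e3, e6, f7, w2, w4, u9])
              (by linarith only [ht, d1, x1, e1, e2, e3, e5, e6, f7, w1, w4])
              (by linarith only [ht, d1, x0, e1, e3, e6, w1])
              (by linarith only [ht, x2, e1, e2, e3, e6, f7, w2, w4, u9])
              (by linarith only [ht, e1, e2, e3, e6, f7, w2, w4, u9])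
              (by linarith only [ht, e1, e2, e3, e6, f7, w2, w4, u9])
          exact ES975 F hF t H A B C D n0 n1 n2 n3 n4 n5 n6 n7 n8 n9 n10 n11 cf
            (Nat.le_zero.1 (by linarith only [f2]))
            (Nat.le_zero.1 (by linarith only [f3]))
            (by linarith only [u8, u9])
            (by linarith only [ht, d1, e1, e2, e3, e6, f3, w1, w2, u9])
            (by linarith only [ht2, d0, d4, x2, hT2, hR, hh2, e1, e2, e3, e6, f4, f7, u8, u9])
            (by linarith only [ht, d1, e1, u9])
            (by linarith only [u7, u9])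
            (by linarith only [ht, d1, x0, x1, e1, e6, f7, w2, u9])
            (by linarith only [u9])
        exact ES646 F hF t H A B C D n0 n1 n2 n3 n4 n5 n6 n7 n8 n9 n10 n11 cf
          (Nat.le_zero.1 (by linarith only [f2]))
          (Nat.le_zero.1 (by linarith only [f3]))
          (by linarith only [ht, d0, d4, x2, hT2, hR, hh2, e1, e3, f4, w1, w4, u8])
          (by linarith only [u7])
          (by linarith only [ht, d0, x2, e1, e2, e3, e5, w1, w4, u7, u8])
          (by linarith only [u8])
          (by linarith only [u8])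
          (by linarith only [u7, u8])
          (by linarith only [ht, x0, x1, e1, e2, e3, e6, f7, w4, u7, u8])
  · rw [gA] at w1
    by_cases u10 : n1 + n2 + n9 ≤ t
    swap
    · exact sB F hF k t hk H htk A C D hA hC cf.hD
        (emptyD A C D n3 cf.r3 (Nat.le_zero.1 (by linarith only [f2]))) a (n1 + n3 + n7) (n3 + n5 + n11) ha gA gC
        (by linarith only [ht, x2, hT2, hR, hh2, e2, e6, f1, f3, f7, w1, u10])
        (by linarith only [ht, x2])
        (by linarith only [ht, d4, x2, hT2, hR, hh2, e2, e6, f1, f3, f7, w1, u10])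
        (by linarith only [ht, d4, x2, hT2, hR, hh2, e2, e5, f1, f2, f4, u10])
        (by linarith only [ht, d1, d4, x2, hT2, hR, hh2, e2, f1, f2, f7, u10])
        (by linarith only [ht, d4, x2, hT2, hR, hh2, e1, e4, f1, f2])
        (by linarith only [ht, d4, x2, hT2, hR, hh2, e1, f1, f2, f4])
    by_cases u11 : 2 * n0 + 3 * n1 + n2 + n4 + n7 + n9 + n10 + n11 ≤ 3 * t
    swap
    · exact ES285 F hF t H A B C D n0 n1 n2 n3 n4 n5 n6 n7 n8 n9 n10 n11 cf
        (Nat.le_zero.1 (by linarith only [f2]))
        (Nat.le_zero.1 (by linarith only [f3]))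
        (by linarith only [ht, d4, x2, hT2, hR, hh2, e1, e3, e4, f1])
        (by linarith only [u10])
        (by linarith only [ht, d4, x2, hT2, hR, hh2, e1, e3, e4, f1, u10])
        (by linarith only [ht, d4, hT2, hR, hh2, e1, e2, e3, e6, f1, f2, f4, f6, f7, w1, u11])
        (by linarith only [ht, d1, d4, x2, hT2, hR, hh2, e1, e3, f1, f4, f6, f7])
        (by linarith only [ht, d1, d4, x2, hT2, hR, hh2, e1, e2, f1, f7, w1])
        (by linarith only [ht, d1, d4, x0, hT2, hR, hh2, e1, e3, e4, e6, f1, f4, u10])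
    exact ES1235 F hF t H A B C D n0 n1 n2 n3 n4 n5 n6 n7 n8 n9 n10 n11 cf
      (Nat.le_zero.1 (by linarith only [f2]))
      (Nat.le_zero.1 (by linarith only [f3]))
      (by linarith only [ht, d0, d4, x2, hT2, hR, hh2, e2, e3, e6, f1, f2, f4, u11])
      (by linarith only [u10])
      (by linarith only [ht, d0, d4, x2, hT2, hR, hh2, e1, e3, e6, f4, u10, u11])
      (by linarith only [ht, d1, e1, u11])
      (by linarith only [ht, d1, d4, hT2, hR, hh2, e1, e2, e3, e6, f1, f4, f7, u11])
      (by linarith only [ht, x1, x2, hT2, hR, hh2, e2, e3, f1, f7, w1, u11])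
      (by linarith only [u11])
      (by linarith only [ht, d1, d4, hT2, hR, hh2, e1, e2, e3, e6, f1, f4, f7, u11])
      (by linarith only [ht, x1, x2, hT2, hR, hh2, e2, e3, f1, f7, w1, u11])
      (by linarith only [ht, d4, hT2, hR, hh2, e1, e2, e3, e6, f1, f2, f4, f7, w1, u11])
      (by linarith only [ht, d4, hT2, hR, hh2, e1, e2, e3, e6, f1, f2, f4, f7, w1, u11])

end Pool.Agent.TX17
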