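import Pool.Agent.TX17.EX1C0
import Pool.Agent.TX17.EX1C1
import Pool.Agent.TX17.EX1C2
import Pool.Agent.TX17.EX1C3
import Pool.Agent.TX17.EX1C4
import Pool.Agent.TX17.EX1C5
import Pool.Agent.TX17.EX1C6
import Pool.Agent.TX17.EX1C7
import Pool.Agent.TX17.EX1C8
import Pool.Agent.TX17.EX1C9
import Pool.Agent.TX17.EX1C10
import Pool.Agent.TX17.EX1C11
import Pool.Agent.TX17.EX1C12
import Pool.Agent.TX17.EX1C13

set_option autoImplicit false
set_option linter.all false

namespace Pool.Agent.TX17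

open Pool.Agent.TV17 Pool.Agent.TW17

theorem EX1main (F : Set (Finset ℕ)) (hF : SevenTwoCoverable F) (k t : ℕ)
    (hk : ∀ A ∈ F, A.card = k) (H : Missed F t) (htk : t ≤ k) (ht : 17 * k + 160 ≤ 20 * t)
    (ht2 : 20 * t ≤ 17 * k + 180)
    (A B C : Finset ℕ) (hA : A ∈ F) (hB : B ∈ F) (hC : C ∈ F) (e : A ∩ B ∩ C = ∅)
    (c a b : ℕ) (hc : (A ∩ B).card = c) (ha : (A ∩ C).card = a) (hb : (B ∩ C).card = b)
    (hcap : ∀ X ∈ F, ∀ Y ∈ F, 20 * (X ∩ Y).card ≤ 7 * k ∨ c ≤ (X ∩ Y).card)
    (hext : ∀ D ∈ F, A ∩ B ∩ D = ∅ → a ≤ (A ∩ D).card ∨ a ≤ (B ∩ D).card)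
    (d0 : 7 * k ≤ 20 * c)
    (d1 : 80 * c ≤ 41 * k)
    (d2 : 2 * a + c + t ≤ 2 * k + 1)
    (d3 : 20 * a ≤ 7 * k)
    (d4 : b ≤ a)
    : False := by
  rcases le_total (1000 * a) (175 * k) with y1 | y1
  · rcases le_total (1000 * a) (87 * k) with y2 | y2
    · exact EX1c0 F hF k t hk H htk ht ht2 A B C hA hB hC e c a b hc ha hb hcap hext d0 d1 d2 d3 d4 y1 y2
    · exact EX1c1 F hF k t hk H htk ht ht2 A B C hA hB hC e c a b hc ha hb hcap hext d0 d1 d2 d3 d4 y1 y2
  · rcases le_total (1000 * b) (175 * k) with y3 | y3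
    · rcases le_total (1000 * a) (262 * k) with y4 | y4
      · rcases le_total (1000 * b) (87 * k) with y5 | y5
        · rcases le_total (1000 * c) (431 * k) with y6 | y6
          · exact EX1c2 F hF k t hk H htk ht ht2 A B C hA hB hC e c a b hc ha hb hcap hext d0 d1 d2 d3 d4 y1 y3 y4 y5 y6
          · exact EX1c3 F hF k t hk H htk ht ht2 A B C hA hB hC e c a b hc ha hb hcap hext d0 d1 d2 d3 d4 y1 y3 y4 y5 y6
        · rcases le_total (1000 * c) (431 * k) with y7 | y7
          · exact EX1c4 F hF k t hk H htk ht ht2 A B C hA hB hC e c a b hc ha hb hcap hext d0 d1 d2 d3 d4 y1 y3 y4 y5 y7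
          · exact EX1c5 F hF k t hk H htk ht ht2 A B C hA hB hC e c a b hc ha hb hcap hext d0 d1 d2 d3 d4 y1 y3 y4 y5 y7
      · rcases le_total (1000 * b) (87 * k) with y8 | y8
        · rcases le_total (1000 * c) (431 * k) with y9 | y9
          · exact EX1c6 F hF k t hk H htk ht ht2 A B C hA hB hC e c a b hc ha hb hcap hext d0 d1 d2 d3 d4 y1 y3 y4 y8 y9
          · rcases le_total (1000 * a) (306 * k) with y10 | y10
            · rcases le_total (1000 * b) (44 * k) with y11 | y11
              · rcases le_total (1000 * c) (472 * k) with y12 | y12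
                · exact EX1c7 F hF k t hk H htk ht ht2 A B C hA hB hC e c a b hc ha hb hcap hext d0 d1 d2 d3 d4 y1 y3 y4 y8 y9 y10 y11 y12
                · exact EX1c8 F hF k t hk H htk ht ht2 A B C hA hB hC e c a b hc ha hb hcap hext d0 d1 d2 d3 d4 y1 y3 y4 y8 y9 y10 y11 y12
              · rcases le_total (1000 * c) (472 * k) with y13 | y13
                · exact EX1c9 F hF k t hk H htk ht ht2 A B C hA hB hC e c a b hc ha hb hcap hext d0 d1 d2 d3 d4 y1 y3 y4 y8 y9 y10 y11 y13
                · exact EX1c10 F hF k t hk H htk ht ht2 A B C hA hB hC e c a b hc ha hb hcap hext d0 d1 d2 d3 d4 y1 y3 y4 y8 y9 y10 y11 y13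
            · exact EX1c11 F hF k t hk H htk ht ht2 A B C hA hB hC e c a b hc ha hb hcap hext d0 d1 d2 d3 d4 y1 y3 y4 y8 y9 y10
        · rcases le_total (1000 * c) (431 * k) with y14 | y14
          · exact EX1c12 F hF k t hk H htk ht ht2 A B C hA hB hC e c a b hc ha hb hcap hext d0 d1 d2 d3 d4 y1 y3 y4 y8 y14
          · rcases le_total (1000 * a) (306 * k) with y15 | y15
            · rcases le_total (1000 * b) (131 * k) with y16 | y16
              · rcases le_total (1000 * c) (472 * k) with y17 | y17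
                · exact EX1c13 F hF k t hk H htk ht ht2 A B C hA hB hC e c a b hc ha hb hcap hext d0 d1 d2 d3 d4 y1 y3 y4 y8 y14 y15 y16 y17
                · exact EX1c14 F hF k t hk H htk ht ht2 A B C hA hB hC e c a b hc ha hb hcap hext d0 d1 d2 d3 d4 y1 y3 y4 y8 y14 y15 y16 y17
              · exact EX1c15 F hF k t hk H htk ht ht2 A B C hA hB hC e c a b hc ha hb hcap hext d0 d1 d2 d3 d4 y1 y3 y4 y8 y14 y15 y16
            · exact EX1c16 F hF k t hk H htk ht ht2 A B C hA hB hC e c a b hc ha hb hcap hext d0 d1 d2 d3 d4 y1 y3 y4 y8 y14 y15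
    · rcases le_total (1000 * a) (262 * k) with y18 | y18
      · exact EX1c17 F hF k t hk H htk ht ht2 A B C hA hB hC e c a b hc ha hb hcap hext d0 d1 d2 d3 d4 y1 y3 y18
      · rcases le_total (1000 * b) (262 * k) with y19 | y19
        · rcases le_total (1000 * c) (431 * k) with y20 | y20
          · exact EX1c18 F hF k t hk H htk ht ht2 A B C hA hB hC e c a b hc ha hb hcap hext d0 d1 d2 d3 d4 y1 y3 y18 y19 y20
          · rcases le_total (1000 * a) (306 * k) with y21 | y21
            · rcases le_total (1000 * b) (219 * k) with y22 | y22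
              · exact EX1c19 F hF k t hk H htk ht ht2 A B C hA hB hC e c a b hc ha hb hcap hext d0 d1 d2 d3 d4 y1 y3 y18 y19 y20 y21 y22
              · exact EX1c20 F hF k t hk H htk ht ht2 A B C hA hB hC e c a b hc ha hb hcap hext d0 d1 d2 d3 d4 y1 y3 y18 y19 y20 y21 y22
            · exact EX1c21 F hF k t hk H htk ht ht2 A B C hA hB hC e c a b hc ha hb hcap hext d0 d1 d2 d3 d4 y1 y3 y18 y19 y20 y21
        · rcases le_total (1000 * c) (431 * k) with y23 | y23
          · exact EX1c22 F hF k t hk H htk ht ht2 A B C hA hB hC e c a b hc ha hb hcap hext d0 d1 d2 d3 d4 y1 y3 y18 y19 y23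
          · rcases le_total (1000 * a) (306 * k) with y24 | y24
            · exact EX1c23 F hF k t hk H htk ht ht2 A B C hA hB hC e c a b hc ha hb hcap hext d0 d1 d2 d3 d4 y1 y3 y18 y19 y23 y24
            · exact EX1c24 F hF k t hk H htk ht ht2 A B C hA hB hC e c a b hc ha hb hcap hext d0 d1 d2 d3 d4 y1 y3 y18 y19 y23 y24

end Pool.Agent.TX17
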