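import Pool.Agent.TX17.Stat
import Pool.Agent.TX17.Cells
import Pool.Agent.TX17.ET1
import Pool.Agent.TX17.ET3
import Pool.Agent.TX17.ET4

set_option autoImplicit false
set_option linter.all false

namespace Pool.Agent.TX17

open Pool.Agent.TV17 Pool.Agent.TW17

theorem EX2c0 (F : Set (Finset ℕ)) (hF : SevenTwoCoverable F) (k t : ℕ)
    (hk : ∀ A ∈ F, A.card = k) (H : Missed F t) (htk : t ≤ k) (ht : 17 * k + 160 ≤ 20 * t)
    (ht2 : 20 * t ≤ 17 * k + 180)
    (A B C : Finset ℕ) (hA : A ∈ F) (hB : B ∈ F) (hC : C ∈ F) (e : A ∩ B ∩ C = ∅)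
    (c a b : ℕ) (hc : (A ∩ B).card = c) (ha : (A ∩ C).card = a) (hb : (B ∩ C).card = b)
    (hcap : ∀ X ∈ F, ∀ Y ∈ F, 20 * (X ∩ Y).card ≤ 7 * k ∨ c ≤ (X ∩ Y).card)
    (hext : ∀ D ∈ F, A ∩ B ∩ D = ∅ → a ≤ (A ∩ D).card ∨ a ≤ (B ∩ D).card)
    (d0 : 7 * k ≤ 20 * c)
    (d1 : 2 * a + c + t ≤ 2 * k + 1)
    (d2 : c ≤ a)
    (d3 : 20 * b ≤ 7 * k)
    (x0 : 1000 * b ≤ 175 * k)
    (x1 : 1000 * b ≤ 87 * k)
    (x2 : 1000 * b ≤ 43 * k)
    : False := by
  obtain ⟨T, hT1, hT2⟩ : ∃ T : ℕ, 20 * T ≤ 17 * k ∧ 17 * k ≤ 20 * T + 19 := ⟨17 * k / 20, by omega, by omega⟩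
  obtain ⟨R, hR⟩ : ∃ R : ℕ, R + (a + b) = T := ⟨T - (a + b), by omega⟩
  obtain ⟨h, hh1, hh2⟩ : ∃ h : ℕ, 3 * h ≤ R ∧ R ≤ 3 * h + 2 := ⟨R / 3, by omega, by omega⟩
  obtain ⟨D, n0, n1, n2, n3, n4, n5, n6, n7, n8, n9, n10, n11, cf, e1, e2, e3, e4, e5, e6, f1, f2, f3,
    f4, f5, f6, f7, gA, gB, gC⟩ := respond F k t hk H A B C hA hB hC e c a b hc ha hb
    (2 * h) a b 0 0 h
    (by linarith only [d0, d2, hT1, hR, hh1])
    (le_refl _)
    (le_refl _)
    (by linarith only [ht, d1, d2])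
    (by linarith only [d1, d2, x0])
    (by linarith only [d1, x0, x2, hT1, hR, hh1])
    (by linarith only [ht, hT1, hR, hh1])
  by_cases u1 : 2 * (n3 + n5 + n11) + k ≤ 2 * t
  swap
  · exact ES1151 F hF t H A B C D n0 n1 n2 n3 n4 n5 n6 n7 n8 n9 n10 n11 cf
      (Nat.le_zero.1 (by linarith only [f2]))
      (Nat.le_zero.1 (by linarith only [f3]))
      (by linarith only [ht, d1, d2, e1, e2, f7, u1])
      (by linarith only [ht, d1, d2, hT2, hR, hh2, e1, e6, f6])
      (by linarith only [ht, d1, d2, x2, hT2, hR, hh2, e1, e2, e3, e6, f1])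
      (by linarith only [ht, d1, x2, e2, e3])
      (by linarith only [ht, d0, d1, x2, e2, e3, f7, u1])
      (by linarith only [ht, d2, x2, e1, e2, e3, e4, e6, f7])
      (by linarith only [ht, d1, d2, x2, e1, e2, e3, e6, f7, u1])
      (by linarith only [ht, d0, d1, x2, e1, e2, e3, e4, f7])
      (by linarith only [ht, d2, x2, e1, e2, e3, e4, e6, f7])
      (by linarith only [ht, d0, d1, x2, e1, e2, e3, e4, e6, f7])
      (by linarith only [ht, d0, d1, x2, e1, e2, e3, e4, e6, f7, u1])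
  by_cases u2 : (n1 + n3 + n7) + (n3 + n5 + n11) + 2 * k ≤ 3 * t
  swap
  · exact s2 F hF k t hk H htk A C D hA hC cf.hD
      (emptyD A C D n3 cf.r3 (Nat.le_zero.1 (by linarith only [f2]))) a (n1 + n3 + n7) (n3 + n5 + n11) ha gA gC
      (by linarith only [ht, d0, d2, u1, u2])
      (by linarith only [ht, d0, d1, x2, hT2, hR, hh2, e4, f1, f2, u2])
      (by linarith only [ht, d0, d1, u2])
      (by linarith only [ht, d0, d2, x2, hT2, hR, hh2, e4, f1, f2, f7, u1])
      (by linarith only [ht, d0, d2, x2, hT2, hR, hh2, e4, f1, f2, u2])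
      (by linarith only [ht, d0, d1, u1, u2])
      (by linarith only [ht, d0, d1, x2, hT2, hR, hh2, e4, f1, f2, f7, u1])
  exact sA F hF k t hk H htk A C D hA hC cf.hD
    (emptyD A C D n3 cf.r3 (Nat.le_zero.1 (by linarith only [f2]))) a (n1 + n3 + n7) (n3 + n5 + n11) ha gA gC
    (by linarith only [ht, d0, d2, x2, hT2, hR, hh2, e4, f1, f2, u2])
    (by linarith only [u1])
    (by linarith only [u2])
    (by linarith only [ht, d0, d1])
    (by linarith only [ht, d0, d1, x2, hT2, hR, hh2, e1, e4, f1, f2, u2])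
    (by linarith only [ht, d0, d1, u1])
    (by linarith only [ht, d0, d1])

theorem EX2c1 (F : Set (Finset ℕ)) (hF : SevenTwoCoverable F) (k t : ℕ)
    (hk : ∀ A ∈ F, A.card = k) (H : Missed F t) (htk : t ≤ k) (ht : 17 * k + 160 ≤ 20 * t)
    (ht2 : 20 * t ≤ 17 * k + 180)
    (A B C : Finset ℕ) (hA : A ∈ F) (hB : B ∈ F) (hC : C ∈ F) (e : A ∩ B ∩ C = ∅)
    (c a b : ℕ) (hc : (A ∩ B).card = c) (ha : (A ∩ C).card = a) (hb : (B ∩ C).card = b)
    (hcap : ∀ X ∈ F, ∀ Y ∈ F, 20 * (X ∩ Y).card ≤ 7 * k ∨ c ≤ (X ∩ Y).card)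
    (hext : ∀ D ∈ F, A ∩ B ∩ D = ∅ → a ≤ (A ∩ D).card ∨ a ≤ (B ∩ D).card)
    (d0 : 7 * k ≤ 20 * c)
    (d1 : 2 * a + c + t ≤ 2 * k + 1)
    (d2 : c ≤ a)
    (d3 : 20 * b ≤ 7 * k)
    (x0 : 1000 * b ≤ 175 * k)
    (x1 : 1000 * b ≤ 87 * k)
    (x2 : 43 * k ≤ 1000 * b)
    (x3 : 1000 * a ≤ 375 * k)
    (x4 : 1000 * b ≤ 65 * k)
    (x5 : 1000 * c ≤ 363 * k)
    : False := by
  obtain ⟨R, hR⟩ : ∃ R : ℕ, R + (c + a + b) = t := ⟨t - (c + a + b), by omega⟩
  obtain ⟨D, n0, n1, n2, n3, n4, n5, n6, n7, n8, n9, n10, n11, cf, e1, e2, e3, e4, e5, e6, f1, f2, f3,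
    f4, f5, f6, f7, gA, gB, gC⟩ := respond F k t hk H A B C hA hB hC e c a b hc ha hb
    c a b R 0 0
    (le_refl _)
    (le_refl _)
    (le_refl _)
    (by linarith only [htk, ht2, hR])
    (by linarith only [x0, x5])
    (by linarith only [x0, x3])
    (by linarith only [hR])
  rcases hext D cf.hD (emptyD A B D n1 cf.r1 (Nat.le_zero.1 (by linarith only [f1]))) with w1 | w1
  · rw [gA] at w1
    linarith only [htk, ht, d0, d2, x4, hR, f1, f2, f4, w1]
  · rw [gB] at w1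
    by_cases u2 : n2 + n3 + n9 ≤ t
    swap
    · by_cases u3 : n0 + n1 + n11 ≤ t
      swap
      · exact ES633 F hF t H A B C D n0 n1 n2 n3 n4 n5 n6 n7 n8 n9 n10 n11 cf
          (Nat.le_zero.1 (by linarith only [f1]))
          (Nat.le_zero.1 (by linarith only [f2]))
          (Nat.le_zero.1 (by linarith only [f3]))
          (by linarith only [ht, x3, x4, x5, e1, e2, e3, e4, f7, u2, u3])
          (by linarith only [ht, x3, e2])
          (by linarith only [ht, x3, x4, x5, e1, e2, e3, f7, u3])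
          (by linarith only [ht, x5, e1])
          (by linarith only [ht, x3, x4, x5, e1, e2, e3, f7, w1, u2])
          (by linarith only [ht, x3, x5, e1, e2])
          (by linarith only [ht, x3, x4, x5, e1, e2, e3, f7])
      exact ES1149 F hF t H A B C D n0 n1 n2 n3 n4 n5 n6 n7 n8 n9 n10 n11 cf
        (Nat.le_zero.1 (by linarith only [f2]))
        (Nat.le_zero.1 (by linarith only [f3]))
        (by linarith only [ht, d0, x3, x4, e2, e3, e4, f1, f7])
        (by linarith only [u3])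
        (by linarith only [ht, x4, x5, hR, e1, e2, e3, e4, e6, f1, f4, f7, u2])
        (by linarith only [ht, x3, e2])
        (by linarith only [ht, d0, x3, x4, e2, e3, e4, e5, f1, f7])
        (by linarith only [ht, x3, e2, u3])
        (by linarith only [ht, x2, x3, hR, e1, e2, e3, e4, e5, e6, f1, f4, f7])
    exact ES963 F hF t H A B C D n0 n1 n2 n3 n4 n5 n6 n7 n8 n9 n10 n11 cf
      (Nat.le_zero.1 (by linarith only [f1]))
      (Nat.le_zero.1 (by linarith only [f3]))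
      (by linarith only [u2])
      (by linarith only [ht, x5, e1, f2])
      (by linarith only [ht, x3, e1, e2, e3, e5, f2, u2])
      (by linarith only [ht, x4, x5, e1, e3])
      (by linarith only [ht, x4, x5, e1, e2, e3, e4, f7, u2])
      (by linarith only [ht, d2, x4, x5, e1, e3, f7, w1])
      (by linarith only [ht, x3, x4, x5, e1, e2, e3, e5, f7, w1])
      (by linarith only [ht, x4, x5, e1, e2, e3, e4, f7, u2])
      (by linarith only [ht, x4, x5, hR, e1, e3, f2, f4, f7])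
      (by linarith only [ht, x4, x5, hR, e1, e2, e3, e4, e5, f2, f4, f7])
      (by linarith only [ht, x4, x5, hR, e1, e2, e3, e4, e5, f4, f7, w1])

theorem EX2c2 (F : Set (Finset ℕ)) (hF : SevenTwoCoverable F) (k t : ℕ)
    (hk : ∀ A ∈ F, A.card = k) (H : Missed F t) (htk : t ≤ k) (ht : 17 * k + 160 ≤ 20 * t)
    (ht2 : 20 * t ≤ 17 * k + 180)
    (A B C : Finset ℕ) (hA : A ∈ F) (hB : B ∈ F) (hC : C ∈ F) (e : A ∩ B ∩ C = ∅)
    (c a b : ℕ) (hc : (A ∩ B).card = c) (ha : (A ∩ C).card = a) (hb : (B ∩ C).card = b)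
    (hcap : ∀ X ∈ F, ∀ Y ∈ F, 20 * (X ∩ Y).card ≤ 7 * k ∨ c ≤ (X ∩ Y).card)
    (hext : ∀ D ∈ F, A ∩ B ∩ D = ∅ → a ≤ (A ∩ D).card ∨ a ≤ (B ∩ D).card)
    (d0 : 7 * k ≤ 20 * c)
    (d1 : 2 * a + c + t ≤ 2 * k + 1)
    (d2 : c ≤ a)
    (d3 : 20 * b ≤ 7 * k)
    (x0 : 1000 * b ≤ 175 * k)
    (x1 : 1000 * b ≤ 87 * k)
    (x2 : 43 * k ≤ 1000 * b)
    (x3 : 1000 * a ≤ 375 * k)
    (x4 : 1000 * b ≤ 65 * k)
    (x5 : 363 * k ≤ 1000 * c)
    : False := by
  obtain ⟨R, hR⟩ : ∃ R : ℕ, R + (a + b) = t := ⟨t - (a + b), by omega⟩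
  obtain ⟨h, hh1, hh2⟩ : ∃ h : ℕ, 3 * h ≤ R ∧ R ≤ 3 * h + 2 := ⟨R / 3, by omega, by omega⟩
  obtain ⟨D, n0, n1, n2, n3, n4, n5, n6, n7, n8, n9, n10, n11, cf, e1, e2, e3, e4, e5, e6, f1, f2, f3,
    f4, f5, f6, f7, gA, gB, gC⟩ := respond F k t hk H A B C hA hB hC e c a b hc ha hb
    (2 * h) a b 0 0 h
    (by linarith only [htk, ht2, d1, d2, x2, x5, hR, hh1])
    (le_refl _)
    (le_refl _)
    (by linarith only [d1, d2, x3])
    (by linarith only [d1, d2, x0])
    (by linarith only [htk, ht2, x0, x3, hR, hh1])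
    (by linarith only [hR, hh1])
  rcases hcap A hA D cf.hD with w1 | w1
  · rw [gA] at w1
    by_cases u2 : 2 * (n3 + n5 + n11) + k ≤ 2 * t
    swap
    · exact ES1151 F hF t H A B C D n0 n1 n2 n3 n4 n5 n6 n7 n8 n9 n10 n11 cf
        (Nat.le_zero.1 (by linarith only [f2]))
        (Nat.le_zero.1 (by linarith only [f3]))
        (by linarith only [ht, x3, e2, w1])
        (by linarith only [ht, d2, x2, x3, hR, hh2, e1, e6, f6])
        (by linarith only [ht, d2, x3, x4, hR, hh2, e1, e2, e3, e6, f1, w1])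
        (by linarith only [ht, x3, x4, e2, e3])
        (by linarith only [ht, x3, x4, x5, e2, e3, e5, f7, w1, u2])
        (by linarith only [ht, d2, x4, e1, e2, e3, e4, e6, f7])
        (by linarith only [ht, d2, x3, x4, e1, e2, e3, e5, e6, f7, w1, u2])
        (by linarith only [ht, x3, x4, e2, e3, w1])
        (by linarith only [ht, d2, x4, e1, e2, e3, e4, e6, f7])
        (by linarith only [ht, x3, x4, e1, e2, e3, e4, e6, w1])
        (by linarith only [ht, x3, x4, e1, e2, e3, e4, e5, e6, f7, w1, u2])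
    by_cases u3 : (n1 + n3 + n7) + (n3 + n5 + n11) + 2 * k ≤ 3 * t
    swap
    · exact s2 F hF k t hk H htk A C D hA hC cf.hD
        (emptyD A C D n3 cf.r3 (Nat.le_zero.1 (by linarith only [f2]))) a (n1 + n3 + n7) (n3 + n5 + n11) ha gA gC
        (by linarith only [ht, d2, x5, u2, u3])
        (by linarith only [ht, x3, w1, u3])
        (by linarith only [ht, x3, u3])
        (by linarith only [ht, d2, x5, w1, u2])
        (by linarith only [ht, d2, x5, w1, u3])
        (by linarith only [ht, x3, u2, u3])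
        (by linarith only [ht, x3, w1, u2])
    exact sA F hF k t hk H htk A C D hA hC cf.hD
      (emptyD A C D n3 cf.r3 (Nat.le_zero.1 (by linarith only [f2]))) a (n1 + n3 + n7) (n3 + n5 + n11) ha gA gC
      (by linarith only [ht, w1])
      (by linarith only [u2])
      (by linarith only [u3])
      (by linarith only [ht, x3])
      (by linarith only [ht, x3, w1])
      (by linarith only [x3, u2])
      (by linarith only [ht, x3])
  · rw [gA] at w1
    linarith only [ht, d1, d2, x4, x5, hR, hh2, e4, f1, f2, w1]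

end Pool.Agent.TX17
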