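import Pool.Agent.TX17.Stat
import Pool.Agent.TX17.Cells
import Pool.Agent.TX17.ET0
import Pool.Agent.TX17.ET4

set_option autoImplicit false
set_option linter.all false

namespace Pool.Agent.TX17

open Pool.Agent.TV17 Pool.Agent.TW17

theorem EX2c3 (F : Set (Finset ℕ)) (hF : SevenTwoCoverable F) (k t : ℕ)
    (hk : ∀ A ∈ F, A.card = k) (H : Missed F t) (htk : t ≤ k) (ht : 17 * k + 160 ≤ 20 * t)
    (ht2 : 20 * t ≤ 17 * k + 180)
    (A B C : Finset ℕ) (hA : A ∈ F) (hB : B ∈ F) (hC : C ∈ F) (e : A ∩ B ∩ C = ∅)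
    (c a b : ℕ) (hc : (A ∩ B).card = c) (ha : (A ∩ C).card = a) (hb : (B ∩ C).card = b)
    (hcap : ∀ X ∈ F, ∀ Y ∈ F, 20 * (X ∩ Y).card ≤ 7 * k ∨ c ≤ (X ∩ Y).card)
    (hext : ∀ D ∈ F, A ∩ B ∩ D = ∅ → a ≤ (A ∩ D).card ∨ a ≤ (B ∩ D).card)
    (d0 : 7 * k ≤ 20 * c)
    (d1 : 2 * a + c + t ≤ 2 * k + 1)
    (d2 : c ≤ a)
    (d3 : 20 * b ≤ 7 * k)
    (x0 : 1000 * b ≤ 175 * k)
    (x1 : 1000 * b ≤ 87 * k)
    (x2 : 43 * k ≤ 1000 * b)
    (x3 : 1000 * a ≤ 375 * k)
    (x4 : 65 * k ≤ 1000 * b)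
    : False := by
  obtain ⟨vA, hvA⟩ : ∃ v : ℕ, v + c + a = k := ⟨k - c - a, by omega⟩
  obtain ⟨R, hR⟩ : ∃ R : ℕ, R + (a + b + vA) = t := ⟨t - (a + b + vA), by omega⟩
  obtain ⟨h, hh1, hh2⟩ : ∃ h : ℕ, 3 * h ≤ R ∧ R ≤ 3 * h + 2 := ⟨R / 3, by omega, by omega⟩
  obtain ⟨D, n0, n1, n2, n3, n4, n5, n6, n7, n8, n9, n10, n11, cf, e1, e2, e3, e4, e5, e6, f1, f2, f3,
    f4, f5, f6, f7, gA, gB, gC⟩ := respond F k t hk H A B C hA hB hC e c a b hc ha hb
    h a b vA 0 (2 * h)
    (by linarith only [htk, ht2, d0, x4, hR, hh1])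
    (le_refl _)
    (le_refl _)
    (by linarith only [hvA])
    (by linarith only [d1, d2, x0])
    (by linarith only [htk, ht2, x0, x3, hR, hh1])
    (by linarith only [hR, hh1])
  by_cases u1 : 2 * (n3 + n5 + n11) + k ≤ 2 * t
  swap
  · by_cases u2 : n0 + 2 * n1 + n2 + n4 + n7 + n10 + n11 ≤ 2 * t
    swap
    · exact s2 F hF k t hk H htk A C D hA hC cf.hD
        (emptyD A C D n3 cf.r3 (Nat.le_zero.1 (by linarith only [f2]))) a (n1 + n3 + n7) (n3 + n5 + n11) ha gA gC
        (by linarith only [ht, d0, d2, x4, hvA, hR, hh2, e1, e2, e3, e6, f6, u2])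
        (by linarith only [ht, x1, x3, hR, hh2, e4, f1, f2, f4, f7, u1])
        (by linarith only [ht, d2, x3, e1, e2, e3, e6, u1, u2])
        (by linarith only [ht, d0, d2, hR, hh2, f1, f2, f3, f4, f6, f7])
        (by linarith only [ht, d0, d2, hvA, e1, f2, f4, f7, u1])
        (by linarith only [ht, d2, x3, x4, hvA, hR, hh2, e1, e2, e3, e6, f3, f6, u2])
        (by linarith only [ht, x3, hR, hh2, f1, f2, f3, f4, f6, f7])
    exact ES1149 F hF t H A B C D n0 n1 n2 n3 n4 n5 n6 n7 n8 n9 n10 n11 cf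
      (Nat.le_zero.1 (by linarith only [f2]))
      (Nat.le_zero.1 (by linarith only [f3]))
      (by linarith only [d0, x1, x3, hvA, e2, e3, e4, e6, f4, u2])
      (by linarith only [ht, d0, d2, x4, hvA, hR, hh2, e1, e6, f6])
      (by linarith only [u2])
      (by linarith only [ht, x3, e2, u2])
      (by linarith only [ht, x1, x3, e2, e3, f7, u1])
      (by linarith only [u2])
      (by linarith only [ht, d0, x3, x4, e1, e2, e3, e5, e6, f7, u1, u2])
  by_cases u3 : (n1 + n3 + n7) + (n3 + n5 + n11) + 2 * k ≤ 3 * t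
  swap
  · exact s2 F hF k t hk H htk A C D hA hC cf.hD
      (emptyD A C D n3 cf.r3 (Nat.le_zero.1 (by linarith only [f2]))) a (n1 + n3 + n7) (n3 + n5 + n11) ha gA gC
      (by linarith only [ht, d0, d2, u1, u3])
      (by linarith only [ht, d2, x1, x3, hvA, hR, hh2, f1, f2, f4, u3])
      (by linarith only [ht, x3, u3])
      (by linarith only [ht, d0, d2, hvA, e1, f2, f4, f7, u1])
      (by linarith only [ht, d0, d2, x1, hvA, hR, hh2, f1, f2, f4, u3])
      (by linarith only [ht, x3, u1, u3])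
      (by linarith only [ht, d2, x1, x3, hvA, hR, hh2, f1, f2, f4, f7, u1])
  exact sA F hF k t hk H htk A C D hA hC cf.hD
    (emptyD A C D n3 cf.r3 (Nat.le_zero.1 (by linarith only [f2]))) a (n1 + n3 + n7) (n3 + n5 + n11) ha gA gC
    (by linarith only [ht, d2, x1, x3, hvA, hR, hh2, f1, f2, f4, u3])
    (by linarith only [u1])
    (by linarith only [u3])
    (by linarith only [ht, x3])
    (by linarith only [ht2, d1, x1, x3, hvA, hR, hh2, e4, f1, f4, f7, u3])
    (by linarith only [x3, u1])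
    (by linarith only [ht, x3])

theorem EX2c4 (F : Set (Finset ℕ)) (hF : SevenTwoCoverable F) (k t : ℕ)
    (hk : ∀ A ∈ F, A.card = k) (H : Missed F t) (htk : t ≤ k) (ht : 17 * k + 160 ≤ 20 * t)
    (ht2 : 20 * t ≤ 17 * k + 180)
    (A B C : Finset ℕ) (hA : A ∈ F) (hB : B ∈ F) (hC : C ∈ F) (e : A ∩ B ∩ C = ∅)
    (c a b : ℕ) (hc : (A ∩ B).card = c) (ha : (A ∩ C).card = a) (hb : (B ∩ C).card = b)
    (hcap : ∀ X ∈ F, ∀ Y ∈ F, 20 * (X ∩ Y).card ≤ 7 * k ∨ c ≤ (X ∩ Y).card)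
    (hext : ∀ D ∈ F, A ∩ B ∩ D = ∅ → a ≤ (A ∩ D).card ∨ a ≤ (B ∩ D).card)
    (d0 : 7 * k ≤ 20 * c)
    (d1 : 2 * a + c + t ≤ 2 * k + 1)
    (d2 : c ≤ a)
    (d3 : 20 * b ≤ 7 * k)
    (x0 : 1000 * b ≤ 175 * k)
    (x1 : 1000 * b ≤ 87 * k)
    (x2 : 43 * k ≤ 1000 * b)
    (x3 : 375 * k ≤ 1000 * a)
    : False := by
  obtain ⟨vA, hvA⟩ : ∃ v : ℕ, v + c + a = k := ⟨k - c - a, by omega⟩
  obtain ⟨R, hR⟩ : ∃ R : ℕ, R + (a + b + vA) = t := ⟨t - (a + b + vA), by omega⟩
  obtain ⟨h, hh1, hh2⟩ : ∃ h : ℕ, 3 * h ≤ R ∧ R ≤ 3 * h + 2 := ⟨R / 3, by omega, by omega⟩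
  obtain ⟨D, n0, n1, n2, n3, n4, n5, n6, n7, n8, n9, n10, n11, cf, e1, e2, e3, e4, e5, e6, f1, f2, f3,
    f4, f5, f6, f7, gA, gB, gC⟩ := respond F k t hk H A B C hA hB hC e c a b hc ha hb
    h a b vA 0 (2 * h)
    (by linarith only [htk, ht2, d0, x2, x3, hR, hh1])
    (le_refl _)
    (le_refl _)
    (by linarith only [hvA])
    (by linarith only [d1, d2, x0])
    (by linarith only [htk, ht2, d1, x0, hR, hh1])
    (by linarith only [hR, hh1])
  by_cases u1 : 2 * n1 + 2 * n2 + 2 * n7 + n9 ≤ 2 * t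
  swap
  · by_cases u2 : 2 * (n3 + n5 + n11) + k ≤ 2 * t
    swap
    · exact s2 F hF k t hk H htk A C D hA hC cf.hD
        (emptyD A C D n3 cf.r3 (Nat.le_zero.1 (by linarith only [f2]))) a (n1 + n3 + n7) (n3 + n5 + n11) ha gA gC
        (by linarith only [ht, d0, d1, x2, e2, e6, f3, f7, u1])
        (by linarith only [ht, d1, x1, hvA, hR, hh2, e1, e4, f1, f2, f4, u2])
        (by linarith only [ht, d0, d1, x2, e2, e5, f7, u1, u2])
        (by linarith only [ht, x3, hR, hh2, f1, f2, f3, f4, f6, f7])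
        (by linarith only [ht, x1, x3, hR, hh2, e4, f1, f2, f4, f7, u2])
        (by linarith only [ht, d0, d1, x2, e2, e6, f3, f7, u1])
        (by linarith only [ht, d0, d1, hR, hh2, f1, f2, f3, f4, f6, f7])
    by_cases u3 : (n1 + n3 + n7) + (n3 + n5 + n11) + 2 * k ≤ 3 * t
    swap
    · exact s2 F hF k t hk H htk A C D hA hC cf.hD
        (emptyD A C D n3 cf.r3 (Nat.le_zero.1 (by linarith only [f2]))) a (n1 + n3 + n7) (n3 + n5 + n11) ha gA gC
        (by linarith only [ht, x3, u2, u3])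
        (by linarith only [ht, d1, d2, x1, hvA, hR, hh2, f1, f2, f4, u3])
        (by linarith only [ht, d0, d1, u3])
        (by linarith only [ht, d2, x1, x3, hvA, hR, hh2, f1, f2, f4, f7, u2])
        (by linarith only [ht, d2, x1, x3, hvA, hR, hh2, f1, f2, f4, u3])
        (by linarith only [ht, d0, d1, u2, u3])
        (by linarith only [ht, d1, hvA, e1, f2, f4, f7, u2])
    exact sA F hF k t hk H htk A C D hA hC cf.hD
      (emptyD A C D n3 cf.r3 (Nat.le_zero.1 (by linarith only [f2]))) a (n1 + n3 + n7) (n3 + n5 + n11) ha gA gC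
      (by linarith only [ht, d1, d2, x1, hvA, hR, hh2, f1, f2, f4, u3])
      (by linarith only [u2])
      (by linarith only [u3])
      (by linarith only [ht, d0, d1])
      (by linarith only [ht2, d0, d1, x1, hvA, hR, hh2, e1, f1, f4, u3])
      (by linarith only [ht, d0, d1, u2])
      (by linarith only [ht, d0, d1])
  by_cases u4 : n0 + 3 * n1 + 2 * n2 + n4 + 3 * n7 + n9 + n10 + n11 ≤ 3 * t
  swap
  · by_cases u5 : n0 + 2 * n1 + n2 + n4 + n7 + n10 + n11 ≤ 2 * t
    swap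
    · by_cases u6 : 2 * (n3 + n5 + n11) + k ≤ 2 * t
      swap
      · exact s2 F hF k t hk H htk A C D hA hC cf.hD
          (emptyD A C D n3 cf.r3 (Nat.le_zero.1 (by linarith only [f2]))) a (n1 + n3 + n7) (n3 + n5 + n11) ha gA gC
          (by linarith only [ht, d2, x2, x3, hvA, hR, hh2, e1, e2, e3, e6, f6, f7, u4, u5])
          (by linarith only [ht, e2, f2, u1, u6])
          (by linarith only [ht, d1, d2, e1, e2, e3, e6, u5, u6])
          (by linarith only [ht, x3, hR, hh2, f1, f2, f3, f4, f6, f7])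
          (by linarith only [ht, x3, e2, f2, u1, u6])
          (by linarith only [ht, d1, d2, x2, hvA, hR, hh2, e1, e2, e3, e6, f3, f6, u5])
          (by linarith only [ht, d0, d1, hR, hh2, f1, f2, f3, f4, f6, f7])
      by_cases u7 : (n1 + n3 + n7) + (n3 + n5 + n11) + 2 * k ≤ 3 * t
      swap
      · exact s2 F hF k t hk H htk A C D hA hC cf.hD
          (emptyD A C D n3 cf.r3 (Nat.le_zero.1 (by linarith only [f2]))) a (n1 + n3 + n7) (n3 + n5 + n11) ha gA gC
          (by linarith only [ht, x3, u6, u7])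
          (by linarith only [ht, d1, d2, x1, hvA, hR, hh2, f1, f2, f4, u7])
          (by linarith only [ht, d0, d1, u7])
          (by linarith only [ht, d2, x1, x3, hvA, hR, hh2, f1, f2, f4, f7, u6])
          (by linarith only [ht, d2, x1, x3, hvA, hR, hh2, f1, f2, f4, u7])
          (by linarith only [ht, d0, d1, u6, u7])
          (by linarith only [ht, d0, d1, e2, f2, f7, u1, u6])
      exact sA F hF k t hk H htk A C D hA hC cf.hD
        (emptyD A C D n3 cf.r3 (Nat.le_zero.1 (by linarith only [f2]))) a (n1 + n3 + n7) (n3 + n5 + n11) ha gA gC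
        (by linarith only [ht, d1, d2, x1, hvA, hR, hh2, f1, f2, f4, u7])
        (by linarith only [u6])
        (by linarith only [u7])
        (by linarith only [ht, d0, d1])
        (by linarith only [ht2, d0, d1, x1, hvA, hR, hh2, e2, e4, f1, f4, u1, u7])
        (by linarith only [ht, d0, d1, u6])
        (by linarith only [ht, d0, d1])
    exact ES1149 F hF t H A B C D n0 n1 n2 n3 n4 n5 n6 n7 n8 n9 n10 n11 cf
      (Nat.le_zero.1 (by linarith only [f2]))
      (Nat.le_zero.1 (by linarith only [f3]))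
      (by linarith only [ht, d0, d1, x1, hvA, e2, e3, e6, f4, u1, u5])
      (by linarith only [ht, d2, x2, x3, hvA, hR, hh2, e1, e6, f6])
      (by linarith only [u5])
      (by linarith only [u1])
      (by linarith only [ht, d0, d1, x1, e2, e3, e5, u1])
      (by linarith only [u5])
      (by linarith only [ht, d1, d2, x2, e1, e2, e3, e5, e6, u1, u5])
  exact ES282 F hF t H A B C D n0 n1 n2 n3 n4 n5 n6 n7 n8 n9 n10 n11 cf
    (Nat.le_zero.1 (by linarith only [f2]))
    (Nat.le_zero.1 (by linarith only [f3]))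
    (by linarith only [u1])
    (by linarith only [u1])
    (by linarith only [u1])
    (by linarith only [ht, d2, x2, x3, hvA, hR, hh2, e1, e4, f4, f6])
    (by linarith only [ht, d2, x2, x3, hvA, hR, hh2, e1, e4, f4, f6, u4])
    (by linarith only [ht, d2, x2, x3, hvA, hR, hh2, e1, e4, f4, f6, u4])
    (by linarith only [u4])

end Pool.Agent.TX17
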