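import Pool.Agent.TX17.Stat
import Pool.Agent.TX17.Cells
import Pool.Agent.TX17.ET1
import Pool.Agent.TX17.ET2

set_option autoImplicit false
set_option linter.all false

namespace Pool.Agent.TX17

open Pool.Agent.TV17 Pool.Agent.TW17

theorem EX2c8 (F : Set (Finset ℕ)) (hF : SevenTwoCoverable F) (k t : ℕ)
    (hk : ∀ A ∈ F, A.card = k) (H : Missed F t) (htk : t ≤ k) (ht : 17 * k + 160 ≤ 20 * t)
    (ht2 : 20 * t ≤ 17 * k + 180)
    (A B C : Finset ℕ) (hA : A ∈ F) (hB : B ∈ F) (hC : C ∈ F) (e : A ∩ B ∩ C = ∅)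
    (c a b : ℕ) (hc : (A ∩ B).card = c) (ha : (A ∩ C).card = a) (hb : (B ∩ C).card = b)
    (hcap : ∀ X ∈ F, ∀ Y ∈ F, 20 * (X ∩ Y).card ≤ 7 * k ∨ c ≤ (X ∩ Y).card)
    (hext : ∀ D ∈ F, A ∩ B ∩ D = ∅ → a ≤ (A ∩ D).card ∨ a ≤ (B ∩ D).card)
    (d0 : 7 * k ≤ 20 * c)
    (d1 : 2 * a + c + t ≤ 2 * k + 1)
    (d2 : c ≤ a)
    (d3 : 20 * b ≤ 7 * k)
    (x0 : 175 * k ≤ 1000 * b)
    (x1 : 1000 * b ≤ 262 * k)
    (x2 : 1000 * b ≤ 219 * k)
    (x3 : 1000 * a ≤ 375 * k)
    (x4 : 197 * k ≤ 1000 * b)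
    (x5 : 363 * k ≤ 1000 * c)
    (x6 : 1000 * b ≤ 208 * k)
    : False := by
  obtain ⟨R, hR⟩ : ∃ R : ℕ, R + (c + b) = t := ⟨t - (c + b), by omega⟩
  obtain ⟨D, n0, n1, n2, n3, n4, n5, n6, n7, n8, n9, n10, n11, cf, e1, e2, e3, e4, e5, e6, f1, f2, f3,
    f4, f5, f6, f7, gA, gB, gC⟩ := respond F k t hk H A B C hA hB hC e c a b hc ha hb
    c R b 0 0 0
    (le_refl _)
    (by linarith only [htk, ht2, d1, d2, x4, x5, hR])
    (le_refl _)
    (by linarith only [d1, hR])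
    (by linarith only [d1, d2, x6, hR])
    (by linarith only [x1, x3])
    (by linarith only [hR])
  rcases hext D cf.hD (emptyD A B D n1 cf.r1 (Nat.le_zero.1 (by linarith only [f1]))) with w1 | w1
  · rw [gA] at w1
    linarith only [ht, d2, x5, x6, hR, e4, f1, f2, w1]
  · rw [gB] at w1
    rcases hcap A hA D cf.hD with w2 | w2
    · rw [gA] at w2
      rcases hcap B hB D cf.hD with w3 | w3
      · rw [gB] at w3
        linarith only [ht, d2, x5, x6, hR, f2, w1, w3]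
      · rw [gB] at w3
        rcases hcap C hC D cf.hD with w4 | w4
        · rw [gC] at w4
          exact ES307 F hF t H A B C D n0 n1 n2 n3 n4 n5 n6 n7 n8 n9 n10 n11 cf
            (Nat.le_zero.1 (by linarith only [f1]))
            (Nat.le_zero.1 (by linarith only [f3]))
            (by linarith only [ht, x6, e3, w2])
            (by linarith only [ht, x3, x4, x5, e2, e5])
            (by linarith only [ht, x3, x6, e2, e3, f7])
            (by linarith only [ht, w4])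
            (by linarith only [ht, hR, e1, e3, w2, w4])
            (by linarith only [ht, x3, x4, e1, e2, e5, w4])
            (by linarith only [ht, x3, e1, e2, e3, e5, w2, w4])
            (by linarith only [ht, hR, e1, e3, w2, w4])
            (by linarith only [ht, x3, x4, e1, e2, e5, w4])
            (by linarith only [ht, e1, e2, e3, e4, e5, w4])
            (by linarith only [ht, e1, e2, e3, e4, e5, w4])
        · rw [gC] at w4
          by_cases u5 : n0 + 2 * n3 + n4 + n7 + 2 * n11 ≤ 2 * t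
          swap
          · exact ES958 F hF t H A B C D n0 n1 n2 n3 n4 n5 n6 n7 n8 n9 n10 n11 cf
              (Nat.le_zero.1 (by linarith only [f1]))
              (Nat.le_zero.1 (by linarith only [f3]))
              (by linarith only [ht, x3, x4, x5, e2, e5])
              (by linarith only [ht, d2, x3, x4, hR, e1, w2])
              (by linarith only [ht, x3, x6, hR, e1, e2, e3, e5, f2, f7, w2, w3, u5])
              (by linarith only [hR, e1])
              (by linarith only [ht, x3, x4, e1, e2, e5, w2])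
              (by linarith only [ht, d2, x3, x6, hR, e1, e3, f7, w3])
              (by linarith only [ht, x5, x6, e1, e2, e3, e4, e5, f7, w1, w3, u5])
              (by linarith only [ht, d2, x3, x6, hR, e1, e2, e3, e5, f2, f7, w2, u5])
              (by linarith only [ht, d2, x3, x4, hR, e1, e3, w2])
              (by linarith only [ht, d2, x3, x6, hR, e1, e2, e3, e4, e5, w2])
              (by linarith only [ht, x3, x6, hR, e1, e2, e3, e5, f2, f7, w2, w3, u5])
          exact ES343 F hF t H A B C D n0 n1 n2 n3 n4 n5 n6 n7 n8 n9 n10 n11 cf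
            (Nat.le_zero.1 (by linarith only [f1]))
            (Nat.le_zero.1 (by linarith only [f3]))
            (by linarith only [ht, x5, x6, e1, e3, f7, w2, w3, u5])
            (by linarith only [ht, x3, x4, x5, e2, e5])
            (by linarith only [ht, x3, x5, x6, e2, e3, e5, f7, u5])
            (by linarith only [u5])
            (by linarith only [u5])
            (by linarith only [ht, x3, e2, f7])
            (by linarith only [ht, x3, x4, x5, e2, e5, u5])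
    · rw [gA] at w2
      linarith only [ht, d1, x5, x6, hR, e4, f1, f2, w2]

theorem EX2c9 (F : Set (Finset ℕ)) (hF : SevenTwoCoverable F) (k t : ℕ)
    (hk : ∀ A ∈ F, A.card = k) (H : Missed F t) (htk : t ≤ k) (ht : 17 * k + 160 ≤ 20 * t)
    (ht2 : 20 * t ≤ 17 * k + 180)
    (A B C : Finset ℕ) (hA : A ∈ F) (hB : B ∈ F) (hC : C ∈ F) (e : A ∩ B ∩ C = ∅)
    (c a b : ℕ) (hc : (A ∩ B).card = c) (ha : (A ∩ C).card = a) (hb : (B ∩ C).card = b)
    (hcap : ∀ X ∈ F, ∀ Y ∈ F, 20 * (X ∩ Y).card ≤ 7 * k ∨ c ≤ (X ∩ Y).card)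
    (hext : ∀ D ∈ F, A ∩ B ∩ D = ∅ → a ≤ (A ∩ D).card ∨ a ≤ (B ∩ D).card)
    (d0 : 7 * k ≤ 20 * c)
    (d1 : 2 * a + c + t ≤ 2 * k + 1)
    (d2 : c ≤ a)
    (d3 : 20 * b ≤ 7 * k)
    (x0 : 175 * k ≤ 1000 * b)
    (x1 : 1000 * b ≤ 262 * k)
    (x2 : 1000 * b ≤ 219 * k)
    (x3 : 1000 * a ≤ 375 * k)
    (x4 : 197 * k ≤ 1000 * b)
    (x5 : 363 * k ≤ 1000 * c)
    (x6 : 208 * k ≤ 1000 * b)
    : False := by
  exact s2 F hF k t hk H htk A B C hA hB hC e c a b hc ha hb
    (by linarith only [ht, d2, x2, x5])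
    (by linarith only [ht, d2, x3, x6])
    (by linarith only [ht, d2, x6])
    (by linarith only [ht, x2, x3, x5])
    (by linarith only [ht, x3, x5, x6])
    (by linarith only [ht, d2, x2])
    (by linarith only [ht, d2, x2, x3])

theorem EX2c10 (F : Set (Finset ℕ)) (hF : SevenTwoCoverable F) (k t : ℕ)
    (hk : ∀ A ∈ F, A.card = k) (H : Missed F t) (htk : t ≤ k) (ht : 17 * k + 160 ≤ 20 * t)
    (ht2 : 20 * t ≤ 17 * k + 180)
    (A B C : Finset ℕ) (hA : A ∈ F) (hB : B ∈ F) (hC : C ∈ F) (e : A ∩ B ∩ C = ∅)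
    (c a b : ℕ) (hc : (A ∩ B).card = c) (ha : (A ∩ C).card = a) (hb : (B ∩ C).card = b)
    (hcap : ∀ X ∈ F, ∀ Y ∈ F, 20 * (X ∩ Y).card ≤ 7 * k ∨ c ≤ (X ∩ Y).card)
    (hext : ∀ D ∈ F, A ∩ B ∩ D = ∅ → a ≤ (A ∩ D).card ∨ a ≤ (B ∩ D).card)
    (d0 : 7 * k ≤ 20 * c)
    (d1 : 2 * a + c + t ≤ 2 * k + 1)
    (d2 : c ≤ a)
    (d3 : 20 * b ≤ 7 * k)
    (x0 : 175 * k ≤ 1000 * b)
    (x1 : 1000 * b ≤ 262 * k)
    (x2 : 1000 * b ≤ 219 * k)
    (x3 : 375 * k ≤ 1000 * a)
    : False := by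
  obtain ⟨vA, hvA⟩ : ∃ v : ℕ, v + c + a = k := ⟨k - c - a, by omega⟩
  obtain ⟨R, hR⟩ : ∃ R : ℕ, R + (c + b + vA) = t := ⟨t - (c + b + vA), by omega⟩
  obtain ⟨h, hh1, hh2⟩ : ∃ h : ℕ, 2 * h ≤ R ∧ R ≤ 2 * h + 1 := ⟨R / 2, by omega, by omega⟩
  obtain ⟨D, n0, n1, n2, n3, n4, n5, n6, n7, n8, n9, n10, n11, cf, e1, e2, e3, e4, e5, e6, f1, f2, f3,
    f4, f5, f6, f7, gA, gB, gC⟩ := respond F k t hk H A B C hA hB hC e c a b hc ha hb
    c h b vA h 0
    (le_refl _)
    (by linarith only [htk, ht2, d0, x0, x3, hR, hh1])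
    (le_refl _)
    (by linarith only [hvA])
    (by linarith only [d1, x2, x3, hR, hh1])
    (by linarith only [ht, d1, x2])
    (by linarith only [hR, hh1])
  rcases hext D cf.hD (emptyD A B D n1 cf.r1 (Nat.le_zero.1 (by linarith only [f1]))) with w1 | w1
  · rw [gA] at w1
    linarith only [ht, d0, d1, x2, x3, hvA, hR, hh2, f1, f2, f4, w1]
  · rw [gB] at w1
    by_cases u2 : n0 + n2 + 3 * n3 + n4 + 2 * n7 + n8 + n9 + 2 * n11 ≤ 3 * t
    swap
    · by_cases u3 : n0 + n2 + 2 * n3 + n4 + n7 + n8 + n9 ≤ 2 * t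
      swap
      · exact s2 F hF k t hk H htk A B D hA hB cf.hD
          (emptyD A B D n1 cf.r1 (Nat.le_zero.1 (by linarith only [f1]))) c (n1 + n3 + n7) (n1 + n5 + n9) hc gA gB
          (by linarith only [ht, d0, d1, x0, e1, e2, e3, e5, f3, u3])
          (by linarith only [ht, d2, x3, hvA, e2, e4, f1, f4, w1])
          (by linarith only [ht, d1, d2, e1, e2, e3, e5, w1, u3])
          (by linarith only [ht, d0, d1, x2, hvA, hR, hh2, e1, e2, e3, e5, f1, f2, f4, f5, f7, u2])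
          (by linarith only [ht, d0, hvA, e2, f1, f4, f7, w1])
          (by linarith only [ht, d0, d1, x0, e1, e2, e3, e5, f3, u3])
          (by linarith only [ht, d1, d2, hR, hh2, f1, f2, f3, f4, f5, f7])
      by_cases u4 : n0 + n2 + 2 * n3 + n4 + n7 + n9 ≤ 2 * t
      swap
      · linarith only [ht, d1, d2, x2, hvA, hR, hh2, e1, e2, e3, e5, f5, f7, u2, u3, u4]
      exact ES958 F hF t H A B C D n0 n1 n2 n3 n4 n5 n6 n7 n8 n9 n10 n11 cf
        (Nat.le_zero.1 (by linarith only [f1]))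
        (Nat.le_zero.1 (by linarith only [f3]))
        (by linarith only [ht, d0, d1, x0, hvA, hR, hh2, e2, e5, f5])
        (by linarith only [ht, d1, d2, x2, hvA, e1, e4, e5, f4, u3])
        (by linarith only [u3])
        (by linarith only [ht, d1, d2, e1, u3])
        (by linarith only [u3])
        (by linarith only [ht, d2, x0, x3, e1, e2, e3, e4, e6, f7, w1, u4])
        (by linarith only [ht, d2, x0, x3, hvA, e1, e4, e6, f4, u3])
        (by linarith only [u3])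
        (by linarith only [ht, d1, d2, x2, e1, e3, e4, u3])
        (by linarith only [ht, d2, x2, x3, hvA, e1, e3, e4, f4, w1, u3])
        (by linarith only [ht, d2, x3, hvA, e1, e2, e3, e4, e6, f4, f7, w1, u3, u4])
    exact ES405 F hF t H A B C D n0 n1 n2 n3 n4 n5 n6 n7 n8 n9 n10 n11 cf
      (Nat.le_zero.1 (by linarith only [f1]))
      (Nat.le_zero.1 (by linarith only [f3]))
      (by linarith only [ht, d0, d1, x0, hvA, hR, hh2, e2, e5, f4, f5])
      (by linarith only [ht, x3, f7, w1])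
      (by linarith only [ht, d0, d1, x2, hvA, e1, e2, e3, e4, e5, f4, f7, u2])
      (by linarith only [ht, x0, x3, e1, e5, e6, f7, u2])
      (by linarith only [ht, d0, d1, x0, e2, e5, f7, u2])
      (by linarith only [ht2, d1, d2, e1, e2, e3, e5, e6, f3, f7, w1, u2])
      (by linarith only [u2])

theorem EX2c11 (F : Set (Finset ℕ)) (hF : SevenTwoCoverable F) (k t : ℕ)
    (hk : ∀ A ∈ F, A.card = k) (H : Missed F t) (htk : t ≤ k) (ht : 17 * k + 160 ≤ 20 * t)
    (ht2 : 20 * t ≤ 17 * k + 180)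
    (A B C : Finset ℕ) (hA : A ∈ F) (hB : B ∈ F) (hC : C ∈ F) (e : A ∩ B ∩ C = ∅)
    (c a b : ℕ) (hc : (A ∩ B).card = c) (ha : (A ∩ C).card = a) (hb : (B ∩ C).card = b)
    (hcap : ∀ X ∈ F, ∀ Y ∈ F, 20 * (X ∩ Y).card ≤ 7 * k ∨ c ≤ (X ∩ Y).card)
    (hext : ∀ D ∈ F, A ∩ B ∩ D = ∅ → a ≤ (A ∩ D).card ∨ a ≤ (B ∩ D).card)
    (d0 : 7 * k ≤ 20 * c)
    (d1 : 2 * a + c + t ≤ 2 * k + 1)
    (d2 : c ≤ a)
    (d3 : 20 * b ≤ 7 * k)
    (x0 : 175 * k ≤ 1000 * b)
    (x1 : 1000 * b ≤ 262 * k)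
    (x2 : 219 * k ≤ 1000 * b)
    : False := by
  exact s2 F hF k t hk H htk A B C hA hB hC e c a b hc ha hb
    (by linarith only [ht, d0, d2, x1])
    (by linarith only [ht, d1, d2, x2])
    (by linarith only [ht, d2, x2])
    (by linarith only [ht, d0, d1, x1])
    (by linarith only [ht, d0, d1, x2])
    (by linarith only [ht, d2, x1])
    (by linarith only [ht, d1, d2, x1])

theorem EX2c12 (F : Set (Finset ℕ)) (hF : SevenTwoCoverable F) (k t : ℕ)
    (hk : ∀ A ∈ F, A.card = k) (H : Missed F t) (htk : t ≤ k) (ht : 17 * k + 160 ≤ 20 * t)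
    (ht2 : 20 * t ≤ 17 * k + 180)
    (A B C : Finset ℕ) (hA : A ∈ F) (hB : B ∈ F) (hC : C ∈ F) (e : A ∩ B ∩ C = ∅)
    (c a b : ℕ) (hc : (A ∩ B).card = c) (ha : (A ∩ C).card = a) (hb : (B ∩ C).card = b)
    (hcap : ∀ X ∈ F, ∀ Y ∈ F, 20 * (X ∩ Y).card ≤ 7 * k ∨ c ≤ (X ∩ Y).card)
    (hext : ∀ D ∈ F, A ∩ B ∩ D = ∅ → a ≤ (A ∩ D).card ∨ a ≤ (B ∩ D).card)
    (d0 : 7 * k ≤ 20 * c)
    (d1 : 2 * a + c + t ≤ 2 * k + 1)
    (d2 : c ≤ a)
    (d3 : 20 * b ≤ 7 * k)
    (x0 : 175 * k ≤ 1000 * b)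
    (x1 : 262 * k ≤ 1000 * b)
    : False := by
  exact s2 F hF k t hk H htk A B C hA hB hC e c a b hc ha hb
    (by linarith only [ht, d0, d2, d3])
    (by linarith only [ht, d1, d2, x1])
    (by linarith only [ht, d2, x1])
    (by linarith only [ht, d0, d1, d3])
    (by linarith only [ht, d0, d1, x1])
    (by linarith only [ht, d2, d3])
    (by linarith only [ht, d1, d2, d3])

end Pool.Agent.TX17
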