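import Pool.Agent.TX17.EX2C0
import Pool.Agent.TX17.EX2C1
import Pool.Agent.TX17.EX2C2
import Pool.Agent.TX17.EX2C3

set_option autoImplicit false
set_option linter.all false

namespace Pool.Agent.TX17

open Pool.Agent.TV17 Pool.Agent.TW17

theorem EX2main (F : Set (Finset ℕ)) (hF : SevenTwoCoverable F) (k t : ℕ)
    (hk : ∀ A ∈ F, A.card = k) (H : Missed F t) (htk : t ≤ k) (ht : 17 * k + 160 ≤ 20 * t)
    (ht2 : 20 * t ≤ 17 * k + 180)
    (A B C : Finset ℕ) (hA : A ∈ F) (hB : B ∈ F) (hC : C ∈ F) (e : A ∩ B ∩ C = ∅)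
    (c a b : ℕ) (hc : (A ∩ B).card = c) (ha : (A ∩ C).card = a) (hb : (B ∩ C).card = b)
    (hcap : ∀ X ∈ F, ∀ Y ∈ F, 20 * (X ∩ Y).card ≤ 7 * k ∨ c ≤ (X ∩ Y).card)
    (hext : ∀ D ∈ F, A ∩ B ∩ D = ∅ → a ≤ (A ∩ D).card ∨ a ≤ (B ∩ D).card)
    (d0 : 7 * k ≤ 20 * c)
    (d1 : 2 * a + c + t ≤ 2 * k + 1)
    (d2 : c ≤ a)
    (d3 : 20 * b ≤ 7 * k)
    : False := by
  rcases le_total (1000 * b) (175 * k) with y1 | y1
  · rcases le_total (1000 * b) (87 * k) with y2 | y2
    · rcases le_total (1000 * b) (43 * k) with y3 | y3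
      · exact EX2c0 F hF k t hk H htk ht ht2 A B C hA hB hC e c a b hc ha hb hcap hext d0 d1 d2 d3 y1 y2 y3
      · rcases le_total (1000 * a) (375 * k) with y4 | y4
        · rcases le_total (1000 * b) (65 * k) with y5 | y5
          · rcases le_total (1000 * c) (363 * k) with y6 | y6
            · exact EX2c1 F hF k t hk H htk ht ht2 A B C hA hB hC e c a b hc ha hb hcap hext d0 d1 d2 d3 y1 y2 y3 y4 y5 y6
            · exact EX2c2 F hF k t hk H htk ht ht2 A B C hA hB hC e c a b hc ha hb hcap hext d0 d1 d2 d3 y1 y2 y3 y4 y5 y6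
          · exact EX2c3 F hF k t hk H htk ht ht2 A B C hA hB hC e c a b hc ha hb hcap hext d0 d1 d2 d3 y1 y2 y3 y4 y5
        · exact EX2c4 F hF k t hk H htk ht ht2 A B C hA hB hC e c a b hc ha hb hcap hext d0 d1 d2 d3 y1 y2 y3 y4
    · exact EX2c5 F hF k t hk H htk ht ht2 A B C hA hB hC e c a b hc ha hb hcap hext d0 d1 d2 d3 y1 y2
  · rcases le_total (1000 * b) (262 * k) with y7 | y7
    · rcases le_total (1000 * b) (219 * k) with y8 | y8
      · rcases le_total (1000 * a) (375 * k) with y9 | y9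
        · rcases le_total (1000 * b) (197 * k) with y10 | y10
          · exact EX2c6 F hF k t hk H htk ht ht2 A B C hA hB hC e c a b hc ha hb hcap hext d0 d1 d2 d3 y1 y7 y8 y9 y10
          · rcases le_total (1000 * c) (363 * k) with y11 | y11
            · exact EX2c7 F hF k t hk H htk ht ht2 A B C hA hB hC e c a b hc ha hb hcap hext d0 d1 d2 d3 y1 y7 y8 y9 y10 y11
            · rcases le_total (1000 * b) (208 * k) with y12 | y12
              · exact EX2c8 F hF k t hk H htk ht ht2 A B C hA hB hC e c a b hc ha hb hcap hext d0 d1 d2 d3 y1 y7 y8 y9 y10 y11 y12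
              · exact EX2c9 F hF k t hk H htk ht ht2 A B C hA hB hC e c a b hc ha hb hcap hext d0 d1 d2 d3 y1 y7 y8 y9 y10 y11 y12
        · exact EX2c10 F hF k t hk H htk ht ht2 A B C hA hB hC e c a b hc ha hb hcap hext d0 d1 d2 d3 y1 y7 y8 y9
      · exact EX2c11 F hF k t hk H htk ht ht2 A B C hA hB hC e c a b hc ha hb hcap hext d0 d1 d2 d3 y1 y7 y8
    · exact EX2c12 F hF k t hk H htk ht ht2 A B C hA hB hC e c a b hc ha hb hcap hext d0 d1 d2 d3 y1 y7

end Pool.Agent.TX17
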