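import Pool.Agent.TW17.Steps

set_option autoImplicit false

namespace Pool.Agent.TX17

open Pool.Agent.TV17 Pool.Agent.TW17

private lemma last67 (k t g c al be n3 n4 a3 b3 : ℕ) (hf1 : 4 * k + 4 * g + 20 ≤ 7 * t + c)
    (hf2 : 3 * k + 2 * g + 20 ≤ 5 * t) (hf3 : k + 2 * g + c ≤ 3 * t)
    (hal : al + t + c ≤ k + g) (hbe : be + t ≤ k + al + 2)
    (hn3 : n3 = al ∨ n3 + g + 2 * c = t) (hn4 : n4 = be ∨ n4 + al = t)
    (ha3 : a3 + n3 ≤ al) (hb3 : b3 + n4 ≤ be) : a3 + b3 ≤ t := by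
  rcases hn3 with h | h <;> rcases hn4 with h' | h' <;> omega

private lemma pick67 (k t g c c21 al : ℕ) (htk : t ≤ k) (_hcg : 2 * c ≤ g) (hgk : 2 * g ≤ k + 2)
    (hk60 : 60 ≤ k) (hkg : k + g + c + 10 ≤ 2 * t) (f21 : c21 ≤ c) (hclose : k + 1 ≤ al + g)
    (hal : al + t + c ≤ k + g) :
    ∃ ma mb m : ℕ, al + c ≤ ma ∧ g ≤ ma ∧ al + c21 ≤ mb ∧ g ≤ mb ∧ ma ≤ k ∧ mb ≤ k ∧
      m + al + c + c21 = ma + mb ∧ m ≤ t ∧ c + c21 ≤ t - m ∧ t - m ≤ k ∧ m ≤ al + 2 := by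
  refine ⟨al + c + 1, al + c21 + 1, al + 2, ?_⟩
  refine ⟨by omega, by omega, by omega, by omega, by omega, by omega, by omega, ?_, ?_, ?_, ?_⟩
  · clear _hcg hgk hclose f21
    omega
  · clear _hcg hgk hclose
    omega
  · omega
  · omega

private lemma core67 (F : Set (Finset ℕ)) (hF : SevenTwoCoverable F) (k t : ℕ)
    (hk : ∀ A ∈ F, A.card = k) (H : Missed F t) (htk : t ≤ k) (hk60 : 60 ≤ k)
    (c g : ℕ) (hcg : 2 * c ≤ g) (hgt : g + 2 * c ≤ t) (hgk : 2 * g ≤ k + 2)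
    (hkg : k + g + c + 10 ≤ 2 * t) (hA : c + 3 * k ≤ 4 * t) (_hB : 2 * c + 2 * k ≤ 3 * t)
    (hf1 : 4 * k + 4 * g + 20 ≤ 7 * t + c)
    (hf2 : 3 * k + 2 * g + 20 ≤ 5 * t) (hf3 : k + 2 * g + c ≤ 3 * t)
    (hfar : ∀ A ∈ F, ∀ D ∈ F, (A ∩ D).card + g ≤ k → (A ∩ D).card ≤ c)
    (A1 B1 : Finset ℕ) (hA1 : A1 ∈ F) (hB1 : B1 ∈ F) (hc : (A1 ∩ B1).card = c) : False := by
  classical
  obtain ⟨A2, hA2, e121, hal, h21⟩ := stepA2 F k t hk H A1 B1 hA1 hB1 c g hc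
    (by omega) (by omega) (by omega) (by omega)
  have f21 := hfar B1 hB1 A2 hA2 h21
  obtain ⟨al, hal'⟩ : ∃ al : ℕ, (A1 ∩ A2).card = al := ⟨_, rfl⟩
  obtain ⟨c21, hc21⟩ : ∃ c21 : ℕ, (B1 ∩ A2).card = c21 := ⟨_, rfl⟩
  rw [hal'] at hal
  rw [hc21] at f21
  have hclose : k + 1 ≤ al + g := by
    by_contra hcon
    have h1 : (A1 ∩ A2).card ≤ c := hfar A1 hA1 A2 hA2 (by omega)
    rw [hal'] at h1
    clear hcon hal hf1 hf2 hf3
    refine win1 F hF k t hk H A1 B1 A2 hA1 hB1 hA2 ?_ c al c21 hc hal' hc21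
      (by omega) (by omega) (by omega) (by omega) (by omega) (by omega) (by omega) (by omega)
    rw [Finset.eq_empty_iff_forall_notMem]
    intro z hz
    simp only [Finset.mem_inter] at hz
    exact e121 z hz.1.1 hz.2 hz.1.2
  have hal2 : al + t + c ≤ k + g := by clear hf1 hf2 hf3 hA; omega
  obtain ⟨ma, mb, m, q1, q2, q3, q4, q5, q6, q7, q8, q9, q10, q11⟩ :=
    pick67 k t g c c21 al htk hcg hgk hk60 hkg f21 hclose hal2
  obtain ⟨B2, hB2, e122, eB, h12, h22, hbe⟩ := stepB2 F k t hk H A1 A2 B1 hA1 hA2 hB1 al c c21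
    ma mb m g e121 hal' hc hc21 q1 q2 q3 q4 q5 q6 q7 q8 q9 q10
  have f12 := hfar A1 hA1 B2 hB2 h12
  have f22 := hfar A2 hA2 B2 hB2 h22
  obtain ⟨be, hbe'⟩ : ∃ be : ℕ, (B1 ∩ B2).card = be := ⟨_, rfl⟩
  rw [hbe'] at hbe
  have hbe2 : be + t ≤ k + al + 2 := by
    clear hf1 hf2 hf3 hA hgk hkg hgt hcg hal hal2 hclose q1 q2 q3 q4 q5 q6 q7 q9
    omega
  clear q1 q2 q3 q4 q5 q6 q7 q8 q9 q10 q11 hbe
  have hK1 : ((A1 ∪ A2) ∩ B1).card ≤ g := by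
    have h1 : (A1 ∪ A2) ∩ B1 = (A1 ∩ B1) ∪ (B1 ∩ A2) := by
      ext z; simp; tauto
    rw [h1]
    have := card_un2 _ _ _ _ hc.le hc21.le
    omega
  have hK2 : ((A1 ∪ A2) ∩ B2).card ≤ 2 * c := by
    have h1 : (A1 ∪ A2) ∩ B2 = (A1 ∩ B2) ∪ (A2 ∩ B2) := by
      ext z; simp; tauto
    rw [h1]
    have := card_un2 _ _ _ _ f12 f22
    omega
  obtain ⟨n3, hn3a, hn3b, hn3c⟩ : ∃ n3 : ℕ, n3 ≤ al ∧ g + 2 * c + n3 ≤ t ∧
      (n3 = al ∨ n3 + g + 2 * c = t) := by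
    clear hf1 hf2 hf3 hA
    by_cases h : al ≤ t - g - 2 * c
    · exact ⟨al, le_rfl, by omega, Or.inl rfl⟩
    · exact ⟨t - g - 2 * c, by omega, by omega, by omega⟩
  obtain ⟨A3, hA3, eA31, eA32, h13, ha3⟩ := stepA3 F k t hk H A1 A2 B1 B2 hB1 al c g n3 hal'
    hK1 hK2 (by omega) hn3a hn3b
  have f13 := hfar B1 hB1 A3 hA3 h13
  have halt : al + 2 * c ≤ t := by
    clear hf1 hf2 hf3 hA hn3a hn3b hn3c
    omega
  obtain ⟨n4, hn4a, hn4b, hn4c, hn4d⟩ : ∃ n4 : ℕ, n4 ≤ be ∧ al + n4 ≤ t ∧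
      (n4 = be ∨ n4 + al = t) ∧ (n4 = be ∨ c ≤ n4) := by
    clear hf1 hf2 hf3 hA
    by_cases h : be ≤ t - al
    · exact ⟨be, le_rfl, by omega, Or.inl rfl, Or.inl rfl⟩
    · exact ⟨t - al, by omega, by omega, by omega, by omega⟩
  have h312 : ((B1 ∩ A3) ∩ (B1 ∩ B2)).card ≤ n4 := by
    rcases hn4d with h | h
    · rw [h, ← hbe']
      exact Finset.card_le_card Finset.inter_subset_right
    · exact (Finset.card_le_card Finset.inter_subset_left).trans (f13.trans h)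
  obtain ⟨B3, hB3, e123, e3, hb3⟩ := stepB3 F t H A1 A2 A3 B1 B2 al be n4 hal' hbe' hn4a h312
    hn4b
  refine stepD F hF t H A1 A2 A3 B1 B2 B3 hA1 hA2 hA3 hB1 hB2 hB3 e121 e122 e123 eB eA31 eA32
    e3 ?_
  exact last67 k t g c al be n3 n4 _ _ hf1 hf2 hf3 hal2 hbe2 hn3c hn4c ha3 hb3

/-- The case of far intersections at most about `k / 8`: two clusters. -/
theorem end_case67 (F : Set (Finset ℕ)) (hF : SevenTwoCoverable F) (k t : ℕ)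
    (hk : ∀ A ∈ F, A.card = k) (H : Missed F t) (htk : t ≤ k) (ht : 6 * k + 60 ≤ 7 * t)
    (c g : ℕ) (hg1 : 49 * k ≤ 100 * g) (hg2 : 100 * g ≤ 49 * k + 200)
    (hfar : ∀ A ∈ F, ∀ D ∈ F, (A ∩ D).card + g ≤ k → (A ∩ D).card ≤ c)
    (A1 B1 : Finset ℕ) (hA1 : A1 ∈ F) (hB1 : B1 ∈ F) (hc : (A1 ∩ B1).card = c)
    (hcs : 1000 * c ≤ 125 * k + 3000) : False := by
  have hk60 : 60 ≤ k := by clear hg1 hg2 hcs; omega
  exact core67 F hF k t hk H htk hk60 c g (by clear ht htk hg2; omega)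
    (by clear hg1; omega) (by clear hcs hg1 ht; omega) (by clear hg1; omega)
    (by clear hg1 hg2; omega) (by clear hg1 hg2; omega) (by clear hg1; omega)
    (by clear hg1; omega) (by clear hg1; omega) hfar A1 B1 hA1 hB1 hc

/-- The case of far intersections at most about `k / 7`: two clusters. -/
theorem end_case67b (F : Set (Finset ℕ)) (hF : SevenTwoCoverable F) (k t : ℕ)
    (hk : ∀ A ∈ F, A.card = k) (H : Missed F t) (htk : t ≤ k) (ht : 6 * k + 60 ≤ 7 * t)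
    (c g : ℕ) (hg1 : k ≤ 2 * g) (hg2 : 2 * g ≤ k + 2)
    (hfar : ∀ A ∈ F, ∀ D ∈ F, (A ∩ D).card + g ≤ k → (A ∩ D).card ≤ c)
    (A1 B1 : Finset ℕ) (hA1 : A1 ∈ F) (hB1 : B1 ∈ F) (hc : (A1 ∩ B1).card = c)
    (hcs : 7 * c ≤ k + 14) : False := by
  have hk60 : 60 ≤ k := by clear hg1 hg2 hcs; omega
  exact core67 F hF k t hk H htk hk60 c g (by clear ht htk hg2; omega)
    (by clear hg1; omega) hg2 (by clear hg1; omega)
    (by clear hg1 hg2; omega) (by clear hg1 hg2; omega) (by clear hg1; omega)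
    (by clear hg1; omega) (by clear hg1; omega) hfar A1 B1 hA1 hB1 hc

end Pool.Agent.TX17
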