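import Pool.Agent.TW17.Steps

set_option autoImplicit false

namespace Pool.Agent.TX17

open Pool.Agent.TV17 Pool.Agent.TW17

lemma lastG (k t g c al be n3 n4 a3 b3 : ℕ) (hla : 3 * k + 2 * g ≤ 5 * t + 2 * c)
    (hlb : k + 2 * g + c ≤ 3 * t) (hlc : 4 * k + 4 * g ≤ 7 * t + c) (htk : t ≤ k)
    (hal : al + (t - g) + c ≤ k) (hbe : be + (t - al) ≤ k)
    (hn3 : n3 = al ∨ n3 + g + 2 * c = t) (hn4 : n4 = be ∨ n4 + al = t)
    (ha3 : a3 + n3 ≤ al) (hb3 : b3 + n4 ≤ be) : a3 + b3 ≤ t := by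
  have hal' : al + t + c ≤ k + g := by omega
  have hbe' : be + t ≤ k + al := by omega
  clear hal hbe
  rcases hn3 with h | h <;> rcases hn4 with h' | h' <;> omega

/-- The end game with linear hypotheses: two clusters. -/
theorem end_gen (F : Set (Finset ℕ)) (hF : SevenTwoCoverable F) (k t : ℕ)
    (hk : ∀ A ∈ F, A.card = k) (H : Missed F t) (htk : t ≤ k)
    (c g : ℕ) (hcg : 2 * c ≤ g) (hgt : g + 2 * c ≤ t) (hgk : 2 * g ≤ k + 1)
    (hkg : k + g + c ≤ 2 * t) (hla : 3 * k + 2 * g ≤ 5 * t + 2 * c)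
    (hlb : k + 2 * g + c ≤ 3 * t) (hlc : 4 * k + 4 * g ≤ 7 * t + c)
    (hw2 : 2 * c + 2 * k ≤ 3 * t) (hw3 : 3 * c + k ≤ 3 * t)
    (hw4 : c + 3 * k ≤ 4 * t) (hw5 : 2 * c ≤ t)
    (hfar : ∀ A ∈ F, ∀ D ∈ F, (A ∩ D).card + g ≤ k → (A ∩ D).card ≤ c)
    (A1 B1 : Finset ℕ) (hA1 : A1 ∈ F) (hB1 : B1 ∈ F) (hc : (A1 ∩ B1).card = c) : False := by
  classical
  obtain ⟨A2, hA2, e121, hal, h21⟩ := stepA2 F k t hk H A1 B1 hA1 hB1 c g hc
    (by omega) (by omega) (by omega) (by omega)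
  have f21 := hfar B1 hB1 A2 hA2 h21
  obtain ⟨al, hal'⟩ : ∃ al : ℕ, (A1 ∩ A2).card = al := ⟨_, rfl⟩
  obtain ⟨c21, hc21⟩ : ∃ c21 : ℕ, (B1 ∩ A2).card = c21 := ⟨_, rfl⟩
  rw [hal'] at hal
  rw [hc21] at f21
  have hclose : k + 1 ≤ al + g := by
    by_contra hcon
    have h1 : (A1 ∩ A2).card ≤ c := hfar A1 hA1 A2 hA2 (by omega)
    rw [hal'] at h1
    clear hcon hal
    refine win1 F hF k t hk H A1 B1 A2 hA1 hB1 hA2 ?_ c al c21 hc hal' hc21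
      (by omega) (by omega) (by omega) (by omega) (by omega) (by omega) (by omega) (by omega)
    rw [Finset.eq_empty_iff_forall_notMem]
    intro z hz
    simp only [Finset.mem_inter] at hz
    exact e121 z hz.1.1 hz.2 hz.1.2
  have hal2 : al + t + c ≤ k + g := by omega
  have halg : g ≤ al := by omega
  have halt : al + 2 * c ≤ t := by omega
  have halk : al + c ≤ k := by omega
  obtain ⟨B2, hB2, e122, eB, h12, h22, hbe⟩ := stepB2 F k t hk H A1 A2 B1 hA1 hA2 hB1 al c c21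
    (al + c) (al + c21) al g e121 hal' hc hc21 le_rfl (by omega) le_rfl (by omega)
    halk (by omega) (by omega) (by omega) (by omega) (by omega)
  have f12 := hfar A1 hA1 B2 hB2 h12
  have f22 := hfar A2 hA2 B2 hB2 h22
  obtain ⟨be, hbe'⟩ : ∃ be : ℕ, (B1 ∩ B2).card = be := ⟨_, rfl⟩
  rw [hbe'] at hbe
  have hK1 : ((A1 ∪ A2) ∩ B1).card ≤ g := by
    have h1 : (A1 ∪ A2) ∩ B1 = (A1 ∩ B1) ∪ (B1 ∩ A2) := by
      ext z; simp; tauto
    rw [h1]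
    have := card_un2 _ _ _ _ hc.le hc21.le
    omega
  have hK2 : ((A1 ∪ A2) ∩ B2).card ≤ 2 * c := by
    have h1 : (A1 ∪ A2) ∩ B2 = (A1 ∩ B2) ∪ (A2 ∩ B2) := by
      ext z; simp; tauto
    rw [h1]
    have := card_un2 _ _ _ _ f12 f22
    omega
  obtain ⟨n3, hn3a, hn3b, hn3c⟩ : ∃ n3 : ℕ, n3 ≤ al ∧ g + 2 * c + n3 ≤ t ∧
      (n3 = al ∨ n3 + g + 2 * c = t) := by
    by_cases h : al ≤ t - g - 2 * c
    · exact ⟨al, le_rfl, by omega, Or.inl rfl⟩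
    · exact ⟨t - g - 2 * c, by omega, by omega, by omega⟩
  obtain ⟨A3, hA3, eA31, eA32, h13, ha3⟩ := stepA3 F k t hk H A1 A2 B1 B2 hB1 al c g n3 hal'
    hK1 hK2 (by omega) hn3a hn3b
  have f13 := hfar B1 hB1 A3 hA3 h13
  obtain ⟨n4, hn4a, hn4b, hn4c, hn4d⟩ : ∃ n4 : ℕ, n4 ≤ be ∧ al + n4 ≤ t ∧
      (n4 = be ∨ n4 + al = t) ∧ (n4 = be ∨ c ≤ n4) := by
    by_cases h : be ≤ t - al
    · exact ⟨be, le_rfl, by omega, Or.inl rfl, Or.inl rfl⟩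
    · exact ⟨t - al, by omega, by omega, by omega, by omega⟩
  have h312 : ((B1 ∩ A3) ∩ (B1 ∩ B2)).card ≤ n4 := by
    rcases hn4d with h | h
    · rw [h, ← hbe']
      exact Finset.card_le_card Finset.inter_subset_right
    · exact (Finset.card_le_card Finset.inter_subset_left).trans (f13.trans h)
  obtain ⟨B3, hB3, e123, e3, hb3⟩ := stepB3 F t H A1 A2 A3 B1 B2 al be n4 hal' hbe' hn4a h312
    hn4b
  refine stepD F hF t H A1 A2 A3 B1 B2 B3 hA1 hA2 hA3 hB1 hB2 hB3 e121 e122 e123 eB eA31 eA32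
    e3 ?_
  exact lastG k t g c al be n3 n4 _ _ hla hlb hlc htk hal hbe hn3c hn4c ha3 hb3

end Pool.Agent.TX17
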