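import Pool.Agent.TX17.Resp

set_option autoImplicit false

namespace Pool.Agent.TX17

open Pool.Agent.TV17 Pool.Agent.TW17

/-- Extremal choice of the third member: among the members missing `A ∩ B`, one that minimises the
larger of its two intersections with `A` and `B`; after exchanging `A` and `B` that is its
intersection with `A`. -/
theorem pick_ext (F : Set (Finset ℕ)) (k t : ℕ) (hk : ∀ A ∈ F, A.card = k) (H : Missed F t)
    (A B : Finset ℕ) (hA : A ∈ F) (hB : B ∈ F) (c x : ℕ) (hc : (A ∩ B).card = c)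
    (hx : x + c ≤ k) (hs : c + 2 * x ≤ t) :
    ∃ (A' B' C : Finset ℕ), A' ∈ F ∧ B' ∈ F ∧ C ∈ F ∧ (A' ∩ B').card = c ∧ A' ∩ B' ∩ C = ∅ ∧
      (B' ∩ C).card ≤ (A' ∩ C).card ∧ (A' ∩ C).card + x + c ≤ k ∧
      ∀ D ∈ F, A' ∩ B' ∩ D = ∅ →
        (A' ∩ C).card ≤ (A' ∩ D).card ∨ (A' ∩ C).card ≤ (B' ∩ D).card := by
  classical
  have cA : (A \ B).card + c = k := by
    rw [← hc, ← hk A hA]; exact Finset.card_sdiff_add_card_inter A B
  have cB : (B \ A).card + c = k := by
    rw [← hc, ← hk B hB, Finset.inter_comm A B]; exact Finset.card_sdiff_add_card_inter B A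
  obtain ⟨X, sX, hX⟩ := Finset.exists_subset_card_eq (s := A \ B) (n := x) (by omega)
  obtain ⟨Y, sY, hY⟩ := Finset.exists_subset_card_eq (s := B \ A) (n := x) (by omega)
  obtain ⟨C0, hC0, mC0⟩ := H ((A ∩ B) ∪ X ∪ Y) (by
    have := card_un2 _ _ _ _ (card_un2 _ _ _ _ hc.le hX.le) hY.le
    omega)
  have e0 : A ∩ B ∩ C0 = ∅ := by
    rw [Finset.eq_empty_iff_forall_notMem]
    intro z hz
    rw [Finset.mem_inter] at hz
    exact mC0 z (by simp [Finset.mem_inter.1 hz.1]) hz.2
  -- the sizes available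
  let Q : ℕ → Prop := fun m => ∃ C ∈ F, A ∩ B ∩ C = ∅ ∧ max (A ∩ C).card (B ∩ C).card = m
  have hQ : ∃ m, Q m := ⟨_, C0, hC0, e0, rfl⟩
  obtain ⟨C, hC, e, hm⟩ := Nat.find_spec hQ
  have hmin : ∀ D ∈ F, A ∩ B ∩ D = ∅ →
      max (A ∩ C).card (B ∩ C).card ≤ max (A ∩ D).card (B ∩ D).card := by
    intro D hD eD
    rw [hm]
    exact Nat.find_min' hQ ⟨D, hD, eD, rfl⟩
  have b1 : (A ∩ C0).card + x + c ≤ k := by
    have h1 : A ∩ C0 ⊆ A \ ((A ∩ B) ∪ X) := by
      intro z hz
      rw [Finset.mem_inter] at hz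
      refine Finset.mem_sdiff.2 ⟨hz.1, fun hh => mC0 z (by simp only [Finset.mem_union] at hh ⊢; tauto) hz.2⟩
    have h2 := Finset.card_le_card h1
    have h3 : ((A ∩ B) ∪ X) ⊆ A := by
      intro z hz
      rw [Finset.mem_union] at hz
      rcases hz with h | h
      · exact (Finset.mem_inter.1 h).1
      · exact (Finset.mem_sdiff.1 (sX h)).1
    have h4 := Finset.card_sdiff_add_card_eq_card h3
    have h5 : ((A ∩ B) ∪ X).card = c + x := by
      rw [Finset.card_union_of_disjoint, hc, hX]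
      rw [Finset.disjoint_left]
      intro z h1 h2
      exact (Finset.mem_sdiff.1 (sX h2)).2 (Finset.mem_inter.1 h1).2
    rw [hk A hA] at h4
    omega
  have b2 : (B ∩ C0).card + x + c ≤ k := by
    have h1 : B ∩ C0 ⊆ B \ ((A ∩ B) ∪ Y) := by
      intro z hz
      rw [Finset.mem_inter] at hz
      refine Finset.mem_sdiff.2 ⟨hz.1, fun hh => mC0 z (by simp only [Finset.mem_union] at hh ⊢; tauto) hz.2⟩
    have h2 := Finset.card_le_card h1
    have h3 : ((A ∩ B) ∪ Y) ⊆ B := by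
      intro z hz
      rw [Finset.mem_union] at hz
      rcases hz with h | h
      · exact (Finset.mem_inter.1 h).2
      · exact (Finset.mem_sdiff.1 (sY h)).1
    have h4 := Finset.card_sdiff_add_card_eq_card h3
    have h5 : ((A ∩ B) ∪ Y).card = c + x := by
      rw [Finset.card_union_of_disjoint, hc, hY]
      rw [Finset.disjoint_left]
      intro z h1 h2
      exact (Finset.mem_sdiff.1 (sY h2)).2 (Finset.mem_inter.1 h1).1
    rw [hk B hB] at h4
    omega
  have b3 := hmin C0 hC0 e0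
  have b4 : max (A ∩ C0).card (B ∩ C0).card + x + c ≤ k := by
    rcases le_total (A ∩ C0).card (B ∩ C0).card with h | h
    · rw [max_eq_right h]; exact b2
    · rw [max_eq_left h]; exact b1
  rcases le_total (B ∩ C).card (A ∩ C).card with h | h
  · rw [max_eq_left h] at hmin b3
    refine ⟨A, B, C, hA, hB, hC, hc, e, h, by omega, fun D hD eD => ?_⟩
    exact le_max_iff.1 (hmin D hD eD)
  · rw [max_eq_right h] at hmin b3
    refine ⟨B, A, C, hB, hA, hC, by rw [Finset.inter_comm]; exact hc, ?_, h, by omega,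
      fun D hD eD => ?_⟩
    · rw [Finset.inter_comm B A]; exact e
    · have := hmin D hD (by rw [Finset.inter_comm A B]; exact eD)
      exact (le_max_iff.1 this).symm

/-- The extremal choice at a response with no point of `A ∩ B ∩ D`. -/
theorem ext_cfg (F : Set (Finset ℕ)) (A B C D : Finset ℕ) (n : Fin 12 → ℕ)
    (h : Cfg F A B C D n) (h1 : n 1 = 0)
    (hext : ∀ D ∈ F, A ∩ B ∩ D = ∅ →
      (A ∩ C).card ≤ (A ∩ D).card ∨ (A ∩ C).card ≤ (B ∩ D).card) :
    (A ∩ C).card ≤ (A ∩ D).card ∨ (A ∩ C).card ≤ (B ∩ D).card := by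
  refine hext D h.hD ?_
  rw [← Finset.card_eq_zero, h.r1, h1]

end Pool.Agent.TX17
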