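import Pool.Agent.TW17.Steps

set_option autoImplicit false

/-!
# The gap theorem for `MP_d6084f_co`: the case of small far intersections (two clusters)

`g = k + 1 - d` points of a member that are missed by `D` make the intersection far. `A1, B1` is a
far pair with `|A1 ∩ B1| = c`. `A2, A3, A4` miss `g` points of `B1`, in particular all points of
`B1` in the earlier `A`'s, and `A1 ∩ A2 ∩ A3 ∩ A4 = ∅`. `B2, B3` miss `g` points of `A1` and all
points in which an `A` meets an earlier `B`. So a point of an `A` is in at most one `B`.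
-/

namespace Pool.Agent.TX17

open Pool.Agent.TV17 Pool.Agent.TW17

/-- A member which misses `g` points of `X`, all of `S ⊆ X`, and all of `W`. -/
lemma gap_pick (F : Set (Finset ℕ)) (t : ℕ) (H : Missed F t) (X S W : Finset ℕ) (g : ℕ)
    (hS : S ⊆ X) (hSg : S.card ≤ g) (hgX : g ≤ X.card) (hW : g + W.card ≤ t) :
    ∃ D ∈ F, (∀ z ∈ S, z ∉ D) ∧ (∀ z ∈ W, z ∉ D) ∧ (X ∩ D).card + g ≤ X.card := by
  classical
  obtain ⟨P, hP1, hP2, hP3⟩ := between S X g hS hSg hgX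
  obtain ⟨D, hD, mD⟩ := H (P ∪ W) (by
    have := card_un2 P W g W.card hP3.le le_rfl
    omega)
  refine ⟨D, hD, fun z hz => mD z (by simp [hP1 hz]), fun z hz => mD z (by simp [hz]), ?_⟩
  have := inter_card_le X D P hP2 fun z hz => mD z (by simp [hz])
  omega

/-- Three sets of which the outer ones meet the middle one in many points. -/
lemma gap_trans (X Y Z : Finset ℕ) (k d : ℕ) (hY : Y.card = k) (h1 : d ≤ (X ∩ Y).card)
    (h2 : d ≤ (Y ∩ Z).card) : 2 * d ≤ k + (X ∩ Z).card := by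
  classical
  have h3 : ((X ∩ Y) ∪ (Y ∩ Z)).card ≤ Y.card := Finset.card_le_card
    (Finset.union_subset Finset.inter_subset_right Finset.inter_subset_left)
  have h4 := Finset.card_union_add_card_inter (X ∩ Y) (Y ∩ Z)
  have h5 : ((X ∩ Y) ∩ (Y ∩ Z)).card ≤ (X ∩ Z).card := Finset.card_le_card (by
    intro z hz
    simp only [Finset.mem_inter] at hz ⊢
    exact ⟨hz.1.1, hz.2.2⟩)
  omega

lemma gap_card7 (a1 a2 a3 a4 b1 b2 b3 : Finset ℕ) [DecidableEq (Finset ℕ)] :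
    ({a1, a2, a3, a4, b1, b2, b3} : Finset (Finset ℕ)).card ≤ 7 := by
  refine (Finset.card_insert_le _ _).trans ?_
  have := Finset.card_le_six (a := a2) (b := a3) (c := a4) (d := b1) (e := b2) (f := b3)
  omega

lemma gap_logic (x1 x2 x3 y1 y2 y3 : Prop) (x12 : x1 → ¬ x2) (x13 : x1 → ¬ x3)
    (x23 : x2 → ¬ x3) (y12 : y1 → ¬ y2) (y13 : y1 → ¬ y3) (y23 : y2 → ¬ y3)
    (c5 : x1 ∨ y1) (c6 : x2 ∨ y2) (c7 : x3 ∨ y3) : False := by
  tauto

theorem gap_cluster (F : Set (Finset ℕ)) (hF : SevenTwoCoverable F) (k t : ℕ)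
    (hk : ∀ A ∈ F, A.card = k) (H : Missed F t) (htk : t ≤ k) (c d : ℕ)
    (hc : ∃ A ∈ F, ∃ B ∈ F, (A ∩ B).card = c)
    (hd : ∀ A ∈ F, ∀ B ∈ F, (A ∩ B).card ≤ c ∨ d ≤ (A ∩ B).card)
    (hN : ∀ A ∈ F, ∀ B ∈ F, ∀ C ∈ F, A ∩ B ∩ C = ∅ → (A ∩ B).card = c → (A ∩ C).card ≤ c →
      (B ∩ C).card ≤ c → False)
    (h2 : 2 * d + c + t ≤ 2 * k + 1) (h3 : 13 * k + 13 ≤ 13 * d + 7 * t) (ht : 3 * k ≤ 4 * t)
    (ht2 : 15 * t ≤ 13 * k + 26) : False := by
  classical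
  obtain ⟨A1, hA1, B1, hB1, hc⟩ := hc
  obtain ⟨g, hg⟩ : ∃ g : ℕ, g + d = k + 1 := ⟨k + 1 - d, by omega⟩
  have i1 : g + 6 * c ≤ t := by omega
  have i2 : 3 * c ≤ g := by omega
  have i3 : k + 3 * g ≤ 3 * t + c := by omega
  have i4 : k + c + 1 ≤ 2 * d := by omega
  have i5 : g ≤ k := by omega
  have i6 : t + c ≤ k + g := by omega
  clear h2 h3 ht ht2
  have cA1 := hk A1 hA1
  have cB1 := hk B1 hB1
  -- far pairs
  have far : ∀ X ∈ F, ∀ D ∈ F, (X ∩ D).card + g ≤ X.card → (X ∩ D).card ≤ c := by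
    intro X hX D hD h
    rw [hk X hX] at h
    rcases hd X hX D hD with h' | h'
    · exact h'
    · omega
  -- members far from `B1` that miss `A1 ∩ B1` are close to `A1`
  have close : ∀ D ∈ F, (∀ z ∈ A1 ∩ B1, z ∉ D) → (B1 ∩ D).card ≤ c → d ≤ (A1 ∩ D).card := by
    intro D hD h1 h2
    rcases hd A1 hA1 D hD with h' | h'
    · exfalso
      refine hN A1 hA1 B1 hB1 D hD ?_ hc h' h2
      rw [Finset.eq_empty_iff_forall_notMem]
      intro z hz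
      rw [Finset.mem_inter] at hz
      exact h1 z hz.1 hz.2
    · exact h'
  -- `A2`
  have hA1B1 : (A1 \ B1).card + c = k := by
    rw [← hc, ← cA1]; exact Finset.card_sdiff_add_card_inter _ _
  obtain ⟨Y2, hY2, hY2c⟩ := Finset.exists_subset_card_eq (s := A1 \ B1) (n := t - g) (by omega)
  obtain ⟨A2, hA2, s2, w2, f2⟩ := gap_pick F t H B1 (A1 ∩ B1) Y2 g Finset.inter_subset_right
    (by omega) (by omega) (by omega)
  replace f2 := far B1 hB1 A2 hA2 f2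
  have n2 := close A2 hA2 s2 f2
  have l2 : (A1 ∩ A2).card + (t - g) + c ≤ k := by
    have h1 : A1 ∩ A2 ⊆ (A1 \ B1) ∩ A2 := by
      intro z hz
      rw [Finset.mem_inter] at hz
      refine Finset.mem_inter.2 ⟨Finset.mem_sdiff.2 ⟨hz.1, fun h => ?_⟩, hz.2⟩
      exact s2 z (Finset.mem_inter.2 ⟨hz.1, h⟩) hz.2
    have h2 := Finset.card_le_card h1
    have h3 := inter_card_le (A1 \ B1) A2 Y2 hY2 w2
    omega
  -- `A3`
  have k2 : ((A1 ∩ B1) ∪ (B1 ∩ A2)).card ≤ 2 * c := by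
    have := card_un2 _ _ _ _ hc.le f2
    omega
  obtain ⟨Y3, hY3, hY3c⟩ := Finset.exists_subset_card_eq (s := A1 ∩ A2)
    (n := min (t - g) (A1 ∩ A2).card) (min_le_right _ _)
  obtain ⟨A3, hA3, s3, w3, f3⟩ := gap_pick F t H B1 ((A1 ∩ B1) ∪ (B1 ∩ A2)) Y3 g
    (Finset.union_subset Finset.inter_subset_right Finset.inter_subset_left)
    (by omega) (by omega) (by omega)
  replace f3 := far B1 hB1 A3 hA3 f3
  have n3 := close A3 hA3 (fun z hz => s3 z (Finset.mem_union_left _ hz)) f3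
  have l3 : ((A1 ∩ A2) ∩ A3).card ≤ t - g := by
    have h3 := inter_card_le (A1 ∩ A2) A3 Y3 hY3 w3
    omega
  -- `A4`
  have k3 : (((A1 ∩ B1) ∪ (B1 ∩ A2)) ∪ (B1 ∩ A3)).card ≤ 3 * c := by
    have := card_un2 _ _ _ _ k2 f3
    omega
  obtain ⟨A4, hA4, s4, w4, f4⟩ := gap_pick F t H B1 (((A1 ∩ B1) ∪ (B1 ∩ A2)) ∪ (B1 ∩ A3))
    ((A1 ∩ A2) ∩ A3) g
    (Finset.union_subset (Finset.union_subset Finset.inter_subset_right Finset.inter_subset_left)
      Finset.inter_subset_left)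
    (by omega) (by omega) (by omega)
  replace f4 := far B1 hB1 A4 hA4 f4
  have n4 := close A4 hA4
    (fun z hz => s4 z (Finset.mem_union_left _ (Finset.mem_union_left _ hz))) f4
  -- `B2`
  have k4 : (((B1 ∩ A2) ∪ (B1 ∩ A3)) ∪ (B1 ∩ A4)).card ≤ 3 * c := by
    have := card_un2 _ _ _ _ (card_un2 _ _ _ _ f2 f3) f4
    omega
  obtain ⟨B2, hB2, s5, w5, f5⟩ := gap_pick F t H A1 (A1 ∩ B1)
    (((B1 ∩ A2) ∪ (B1 ∩ A3)) ∪ (B1 ∩ A4)) g Finset.inter_subset_left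
    (by omega) (by omega) (by omega)
  replace f5 := far A1 hA1 B2 hB2 f5
  have g1 : ∀ D ∈ F, d ≤ (A1 ∩ D).card → (D ∩ B2).card ≤ c := by
    intro D hD h
    rcases hd D hD B2 hB2 with h' | h'
    · exact h'
    · have := gap_trans A1 D B2 k d (hk D hD) h h'
      omega
  have f6 := g1 A2 hA2 n2
  have f7 := g1 A3 hA3 n3
  have f8 := g1 A4 hA4 n4
  -- `B3`
  have k5 : ((A1 ∩ B1) ∪ (A1 ∩ B2)).card ≤ 2 * c := by
    have := card_un2 _ _ _ _ hc.le f5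
    omega
  have k6 : ((((B1 ∩ A2) ∪ (B1 ∩ A3)) ∪ (B1 ∩ A4)) ∪
      (((A2 ∩ B2) ∪ (A3 ∩ B2)) ∪ (A4 ∩ B2))).card ≤ 6 * c := by
    have := card_un2 _ _ _ _ k4 (card_un2 _ _ _ _ (card_un2 _ _ _ _ f6 f7) f8)
    omega
  obtain ⟨B3, hB3, s6, w6, -⟩ := gap_pick F t H A1 ((A1 ∩ B1) ∪ (A1 ∩ B2))
    ((((B1 ∩ A2) ∪ (B1 ∩ A3)) ∪ (B1 ∩ A4)) ∪ (((A2 ∩ B2) ∪ (A3 ∩ B2)) ∪ (A4 ∩ B2))) g
    (Finset.union_subset Finset.inter_subset_left Finset.inter_subset_left)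
    (by omega) (by omega) (by omega)
  clear k2 k3 k4 k5 k6 i1 i2 i3 i4 i5 i6 far close g1
  -- the cover
  obtain ⟨x, y, hxy⟩ := hF {A1, A2, A3, A4, B1, B2, B3} (by
    intro z hz
    simp only [Finset.coe_insert, Finset.coe_singleton, Set.mem_insert_iff,
      Set.mem_singleton_iff] at hz
    rcases hz with rfl | rfl | rfl | rfl | rfl | rfl | rfl <;> assumption)
    (gap_card7 _ _ _ _ _ _ _)
  have e4 : ∀ z, ¬ (z ∈ A1 ∧ z ∈ A2 ∧ z ∈ A3 ∧ z ∈ A4) := by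
    rintro z ⟨h1, h2, h3, h4⟩
    exact w4 z (by simp [h1, h2, h3]) h4
  have e12 : ∀ z, (z ∈ A1 ∨ z ∈ A2 ∨ z ∈ A3 ∨ z ∈ A4) → z ∈ B1 → z ∉ B2 := by
    rintro z (h | h | h | h) hb
    · exact s5 z (by simp [h, hb])
    · exact w5 z (by simp [h, hb])
    · exact w5 z (by simp [h, hb])
    · exact w5 z (by simp [h, hb])
  have e13 : ∀ z, (z ∈ A1 ∨ z ∈ A2 ∨ z ∈ A3 ∨ z ∈ A4) → z ∈ B1 → z ∉ B3 := by
    rintro z (h | h | h | h) hb
    · exact s6 z (by simp [h, hb])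
    · exact w6 z (by simp [h, hb])
    · exact w6 z (by simp [h, hb])
    · exact w6 z (by simp [h, hb])
  have e23 : ∀ z, (z ∈ A1 ∨ z ∈ A2 ∨ z ∈ A3 ∨ z ∈ A4) → z ∈ B2 → z ∉ B3 := by
    rintro z (h | h | h | h) hb
    · exact s6 z (by simp [h, hb])
    · exact w6 z (by simp [h, hb])
    · exact w6 z (by simp [h, hb])
    · exact w6 z (by simp [h, hb])
  have c1 := hxy A1 (by simp)
  have c2 := hxy A2 (by simp)
  have c3 := hxy A3 (by simp)
  have c4 := hxy A4 (by simp)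
  have c5 := hxy B1 (by simp)
  have c6 := hxy B2 (by simp)
  have c7 := hxy B3 (by simp)
  have hx : x ∈ A1 ∨ x ∈ A2 ∨ x ∈ A3 ∨ x ∈ A4 := by
    by_contra h
    push Not at h
    exact e4 y ⟨c1.resolve_left h.1, c2.resolve_left h.2.1, c3.resolve_left h.2.2.1,
      c4.resolve_left h.2.2.2⟩
  have hy : y ∈ A1 ∨ y ∈ A2 ∨ y ∈ A3 ∨ y ∈ A4 := by
    by_contra h
    push Not at h
    exact e4 x ⟨c1.resolve_right h.1, c2.resolve_right h.2.1, c3.resolve_right h.2.2.1,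
      c4.resolve_right h.2.2.2⟩
  exact gap_logic _ _ _ _ _ _ (e12 x hx) (e13 x hx) (e23 x hx) (e12 y hy) (e13 y hy) (e23 y hy)
    c5 c6 c7

end Pool.Agent.TX17
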