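import Pool.Agent.TX17.GapC
import Pool.Agent.TX17.GapCl

set_option autoImplicit false

/-!
# Families whose intersection sizes have a gap
-/

namespace Pool.Agent.TX17

open Pool.Agent.TV17 Pool.Agent.TW17

section

variable (F : Set (Finset ℕ)) (hF : SevenTwoCoverable F) (k t : ℕ)
  (hk : ∀ A ∈ F, A.card = k) (H : Missed F t) (htk : t ≤ k)

include hk H htk in
/-- the third member, both of its intersections are small -/
lemma thirdG (A B : Finset ℕ) (hA : A ∈ F) (hB : B ∈ F) (c : ℕ) (hc : (A ∩ B).card = c)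
    (hct : c ≤ t) :
    ∃ A' ∈ F, ∃ B' ∈ F, ∃ C ∈ F, A' ∩ B' ∩ C = ∅ ∧ (A' ∩ B').card = c ∧
      (B' ∩ C).card ≤ (A' ∩ C).card ∧ 2 * (A' ∩ C).card + c + t ≤ 2 * k + 1 := by
  obtain ⟨C, hC, e, h1, h2⟩ := step F k t hk H htk c A B hA hB hc hct ((t - c) / 2)
    ((t - c) / 2) (by omega)
  rcases le_total (B ∩ C).card (A ∩ C).card with h | h
  · exact ⟨A, hA, B, hB, C, hC, e, hc, h, by omega⟩
  · exact ⟨B, hB, A, hA, C, hC, by rw [Finset.inter_comm B A]; exact e,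
      by rw [Finset.inter_comm]; exact hc, h, by omega⟩

include hF hk H htk in
theorem impossibleG (ht : 3 * k ≤ 4 * t) (c d : ℕ) (hc : ∃ A ∈ F, ∃ B ∈ F, (A ∩ B).card = c)
    (hct : 2 * c ≤ t) (hd : ∀ A ∈ F, ∀ B ∈ F, (A ∩ B).card ≤ c ∨ d ≤ (A ∩ B).card)
    (h1 : c + k + 1 ≤ t + d) (h2 : 2 * k + 2 ≤ 2 * d + c + t) : False := by
  obtain ⟨A, hA, B, hB, hAB⟩ := hc
  obtain ⟨A', hA', B', hB', C, hC, e, hc', hba, h3⟩ := thirdG F k t hk H htk A B hA hB c hAB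
    (by omega)
  have hac : (A' ∩ C).card ≤ c := by
    rcases hd A' hA' C hC with h | h
    · exact h
    · omega
  have hcap : ∀ X ∈ F, ∀ Y ∈ F, (X ∩ Y).card ≤ c ∨ c + k + 1 ≤ t + (X ∩ Y).card := by
    intro X hX Y hY
    rcases hd X hX Y hY with h | h
    · exact Or.inl h
    · exact Or.inr (by omega)
  rcases le_total ((A' ∩ C).card + (B' ∩ C).card + c) t with h | h
  · exact Gloc0 F hF k t hk H htk ht A' B' C hA' hB' hC e c _ _ hc' rfl rfl hcap hct hac hba h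
  · exact Ghic0 F hF k t hk H htk ht A' B' C hA' hB' hC e c _ _ hc' rfl rfl hcap hct hac hba h

end

/-- sets of size greater than `k` cannot all be missed -/
lemma missed_gt (F : Set (Finset ℕ)) (hF : SevenTwoCoverable F) (k t : ℕ)
    (hk : ∀ A ∈ F, A.card = k) (H : Missed F t) (hkt : k < t) : False := by
  obtain ⟨A0, hA0, -⟩ := H ∅ (by simp)
  have H' : Missed F k := fun T hT => H T (by omega)
  obtain ⟨B, hB, mB⟩ := H' A0 (hk A0 hA0).le
  have hAB : (A0 ∩ B).card = 0 := by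
    rw [Finset.card_eq_zero, Finset.eq_empty_iff_forall_notMem]
    intro z hz
    rw [Finset.mem_inter] at hz
    exact mB z hz.1 hz.2
  obtain ⟨C, hC, hABC, h3, h4⟩ := step F k k hk H' le_rfl 0 A0 B hA0 hB hAB (Nat.zero_le _)
    (k / 2) (k - k / 2) (by omega)
  exact win1 F hF k t hk H A0 B C hA0 hB hC hABC 0 (A0 ∩ C).card (B ∩ C).card hAB rfl rfl
    (by omega) (by omega) (by omega) (by omega) (by omega) (by omega) (by omega) (by omega)

/-- Let `F` be 7-wise 2-coverable, all members of size `k`. If two members meet in exactly `c`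
elements and no two members meet in more than `c` and fewer than `d` elements, then `F` has a
transversal of size at most `t` for all `t` with `4 t ≥ 3 k`, `t ≥ 2 c`, `t > k + c - d` and
`t > 2 k + 1 - c - 2 d`. -/
theorem gap_bound (k t c d : ℕ) (F : Set (Finset ℕ)) (hk : ∀ A ∈ F, A.card = k)
    (hF : SevenTwoCoverable F) (hc : ∃ A ∈ F, ∃ B ∈ F, (A ∩ B).card = c)
    (hd : ∀ A ∈ F, ∀ B ∈ F, (A ∩ B).card ≤ c ∨ d ≤ (A ∩ B).card)
    (ht : 3 * k ≤ 4 * t) (hct : 2 * c ≤ t) (h1 : c + k + 1 ≤ t + d)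
    (h2 : 2 * k + 2 ≤ 2 * d + c + t) :
    ∃ T : Finset ℕ, T.card ≤ t ∧ ∀ A ∈ F, ∃ x ∈ T, x ∈ A := by
  classical
  by_contra hcon
  push Not at hcon
  have H : Missed F t := by
    intro T hT
    obtain ⟨A, hA, h⟩ := hcon T hT
    exact ⟨A, hA, fun z hz => h z hz⟩
  rcases Nat.lt_or_ge k t with hkt | hkt
  · exact missed_gt F hF k t hk H hkt
  · exact impossibleG F hF k t hk H hkt ht c d hc hct hd h1 h2

/-- no triple with empty intersection whose three pairs are at most `c` -/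
lemma no_triple (F : Set (Finset ℕ)) (hF : SevenTwoCoverable F) (k t : ℕ)
    (hk : ∀ A ∈ F, A.card = k) (H : Missed F t) (htk : t ≤ k) (ht : 3 * k ≤ 4 * t) (c d : ℕ)
    (hct : 2 * c ≤ t) (hd : ∀ A ∈ F, ∀ B ∈ F, (A ∩ B).card ≤ c ∨ d ≤ (A ∩ B).card)
    (h1 : c + k + 1 ≤ t + d) :
    ∀ A ∈ F, ∀ B ∈ F, ∀ C ∈ F, A ∩ B ∩ C = ∅ → (A ∩ B).card = c → (A ∩ C).card ≤ c →
      (B ∩ C).card ≤ c → False := by
  have hcap : ∀ X ∈ F, ∀ Y ∈ F, (X ∩ Y).card ≤ c ∨ c + k + 1 ≤ t + (X ∩ Y).card := by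
    intro X hX Y hY
    rcases hd X hX Y hY with h | h
    · exact Or.inl h
    · exact Or.inr (by omega)
  have key : ∀ A ∈ F, ∀ B ∈ F, ∀ C ∈ F, A ∩ B ∩ C = ∅ → (A ∩ B).card = c → (A ∩ C).card ≤ c →
      (B ∩ C).card ≤ (A ∩ C).card → False := by
    intro A hA B hB C hC e hc ha hb
    rcases le_total ((A ∩ C).card + (B ∩ C).card + c) t with h | h
    · exact Gloc0 F hF k t hk H htk ht A B C hA hB hC e c _ _ hc rfl rfl hcap hct ha hb h
    · exact Ghic0 F hF k t hk H htk ht A B C hA hB hC e c _ _ hc rfl rfl hcap hct ha hb h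
  intro A hA B hB C hC e hc ha hb
  rcases le_total (B ∩ C).card (A ∩ C).card with h | h
  · exact key A hA B hB C hC e hc ha h
  · exact key B hB A hA C hC (by rw [Finset.inter_comm B A]; exact e)
      (by rw [Finset.inter_comm]; exact hc) hb h

/-- If no two members of `F` meet in more than `x` and fewer than `d` elements, where
`x ≤ 3 k / 8`, `d > x + k / 4` and `d ≥ (31 k + 24) / 52` or `d > 5 k / 8`, then `F` has a
transversal of size at most `(3 k + 7) / 4`. -/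
theorem gap_bound2 (k x d : ℕ) (F : Set (Finset ℕ)) (hk : ∀ A ∈ F, A.card = k)
    (hF : SevenTwoCoverable F)
    (hd : ∀ A ∈ F, ∀ B ∈ F, (A ∩ B).card ≤ x ∨ d ≤ (A ∩ B).card)
    (h1 : 8 * x ≤ 3 * k) (h2 : 4 * x + k < 4 * d)
    (h3 : 31 * k + 24 ≤ 52 * d ∨ 5 * k < 8 * d) :
    ∃ T : Finset ℕ, 4 * T.card ≤ 3 * k + 7 ∧ ∀ A ∈ F, ∃ x ∈ T, x ∈ A := by
  classical
  by_contra hcon
  push Not at hcon
  have H : Missed F ((3 * k + 7) / 4) := by
    intro T hT
    obtain ⟨A, hA, h⟩ := hcon T (by omega)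
    exact ⟨A, hA, fun z hz => h z hz⟩
  obtain ⟨A0, hA0, -⟩ := H ∅ (by simp)
  have cA0 := hk A0 hA0
  rcases Nat.lt_or_ge k ((3 * k + 7) / 4) with hkt | hkt
  · exact missed_gt F hF k _ hk H hkt
  obtain ⟨T0, hT0, hT0c⟩ := Finset.exists_subset_card_eq (s := A0)
    (n := (3 * k + 7) / 4) (by omega)
  obtain ⟨B0, hB0, mB0⟩ := H T0 hT0c.le
  have h0 := inter_card_le A0 B0 T0 hT0 mB0
  have hx0 : (A0 ∩ B0).card ≤ x := by
    rcases hd A0 hA0 B0 hB0 with h | h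
    · exact h
    · omega
  obtain ⟨c, ⟨A, hA, B, hB, hc, hcx⟩, hcmax⟩ := exists_max
    (fun n => ∃ A ∈ F, ∃ B ∈ F, (A ∩ B).card = n ∧ n ≤ x) x (A0 ∩ B0).card
    ⟨A0, hA0, B0, hB0, rfl, hx0⟩ (by
      rintro n ⟨A, hA, B, hB, rfl, h⟩
      exact h)
  have hd' : ∀ A ∈ F, ∀ B ∈ F, (A ∩ B).card ≤ c ∨ d ≤ (A ∩ B).card := by
    intro X hX Y hY
    rcases hd X hX Y hY with h | h
    · exact Or.inl (hcmax _ ⟨X, hX, Y, hY, rfl, h⟩)
    · exact Or.inr h
  rcases Nat.lt_or_ge (2 * k + 1) (2 * d + c + (3 * k + 7) / 4) with h4 | h4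
  · exact impossibleG F hF k _ hk H hkt (by omega) c d ⟨A, hA, B, hB, hc⟩ (by omega) hd'
      (by omega) (by omega)
  · exact gap_cluster F hF k _ hk H hkt c d ⟨A, hA, B, hB, hc⟩ hd'
      (no_triple F hF k _ hk H hkt (by omega) c d (by omega) hd' (by omega)) h4 (by omega)
      (by omega) (by omega)

end Pool.Agent.TX17
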