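import Pool.Agent.TX17.Stat
import Pool.Agent.TX17.Cells

set_option autoImplicit false
set_option linter.all false

namespace Pool.Agent.TX17

open Pool.Agent.TV17 Pool.Agent.TW17

theorem GS76 (F : Set (Finset ℕ)) (hF : SevenTwoCoverable F) (t : ℕ) (H : Missed F t)
    (A B C D : Finset ℕ) (n0 n1 n2 n3 n4 n5 n6 n7 n8 n9 n10 n11 : ℕ)
    (cf : Cfg F A B C D ![n0, n1, n2, n3, n4, n5, n6, n7, n8, n9, n10, n11])
    (z1 : n1 = 0) (z3 : n3 = 0) (z5 : n5 = 0)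
    (q1 : n2 + n4 + n7 ≤ t)
    (q2 : n2 ≤ t)
    (q3 : 2 * n2 + n4 + n7 + n9 ≤ 2 * t)
    (q4 : n0 + n11 ≤ t)
    (q5 : n0 + n2 + n4 + n7 + n11 ≤ 2 * t)
    (q6 : n0 + n2 + n11 ≤ 2 * t)
    (q7 : n0 + 2 * n2 + n4 + n7 + n9 + n11 ≤ 3 * t)
    : False := by
  refine comp12 F hF t H A B C D _ cf
    ![some ({2}, ∅), none, some ({0, 1}, ∅), none, some ({0}, ∅), none, some (∅, ∅), some ({0}, ∅), some (∅, ∅), some (∅, {0, 1}), some (∅, ∅), some ({2}, ∅)]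
    ![0, 1, 0, 1, 0, 1, 0, 0, 0, 0, 0, 0]
    ![![0, 0, 1, 0, 1, 0, 0, 1, 0, 0, 0, 0],
      ![0, 0, 1, 0, 0, 0, 0, 0, 0, 0, 0, 0],
      ![1, 0, 0, 0, 0, 0, 0, 0, 0, 0, 0, 1],
      ![0, 0, 2, 0, 1, 0, 0, 1, 0, 1, 0, 0],
      ![1, 0, 1, 0, 1, 0, 0, 1, 0, 0, 0, 1],
      ![1, 0, 1, 0, 0, 0, 0, 0, 0, 0, 0, 1],
      ![1, 0, 2, 0, 1, 0, 0, 1, 0, 1, 0, 1]]
    (by decide +kernel) ?_ ?_ ?_ ?_ ?_ ?_ ?_ ?_
  all_goals
    simp only [lin12, Matrix.cons_val]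
    linarith

theorem GS79 (F : Set (Finset ℕ)) (hF : SevenTwoCoverable F) (t : ℕ) (H : Missed F t)
    (A B C D : Finset ℕ) (n0 n1 n2 n3 n4 n5 n6 n7 n8 n9 n10 n11 : ℕ)
    (cf : Cfg F A B C D ![n0, n1, n2, n3, n4, n5, n6, n7, n8, n9, n10, n11])
    (z1 : n1 = 0) (z3 : n3 = 0) (z5 : n5 = 0)
    (q1 : n2 + n4 + n9 ≤ t)
    (q2 : n4 ≤ t)
    (q3 : n2 + 2 * n4 + n7 + n9 ≤ 2 * t)
    (q4 : n0 + n11 ≤ t)
    (q5 : n0 + n2 + n4 + n9 + n11 ≤ 2 * t)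
    (q6 : n0 + n4 + n11 ≤ 2 * t)
    (q7 : n0 + n2 + 2 * n4 + n7 + n9 + n11 ≤ 3 * t)
    : False := by
  refine comp12 F hF t H A B C D _ cf
    ![some ({2}, ∅), none, some ({0}, ∅), none, some ({0, 1}, ∅), none, some (∅, ∅), some (∅, {0, 1}), some (∅, ∅), some ({0}, ∅), some (∅, ∅), some ({2}, ∅)]
    ![0, 1, 0, 1, 0, 1, 0, 0, 0, 0, 0, 0]
    ![![0, 0, 1, 0, 1, 0, 0, 0, 0, 1, 0, 0],
      ![0, 0, 0, 0, 1, 0, 0, 0, 0, 0, 0, 0],
      ![1, 0, 0, 0, 0, 0, 0, 0, 0, 0, 0, 1],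
      ![0, 0, 1, 0, 2, 0, 0, 1, 0, 1, 0, 0],
      ![1, 0, 1, 0, 1, 0, 0, 0, 0, 1, 0, 1],
      ![1, 0, 0, 0, 1, 0, 0, 0, 0, 0, 0, 1],
      ![1, 0, 1, 0, 2, 0, 0, 1, 0, 1, 0, 1]]
    (by decide +kernel) ?_ ?_ ?_ ?_ ?_ ?_ ?_ ?_
  all_goals
    simp only [lin12, Matrix.cons_val]
    linarith

theorem GS83 (F : Set (Finset ℕ)) (hF : SevenTwoCoverable F) (t : ℕ) (H : Missed F t)
    (A B C D : Finset ℕ) (n0 n1 n2 n3 n4 n5 n6 n7 n8 n9 n10 n11 : ℕ)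
    (cf : Cfg F A B C D ![n0, n1, n2, n3, n4, n5, n6, n7, n8, n9, n10, n11])
    (z1 : n1 = 0) (z3 : n3 = 0)
    (q1 : n4 + n5 + n7 ≤ t)
    (q2 : n2 + n5 + n9 ≤ t)
    (q3 : n2 + n4 + 2 * n5 + n7 + n9 ≤ 2 * t)
    (q4 : n0 + n5 + n11 ≤ t)
    (q5 : n0 + n4 + 2 * n5 + n7 + n11 ≤ 2 * t)
    (q6 : n0 + n2 + 2 * n5 + n9 + n11 ≤ 2 * t)
    (q7 : n0 + n2 + n4 + 3 * n5 + n6 + n7 + n9 + n11 ≤ 3 * t)
    : False := by
  refine comp12 F hF t H A B C D _ cf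
    ![some ({2}, ∅), none, some ({1}, ∅), none, some ({0}, ∅), some ({0, 1, 2}, ∅), some (∅, {0, 1, 2}), some ({0}, ∅), some (∅, ∅), some ({1}, ∅), some (∅, ∅), some ({2}, ∅)]
    ![0, 1, 0, 1, 0, 0, 0, 0, 0, 0, 0, 0]
    ![![0, 0, 0, 0, 1, 1, 0, 1, 0, 0, 0, 0],
      ![0, 0, 1, 0, 0, 1, 0, 0, 0, 1, 0, 0],
      ![1, 0, 0, 0, 0, 1, 0, 0, 0, 0, 0, 1],
      ![0, 0, 1, 0, 1, 2, 0, 1, 0, 1, 0, 0],
      ![1, 0, 0, 0, 1, 2, 0, 1, 0, 0, 0, 1],
      ![1, 0, 1, 0, 0, 2, 0, 0, 0, 1, 0, 1],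
      ![1, 0, 1, 0, 1, 3, 1, 1, 0, 1, 0, 1]]
    (by decide +kernel) ?_ ?_ ?_ ?_ ?_ ?_ ?_ ?_
  all_goals
    simp only [lin12, Matrix.cons_val]
    linarith

theorem GS104 (F : Set (Finset ℕ)) (hF : SevenTwoCoverable F) (t : ℕ) (H : Missed F t)
    (A B C D : Finset ℕ) (n0 n1 n2 n3 n4 n5 n6 n7 n8 n9 n10 n11 : ℕ)
    (cf : Cfg F A B C D ![n0, n1, n2, n3, n4, n5, n6, n7, n8, n9, n10, n11])
    (z1 : n1 = 0) (z3 : n3 = 0) (z5 : n5 = 0)
    (q1 : n4 + n11 ≤ t)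
    (q2 : n4 ≤ t)
    (q3 : 2 * n4 + n7 + n11 ≤ 2 * t)
    (q4 : n2 + n9 + n11 ≤ t)
    (q5 : n0 + n2 + n4 + n9 + 2 * n11 ≤ 2 * t)
    (q6 : n2 + n4 + n9 + n11 ≤ 2 * t)
    (q7 : n0 + n2 + 2 * n4 + n7 + n9 + 2 * n11 ≤ 3 * t)
    : False := by
  refine comp12 F hF t H A B C D _ cf
    ![some (∅, {0, 2}), none, some ({2}, ∅), none, some ({0, 1}, ∅), none, some (∅, ∅), some (∅, {0, 1}), some (∅, ∅), some ({2}, ∅), some (∅, ∅), some ({0, 2}, ∅)]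
    ![0, 1, 0, 1, 0, 1, 0, 0, 0, 0, 0, 0]
    ![![0, 0, 0, 0, 1, 0, 0, 0, 0, 0, 0, 1],
      ![0, 0, 0, 0, 1, 0, 0, 0, 0, 0, 0, 0],
      ![0, 0, 1, 0, 0, 0, 0, 0, 0, 1, 0, 1],
      ![0, 0, 0, 0, 2, 0, 0, 1, 0, 0, 0, 1],
      ![1, 0, 1, 0, 1, 0, 0, 0, 0, 1, 0, 2],
      ![0, 0, 1, 0, 1, 0, 0, 0, 0, 1, 0, 1],
      ![1, 0, 1, 0, 2, 0, 0, 1, 0, 1, 0, 2]]
    (by decide +kernel) ?_ ?_ ?_ ?_ ?_ ?_ ?_ ?_
  all_goals
    simp only [lin12, Matrix.cons_val]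
    linarith

theorem GS425 (F : Set (Finset ℕ)) (hF : SevenTwoCoverable F) (t : ℕ) (H : Missed F t)
    (A B C D : Finset ℕ) (n0 n1 n2 n3 n4 n5 n6 n7 n8 n9 n10 n11 : ℕ)
    (cf : Cfg F A B C D ![n0, n1, n2, n3, n4, n5, n6, n7, n8, n9, n10, n11])
    (z1 : n1 = 0) (z3 : n3 = 0) (z5 : n5 = 0)
    (q1 : n2 + n4 ≤ t)
    (q2 : n0 + n4 + n11 ≤ t)
    (q3 : n0 + n2 + 2 * n4 + n7 + n11 ≤ 2 * t)
    (q4 : n2 ≤ t)
    (q5 : 2 * n2 + n4 + n9 ≤ 2 * t)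
    (q6 : n0 + n2 + n4 + n11 ≤ 2 * t)
    (q7 : n0 + 2 * n2 + 2 * n4 + n7 + n9 + n11 ≤ 3 * t)
    : False := by
  refine comp12 F hF t H A B C D _ cf
    ![some ({1}, ∅), none, some ({0, 2}, ∅), none, some ({0, 1}, ∅), none, some (∅, ∅), some (∅, {0, 1}), some (∅, ∅), some (∅, {0, 2}), some (∅, ∅), some ({1}, ∅)]
    ![0, 1, 0, 1, 0, 1, 0, 0, 0, 0, 0, 0]
    ![![0, 0, 1, 0, 1, 0, 0, 0, 0, 0, 0, 0],
      ![1, 0, 0, 0, 1, 0, 0, 0, 0, 0, 0, 1],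
      ![0, 0, 1, 0, 0, 0, 0, 0, 0, 0, 0, 0],
      ![1, 0, 1, 0, 2, 0, 0, 1, 0, 0, 0, 1],
      ![0, 0, 2, 0, 1, 0, 0, 0, 0, 1, 0, 0],
      ![1, 0, 1, 0, 1, 0, 0, 0, 0, 0, 0, 1],
      ![1, 0, 2, 0, 2, 0, 0, 1, 0, 1, 0, 1]]
    (by decide +kernel) ?_ ?_ ?_ ?_ ?_ ?_ ?_ ?_
  all_goals
    simp only [lin12, Matrix.cons_val]
    linarith

theorem Gloc0 (F : Set (Finset ℕ)) (hF : SevenTwoCoverable F) (k t : ℕ)
    (hk : ∀ A ∈ F, A.card = k) (H : Missed F t) (htk : t ≤ k) (ht : 3 * k ≤ 4 * t)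
    (A B C : Finset ℕ) (hA : A ∈ F) (hB : B ∈ F) (hC : C ∈ F) (e : A ∩ B ∩ C = ∅)
    (c a b : ℕ) (hc : (A ∩ B).card = c) (ha : (A ∩ C).card = a) (hb : (B ∩ C).card = b)
    (hcap : ∀ X ∈ F, ∀ Y ∈ F, (X ∩ Y).card ≤ c ∨ c + k + 1 ≤ t + (X ∩ Y).card)
    (d0 : 2 * c ≤ t)
    (d1 : a ≤ c)
    (d2 : b ≤ a)
    (d3 : a + b + c ≤ t)
    : False := by
  obtain ⟨R, hR⟩ : ∃ R : ℕ, R + (c + a + b) = t := ⟨t - (c + a + b), by omega⟩
  obtain ⟨D, n0, n1, n2, n3, n4, n5, n6, n7, n8, n9, n10, n11, cf, e1, e2, e3, e4, e5, e6, f1, f2, f3,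
    f4, f5, f6, f7, gA, gB, gC⟩ := respond F k t hk H A B C hA hB hC e c a b hc ha hb
    c a b 0 0 R
    (le_refl _)
    (le_refl _)
    (le_refl _)
    (by linarith only [htk, d3])
    (by linarith only [htk, d0, d2, d3])
    (by linarith only [htk, hR])
    (by linarith only [hR])
  rcases hcap A hA D cf.hD with w1 | w1
  · rw [gA] at w1
    rcases hcap B hB D cf.hD with w2 | w2
    · rw [gB] at w2
      rcases hcap C hC D cf.hD with w3 | w3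
      · rw [gC] at w3
        exact GS76 F hF t H A B C D n0 n1 n2 n3 n4 n5 n6 n7 n8 n9 n10 n11 cf
          (Nat.le_zero.1 (by linarith only [f1]))
          (Nat.le_zero.1 (by linarith only [f2]))
          (Nat.le_zero.1 (by linarith only [f3]))
          (by linarith only [d3, e2, e3, w1])
          (by linarith only [d1, d3, e2])
          (by linarith only [ht, d1, d3, e2, e3, e4, f7, w1, w2])
          (by linarith only [d0, e1, w3])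
          (by linarith only [d0, d3, e1, e2, e3, w1, w3])
          (by linarith only [ht, d0, e1, e2, e6])
          (by linarith only [ht, d1, d3, e1, e2, e3, f7])
      · rw [gC] at w3
        linarith only [hR, f2, f3, f6, w3]
    · rw [gB] at w2
      by_cases u4 : 2 * n2 + n4 + n7 + n9 ≤ 2 * t
      swap
      · exact GS425 F hF t H A B C D n0 n1 n2 n3 n4 n5 n6 n7 n8 n9 n10 n11 cf
          (Nat.le_zero.1 (by linarith only [f1]))
          (Nat.le_zero.1 (by linarith only [f2]))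
          (Nat.le_zero.1 (by linarith only [f3]))
          (by linarith only [d3, e2, e3])
          (by linarith only [ht, d1, d2, d3, e1, e2, e3, f7, u4])
          (by linarith only [d1, d2, d3, e1, e2, e3, f7, w2])
          (by linarith only [d1, d3, e2])
          (by linarith only [ht, d1, d3, e2, e3, e5])
          (by linarith only [ht, d0, e1, e2, e3, e6])
          (by linarith only [ht, d1, d2, d3, e1, e2, e3, f7])
      exact GS76 F hF t H A B C D n0 n1 n2 n3 n4 n5 n6 n7 n8 n9 n10 n11 cf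
        (Nat.le_zero.1 (by linarith only [f1]))
        (Nat.le_zero.1 (by linarith only [f2]))
        (Nat.le_zero.1 (by linarith only [f3]))
        (by linarith only [d3, e2, e3, w1])
        (by linarith only [u4])
        (by linarith only [u4])
        (by linarith only [e1, f7, w2])
        (by linarith only [e1, e3, e6, f7, w2, u4])
        (by linarith only [e1, f7, w2, u4])
        (by linarith only [e1, f7, w2, u4])
  · rw [gA] at w1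
    by_cases u5 : n0 + n2 + n4 + n9 + 2 * n11 ≤ 2 * t
    swap
    · exact GS79 F hF t H A B C D n0 n1 n2 n3 n4 n5 n6 n7 n8 n9 n10 n11 cf
        (Nat.le_zero.1 (by linarith only [f1]))
        (Nat.le_zero.1 (by linarith only [f2]))
        (Nat.le_zero.1 (by linarith only [f3]))
        (by linarith only [d1, d2, d3, e1, e2, e3, f7, w1, u5])
        (by linarith only [d2, d3, e3])
        (by linarith only [ht, d1, d2, d3, e1, e2, e3, f7, w1, u5])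
        (by linarith only [e1, f7, w1])
        (by linarith only [ht, d1, d3, e1, e2, e3, e5, e6, f7, w1])
        (by linarith only [ht, d0, e1, e3, e6])
        (by linarith only [ht, d2, d3, e1, e2, e3, f7])
    by_cases u6 : n0 + n2 + 2 * n4 + n7 + n9 + 2 * n11 ≤ 3 * t
    swap
    · exact GS79 F hF t H A B C D n0 n1 n2 n3 n4 n5 n6 n7 n8 n9 n10 n11 cf
        (Nat.le_zero.1 (by linarith only [f1]))
        (Nat.le_zero.1 (by linarith only [f2]))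
        (Nat.le_zero.1 (by linarith only [f3]))
        (by linarith only [ht, d1, d2, d3, e1, e2, e3, f7, w1, u6])
        (by linarith only [d2, d3, e3, u5])
        (by linarith only [ht, d1, d2, d3, e1, e2, e3, f7, u6])
        (by linarith only [e1, f7, w1])
        (by linarith only [u5])
        (by linarith only [u5])
        (by linarith only [ht, d1, d2, e1, e2, e3, e4, f7, u5])
    exact GS104 F hF t H A B C D n0 n1 n2 n3 n4 n5 n6 n7 n8 n9 n10 n11 cf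
      (Nat.le_zero.1 (by linarith only [f1]))
      (Nat.le_zero.1 (by linarith only [f2]))
      (Nat.le_zero.1 (by linarith only [f3]))
      (by linarith only [d2, e2, e3, f2, u5])
      (by linarith only [d2, d3, e3, u6])
      (by linarith only [ht, d1, d2, e1, e2, e3, e4, f7, u6])
      (by linarith only [d1, e2, f7, w1])
      (by linarith only [u5])
      (by linarith only [u5])
      (by linarith only [u6])

theorem Ghic0 (F : Set (Finset ℕ)) (hF : SevenTwoCoverable F) (k t : ℕ)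
    (hk : ∀ A ∈ F, A.card = k) (H : Missed F t) (htk : t ≤ k) (ht : 3 * k ≤ 4 * t)
    (A B C : Finset ℕ) (hA : A ∈ F) (hB : B ∈ F) (hC : C ∈ F) (e : A ∩ B ∩ C = ∅)
    (c a b : ℕ) (hc : (A ∩ B).card = c) (ha : (A ∩ C).card = a) (hb : (B ∩ C).card = b)
    (hcap : ∀ X ∈ F, ∀ Y ∈ F, (X ∩ Y).card ≤ c ∨ c + k + 1 ≤ t + (X ∩ Y).card)
    (d0 : 2 * c ≤ t)
    (d1 : a ≤ c)
    (d2 : b ≤ a)
    (d3 : t ≤ a + b + c)
    : False := by
  obtain ⟨R, hR⟩ : ∃ R : ℕ, R + (c + a) = t := ⟨t - (c + a), by omega⟩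
  obtain ⟨D, n0, n1, n2, n3, n4, n5, n6, n7, n8, n9, n10, n11, cf, e1, e2, e3, e4, e5, e6, f1, f2, f3,
    f4, f5, f6, f7, gA, gB, gC⟩ := respond F k t hk H A B C hA hB hC e c a b hc ha hb
    c a R 0 0 0
    (le_refl _)
    (le_refl _)
    (by linarith only [d3, hR])
    (by linarith only [htk, hR])
    (by linarith only [htk, d2, hR])
    (by linarith only [htk, d1, d2, hR])
    (by linarith only [hR])
  rcases hcap C hC D cf.hD with w1 | w1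
  · rw [gC] at w1
    rcases hcap B hB D cf.hD with w2 | w2
    · rw [gB] at w2
      exact GS83 F hF t H A B C D n0 n1 n2 n3 n4 n5 n6 n7 n8 n9 n10 n11 cf
        (Nat.le_zero.1 (by linarith only [f1]))
        (Nat.le_zero.1 (by linarith only [f2]))
        (by linarith only [ht, d1, d2, d3, e3, e4])
        (by linarith only [hR, e2, w2])
        (by linarith only [ht, d2, e2, e3, e4, e6, w2])
        (by linarith only [d0, e1, w1])
        (by linarith only [ht, d0, d2, e1, e3, e4, e5, f7, w1])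
        (by linarith only [d0, hR, e1, e2, w1, w2])
        (by linarith only [ht, d0, d2, e1, e2, e3, e4, e6, w1, w2])
    · rw [gB] at w2
      linarith only [d1, hR, e5, f1, f3, w2]
  · rw [gC] at w1
    linarith only [hR, e6, f2, f3, w1]

end Pool.Agent.TX17
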