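import Pool.Agent.TX17.Stage

set_option autoImplicit false

/-!
# What the proven boxes say about an empty triple
-/

namespace Pool.Agent.TX17

open Pool.Agent.TV17 Pool.Agent.TW17

section

variable {F : Set (Finset ℕ)} {k p1 p2 p3 : ℕ}

lemma inf1 (nb : NB F k p1 p2 p3) {X Y D : Finset ℕ} (hX : X ∈ F) (hY : Y ∈ F) (hD : D ∈ F)
    (e : X ∩ Y ∩ D = ∅) {s x y : ℕ} (hs : (X ∩ Y).card = s) (hx : (X ∩ D).card = x)
    (hy : (Y ∩ D).card = y) (h : 1000 * s ≤ p3 * k) :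
    p1 * k < 1000 * x ∨ p1 * k < 1000 * y ∨ (p2 * k < 1000 * x ∧ p2 * k < 1000 * y) := by
  by_contra hcon
  push Not at hcon
  obtain ⟨h1, h2, h3⟩ := hcon
  rcases Nat.lt_or_ge (p2 * k) (1000 * x) with h4 | h4
  · refine nb D hD X hX Y hY ?_ ?_ ?_ ?_
    · rw [← e]; ext z; simp only [Finset.mem_inter]; tauto
    · rw [Finset.inter_comm, hx]; exact h1
    · rw [Finset.inter_comm, hy]; exact h3 h4
    · rw [hs]; exact h
  · refine nb D hD Y hY X hX ?_ ?_ ?_ ?_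
    · rw [← e]; ext z; simp only [Finset.mem_inter]; tauto
    · rw [Finset.inter_comm, hy]; exact h2
    · rw [Finset.inter_comm, hx]; exact h4
    · rw [Finset.inter_comm, hs]; exact h

lemma inf2 (nb : NB F k p1 p2 p3) {X Y D : Finset ℕ} (hX : X ∈ F) (hY : Y ∈ F) (hD : D ∈ F)
    (e : X ∩ Y ∩ D = ∅) {s x y : ℕ} (hs : (X ∩ Y).card = s) (hx : (X ∩ D).card = x)
    (hy : (Y ∩ D).card = y) (h : 1000 * s ≤ p2 * k) :
    p1 * k < 1000 * x ∨ p1 * k < 1000 * y ∨ (p3 * k < 1000 * x ∧ p3 * k < 1000 * y) := by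
  by_contra hcon
  push Not at hcon
  obtain ⟨h1, h2, h3⟩ := hcon
  rcases Nat.lt_or_ge (p3 * k) (1000 * x) with h4 | h4
  · refine nb X hX D hD Y hY ?_ ?_ ?_ ?_
    · rw [← e]; ext z; simp only [Finset.mem_inter]; tauto
    · rw [hx]; exact h1
    · rw [hs]; exact h
    · rw [Finset.inter_comm, hy]; exact h3 h4
  · refine nb Y hY D hD X hX ?_ ?_ ?_ ?_
    · rw [← e]; ext z; simp only [Finset.mem_inter]; tauto
    · rw [hy]; exact h2
    · rw [Finset.inter_comm, hs]; exact h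
    · rw [Finset.inter_comm, hx]; exact h4

lemma inf3 (nb : NB F k p1 p2 p3) {X Y D : Finset ℕ} (hX : X ∈ F) (hY : Y ∈ F) (hD : D ∈ F)
    (e : X ∩ Y ∩ D = ∅) {s x y : ℕ} (hs : (X ∩ Y).card = s) (hx : (X ∩ D).card = x)
    (hy : (Y ∩ D).card = y) (h : 1000 * s ≤ p1 * k) :
    p2 * k < 1000 * x ∨ p2 * k < 1000 * y ∨ (p3 * k < 1000 * x ∧ p3 * k < 1000 * y) := by
  by_contra hcon
  push Not at hcon
  obtain ⟨h1, h2, h3⟩ := hcon
  rcases Nat.lt_or_ge (p3 * k) (1000 * x) with h4 | h4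
  · refine nb X hX Y hY D hD e ?_ ?_ ?_
    · rw [hs]; exact h
    · rw [hx]; exact h1
    · rw [hy]; exact h3 h4
  · refine nb Y hY X hX D hD ?_ ?_ ?_ ?_
    · rw [← e]; ext z; simp only [Finset.mem_inter]; tauto
    · rw [Finset.inter_comm, hs]; exact h
    · rw [hy]; exact h2
    · rw [hx]; exact h4

/-- the first induction hypothesis -/
def IHc (F : Set (Finset ℕ)) (k p2 p3 c : ℕ) : Prop :=
  ∀ X ∈ F, ∀ Y ∈ F, ∀ Z ∈ F, X ∩ Y ∩ Z = ∅ → (X ∩ Y).card < c → (X ∩ Z).card < c →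
    (Y ∩ Z).card < c → 1000 * (X ∩ Z).card ≤ p2 * k → 1000 * (Y ∩ Z).card ≤ p3 * k → False

/-- the second induction hypothesis -/
def IHa (F : Set (Finset ℕ)) (k p3 c a : ℕ) : Prop :=
  ∀ X ∈ F, ∀ Y ∈ F, ∀ Z ∈ F, X ∩ Y ∩ Z = ∅ → (X ∩ Y).card ≤ c → (X ∩ Z).card < a →
    (Y ∩ Z).card < a → 1000 * (Y ∩ Z).card ≤ p3 * k → False

/-- the pair `A, B` -/
lemma selfAB {c a : ℕ} (I2 : IHa F k p3 c a) {X Y D : Finset ℕ} (hX : X ∈ F) (hY : Y ∈ F)
    (hD : D ∈ F) (e : X ∩ Y ∩ D = ∅) (hs : (X ∩ Y).card = c) :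
    a ≤ (X ∩ D).card ∨ a ≤ (Y ∩ D).card ∨
      (p3 * k < 1000 * (X ∩ D).card ∧ p3 * k < 1000 * (Y ∩ D).card) := by
  by_contra hcon
  push Not at hcon
  obtain ⟨h1, h2, h3⟩ := hcon
  rcases Nat.lt_or_ge (p3 * k) (1000 * (X ∩ D).card) with h4 | h4
  · exact I2 X hX Y hY D hD e hs.le h1 h2 (h3 h4)
  · exact I2 Y hY X hX D hD (inter_swap12 _ _ _ e) (by rw [Finset.inter_comm, hs]) h2 h1 h4

/-- a pair of size `s ≤ c` which is at most the third threshold -/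
lemma selfS1 {c a s : ℕ} (I1 : IHc F k p2 p3 c) (I2 : IHa F k p3 c a) {X Y D : Finset ℕ}
    (hX : X ∈ F) (hY : Y ∈ F) (hD : D ∈ F) (e : X ∩ Y ∩ D = ∅) (hs : (X ∩ Y).card = s)
    (hsc : s ≤ c) (hsa : s = c → a = c) (h : 1000 * s ≤ p3 * k) :
    c ≤ (X ∩ D).card ∨ c ≤ (Y ∩ D).card ∨
      (p2 * k < 1000 * (X ∩ D).card ∧ p2 * k < 1000 * (Y ∩ D).card) := by
  by_contra hcon
  push Not at hcon
  obtain ⟨h1, h2, h3⟩ := hcon
  rcases hsc.lt_or_eq with hlt | heq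
  · rcases Nat.lt_or_ge (p2 * k) (1000 * (X ∩ D).card) with h4 | h4
    · refine I1 D hD X hX Y hY ?_ ?_ ?_ ?_ ?_ ?_
      · rw [← e]; ext z; simp only [Finset.mem_inter]; tauto
      · rw [Finset.inter_comm]; exact h1
      · rw [Finset.inter_comm]; exact h2
      · rw [hs]; exact hlt
      · rw [Finset.inter_comm]; exact h3 h4
      · rw [hs]; exact h
    · refine I1 D hD Y hY X hX ?_ ?_ ?_ ?_ ?_ ?_
      · rw [← e]; ext z; simp only [Finset.mem_inter]; tauto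
      · rw [Finset.inter_comm]; exact h2
      · rw [Finset.inter_comm]; exact h1
      · rw [Finset.inter_comm, hs]; exact hlt
      · rw [Finset.inter_comm]; exact h4
      · rw [Finset.inter_comm, hs]; exact h
  · have hac := hsa heq
    exact I2 X hX Y hY D hD e (by rw [hs]; exact hsc) (by omega) (by omega) (by omega)

/-- a pair of size `s ≤ c` which is at most the second threshold -/
lemma selfS2 {c a s : ℕ} (I1 : IHc F k p2 p3 c) (I2 : IHa F k p3 c a) {X Y D : Finset ℕ}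
    (hX : X ∈ F) (hY : Y ∈ F) (hD : D ∈ F) (e : X ∩ Y ∩ D = ∅) (hs : (X ∩ Y).card = s)
    (hsc : s ≤ c) (hsa : s = c → a = c) (h : 1000 * s ≤ p2 * k) :
    c ≤ (X ∩ D).card ∨ c ≤ (Y ∩ D).card ∨
      (p3 * k < 1000 * (X ∩ D).card ∧ p3 * k < 1000 * (Y ∩ D).card) := by
  by_contra hcon
  push Not at hcon
  obtain ⟨h1, h2, h3⟩ := hcon
  rcases Nat.lt_or_ge (p3 * k) (1000 * (X ∩ D).card) with h4 | h4
  · rcases hsc.lt_or_eq with hlt | heq
    · refine I1 X hX D hD Y hY ?_ ?_ ?_ ?_ ?_ ?_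
      · rw [← e]; ext z; simp only [Finset.mem_inter]; tauto
      · exact h1
      · rw [hs]; exact hlt
      · rw [Finset.inter_comm]; exact h2
      · rw [hs]; exact h
      · rw [Finset.inter_comm]; exact h3 h4
    · have hac := hsa heq
      exact I2 X hX Y hY D hD e (by rw [hs]; exact hsc) (by omega) (by omega) (h3 h4)
  · rcases hsc.lt_or_eq with hlt | heq
    · refine I1 Y hY D hD X hX ?_ ?_ ?_ ?_ ?_ ?_
      · rw [← e]; ext z; simp only [Finset.mem_inter]; tauto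
      · exact h2
      · rw [Finset.inter_comm, hs]; exact hlt
      · rw [Finset.inter_comm]; exact h1
      · rw [Finset.inter_comm, hs]; exact h
      · rw [Finset.inter_comm]; exact h4
    · have hac := hsa heq
      exact I2 Y hY X hX D hD (inter_swap12 _ _ _ e) (by rw [Finset.inter_comm, hs]; exact hsc)
        (by omega) (by omega) h4

lemma two_of_three {P Q R : Prop} (h : P ∨ Q ∨ R) (hR : R → P) : P ∨ Q := by tauto

/-- gap of the intersection sizes below the top -/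
lemma gapI (t : ℕ) (hk : ∀ A ∈ F, A.card = k) (H : Missed F t) (htk : t ≤ k) {c : ℕ} (hct : c ≤ t)
    (I : ∀ X ∈ F, ∀ Y ∈ F, ∀ Z ∈ F, X ∩ Y ∩ Z = ∅ → (X ∩ Y).card < c → (X ∩ Z).card < c →
      (Y ∩ Z).card < c → False) :
    ∀ X ∈ F, ∀ Y ∈ F, (X ∩ Y).card + 2 * c + t ≤ 2 * k + 1 ∨ c ≤ (X ∩ Y).card := by
  intro X hX Y hY
  by_contra hcon
  push Not at hcon
  obtain ⟨D, hD, e, h1, h2⟩ := step F k t hk H htk (X ∩ Y).card X Y hX hY rfl (by omega)
    ((t - (X ∩ Y).card) / 2) ((t - (X ∩ Y).card) / 2) (by omega)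
  exact I X hX Y hY D hD e hcon.2 (by omega) (by omega)

/-- bound for the second pair -/
lemma bndI (t : ℕ) (hk : ∀ A ∈ F, A.card = k) (H : Missed F t) (htk : t ≤ k) {c a : ℕ}
    (hct : c ≤ t) (A B : Finset ℕ) (hA : A ∈ F) (hB : B ∈ F) (hc : (A ∩ B).card = c)
    (I : ∀ X ∈ F, ∀ Y ∈ F, ∀ Z ∈ F, X ∩ Y ∩ Z = ∅ → (X ∩ Y).card ≤ c → (X ∩ Z).card < a →
      (Y ∩ Z).card < a → False) :
    2 * a + c + t ≤ 2 * k + 1 := by
  by_contra hcon
  push Not at hcon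
  obtain ⟨D, hD, e, h1, h2⟩ := step F k t hk H htk c A B hA hB hc hct
    ((t - c) / 2) ((t - c) / 2) (by omega)
  exact I A hA B hB D hD e hc.le (by omega) (by omega)

end

end Pool.Agent.TX17
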