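import Pool.Agent.TX17.Resp

set_option autoImplicit false

namespace Pool.Agent.TX17

open Pool.Agent.TV17 Pool.Agent.TW17

/-- the seven nonempty sets of colours -/
def Js : Fin 7 → Finset (Fin 3) := ![{0}, {1}, {2}, {0, 1}, {0, 2}, {1, 2}, {0, 1, 2}]

lemma Js_surj : ∀ J : Finset (Fin 3), J.Nonempty → ∃ j, Js j = J := by decide

/-- a weighted sum of the twelve sizes -/
def lin12 (w : Fin 12 → ℕ) (n : Fin 12 → ℕ) : ℕ :=
  w 0 * n 0 + w 1 * n 1 + w 2 * n 2 + w 3 * n 3 + w 4 * n 4 + w 5 * n 5 + w 6 * n 6 +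
    w 7 * n 7 + w 8 * n 8 + w 9 * n 9 + w 10 * n 10 + w 11 * n 11

/-- the plan `f` is valid, its weights are `W`, and `Z` is `1` at the regions without points -/
def plan (f : Fin 12 → Option Fam) (Z : Fin 12 → ℕ) (W : Fin 7 → Fin 12 → ℕ) : Prop :=
  valid f ∧ (∀ r, f r = none → Z r = 1) ∧ ∀ j r, wt (f r) (Js j) = W j r

instance (f : Fin 12 → Option Fam) (Z : Fin 12 → ℕ) (W : Fin 7 → Fin 12 → ℕ) :
    Decidable (plan f Z W) := by
  unfold plan; infer_instance

lemma lin12_zero (Z n : Fin 12 → ℕ) (h : lin12 Z n = 0) (r : Fin 12) (hr : Z r = 1) :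
    n r = 0 := by
  have hs : ∑ r, Z r * n r = lin12 Z n := by
    simp only [Fin.sum_univ_succ, lin12]
    simp only [Finset.univ_eq_empty, Finset.sum_empty, add_zero, ← add_assoc]
    rfl
  rw [h, Finset.sum_eq_zero_iff] at hs
  have := hs r (Finset.mem_univ r)
  rw [hr, one_mul] at this
  exact this

/-- `comp` with the seven inequalities written out -/
theorem comp12 (F : Set (Finset ℕ)) (hF : SevenTwoCoverable F) (t : ℕ) (H : Missed F t)
    (A B C D : Finset ℕ) (n : Fin 12 → ℕ) (h : Cfg F A B C D n) (f : Fin 12 → Option Fam)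
    (Z : Fin 12 → ℕ) (W : Fin 7 → Fin 12 → ℕ) (hp : plan f Z W) (qz : lin12 Z n = 0)
    (q0 : lin12 (W 0) n ≤ t) (q1 : lin12 (W 1) n ≤ t) (q2 : lin12 (W 2) n ≤ t)
    (q3 : lin12 (W 3) n ≤ 2 * t) (q4 : lin12 (W 4) n ≤ 2 * t) (q5 : lin12 (W 5) n ≤ 2 * t)
    (q6 : lin12 (W 6) n ≤ 3 * t) : False := by
  have hs : ∀ w : Fin 12 → ℕ, ∑ r, w r * n r = lin12 w n := by
    intro w
    simp only [Fin.sum_univ_succ, lin12]
    simp only [Finset.univ_eq_empty, Finset.sum_empty, add_zero, ← add_assoc]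
    rfl
  refine comp F hF t H A B C D n h f hp.1
    (fun r hr => lin12_zero Z n qz r (hp.2.1 r hr)) ?_
  intro J hJ
  obtain ⟨j, rfl⟩ := Js_surj J hJ
  have e : ∑ r, wt (f r) (Js j) * n r = lin12 (W j) n := by
    rw [← hs]
    exact Finset.sum_congr rfl fun r _ => by rw [hp.2.2 j r]
  rw [e]
  fin_cases j
  · exact q0.trans (by simp [Js])
  · exact q1.trans (by simp [Js])
  · exact q2.trans (by simp [Js])
  · exact q3.trans (by simp [Js])
  · exact q4.trans (by simp [Js])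
  · exact q5.trans (by simp [Js])
  · exact q6.trans (by simp [Js])

end Pool.Agent.TX17
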