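import Pool.Agent.TX17.Cases67

set_option autoImplicit false

/-!
# The bound `6 k / 7`
-/

namespace Pool.Agent.TX17

open Pool.Agent.TV17 Pool.Agent.TW17

lemma exists_min (P : ℕ → Prop) (n₀ : ℕ) (h0 : P n₀) : ∃ n, P n ∧ ∀ m, P m → n ≤ m := by
  classical
  exact ⟨Nat.find ⟨n₀, h0⟩, Nat.find_spec ⟨n₀, h0⟩, fun m hm => Nat.find_min' _ hm⟩

section

variable (F : Set (Finset ℕ)) (hF : SevenTwoCoverable F) (k t : ℕ)
  (hk : ∀ A ∈ F, A.card = k) (H : Missed F t) (htk : t ≤ k) (ht : 6 * k + 60 ≤ 7 * t)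
  (ht2 : 7 * t ≤ 6 * k + 67)

include hk H htk in
/-- the balanced third member -/
lemma third (A B : Finset ℕ) (hA : A ∈ F) (hB : B ∈ F) (c : ℕ) (hc : (A ∩ B).card = c)
    (hct : c ≤ t) :
    ∃ C ∈ F, A ∩ B ∩ C = ∅ ∧ 2 * (A ∩ C).card + c + t ≤ 2 * k + 1 ∧
      2 * (B ∩ C).card + c + t ≤ 2 * k + 1 := by
  obtain ⟨C, hC, e, h1, h2⟩ := step F k t hk H htk c A B hA hB hc hct ((t - c) / 2)
    ((t - c) / 2) (by omega)
  exact ⟨C, hC, e, by omega, by omega⟩

include hF hk H htk ht ht2 in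
/-- three members with all intersections at most about `3 k / 7`, one of them at most about
`5 k / 14`, and no small sums: statically impossible -/
lemma stat_window (A B C : Finset ℕ) (hA : A ∈ F) (hB : B ∈ F) (hC : C ∈ F)
    (e : A ∩ B ∩ C = ∅) (c a b : ℕ) (hc : (A ∩ B).card = c) (ha : (A ∩ C).card = a)
    (hb : (B ∩ C).card = b) (h1 : 4 * k < 14 * c + 70) (h2 : 14 * c < 5 * k + 70)
    (h3 : 2 * a + c + t ≤ 2 * k + 1) (hba : b ≤ a) : False := by
  by_cases h4 : 2 * b + k ≤ 2 * t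
  · by_cases h5 : b + c + 2 * k ≤ 3 * t
    · exact sB F hF k t hk H htk A B C hA hB hC e c a b hc ha hb (by omega) (by omega)
        (by omega) (by omega) (by omega) (by omega) (by omega)
    · by_cases h6 : a + b + 2 * k ≤ 3 * t ∧ 2 * a + k ≤ 2 * t
      · exact sA F hF k t hk H htk A B C hA hB hC e c a b hc ha hb (by omega) (by omega)
          (by omega) (by omega) (by omega) (by omega) (by omega)
      · exact s2 F hF k t hk H htk A B C hA hB hC e c a b hc ha hb (by omega) (by omega)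
          (by omega) (by omega) (by omega) (by omega) (by omega)
  · exact s2 F hF k t hk H htk A B C hA hB hC e c a b hc ha hb (by omega) (by omega)
      (by omega) (by omega) (by omega) (by omega) (by omega)

include hF hk H htk ht ht2 in
/-- no intersection between about `2 k / 7` and `5 k / 14` -/
lemma windowI (X Y : Finset ℕ) (hX : X ∈ F) (hY : Y ∈ F) :
    14 * (X ∩ Y).card + 70 ≤ 4 * k ∨ 5 * k + 70 ≤ 14 * (X ∩ Y).card := by
  by_contra hcon
  push Not at hcon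
  obtain ⟨c, hc⟩ : ∃ c : ℕ, (X ∩ Y).card = c := ⟨_, rfl⟩
  rw [hc] at hcon
  obtain ⟨C, hC, e, h1, h2⟩ := third F k t hk H htk X Y hX hY c hc (by omega)
  rcases le_total (Y ∩ C).card (X ∩ C).card with h | h
  · exact stat_window F hF k t hk H htk ht ht2 X Y C hX hY hC e c _ _ hc rfl rfl (by omega)
      (by omega) h1 h
  · exact stat_window F hF k t hk H htk ht ht2 Y X C hY hX hC
      (by rw [Finset.inter_comm Y X]; exact e) c _ _ (by rw [Finset.inter_comm]; exact hc)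
      rfl rfl (by omega) (by omega) h2 h

include hF hk H htk ht ht2 in
/-- no intersection between `3 k / 7` and `k / 2` -/
lemma windowB (X Y : Finset ℕ) (hX : X ∈ F) (hY : Y ∈ F) :
    14 * (X ∩ Y).card < 6 * k ∨ k < 2 * (X ∩ Y).card := by
  by_contra hcon
  push Not at hcon
  obtain ⟨c, hc⟩ : ∃ c : ℕ, (X ∩ Y).card = c := ⟨_, rfl⟩
  rw [hc] at hcon
  obtain ⟨C, hC, e, h1, h2⟩ := third F k t hk H htk X Y hX hY c hc (by omega)
  have w1 := windowI F hF k t hk H htk ht ht2 X C hX hC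
  have w2 := windowI F hF k t hk H htk ht ht2 Y C hY hC
  obtain ⟨a, ha⟩ : ∃ a : ℕ, (X ∩ C).card = a := ⟨_, rfl⟩
  obtain ⟨b, hb⟩ : ∃ b : ℕ, (Y ∩ C).card = b := ⟨_, rfl⟩
  rw [ha] at w1 h1
  rw [hb] at w2 h2
  rcases le_total b a with h | h
  · exact Bmain F hF k t hk H htk ht ht2 X Y C hX hY hC e c a b hc ha hb (by omega) (by omega)
      (by omega) h
  · exact Bmain F hF k t hk H htk ht ht2 Y X C hY hX hC
      (by rw [Finset.inter_comm Y X]; exact e) c b a (by rw [Finset.inter_comm]; exact hc)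
      hb ha (by omega) (by omega) (by omega) h

include hF hk H htk ht ht2 in
lemma windowC_aux (A B C : Finset ℕ) (hA : A ∈ F) (hB : B ∈ F) (hC : C ∈ F)
    (e : A ∩ B ∩ C = ∅) (c a b : ℕ) (hc : (A ∩ B).card = c) (ha : (A ∩ C).card = a)
    (hb : (B ∩ C).card = b)
    (hcap : ∀ X ∈ F, ∀ Y ∈ F, 14 * (X ∩ Y).card + 70 ≤ 4 * k ∨ (c ≤ (X ∩ Y).card ∧
      14 * (X ∩ Y).card < 6 * k) ∨ k < 2 * (X ∩ Y).card)
    (hc1 : 5 * k + 70 ≤ 14 * c) (hc2 : 14 * c < 6 * k)
    (h1 : 2 * a + c + t ≤ 2 * k + 1) (hba : b ≤ a) : False := by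
  have wa := hcap A hA C hC
  have wb := hcap B hB C hC
  rw [ha] at wa
  rw [hb] at wb
  by_cases h2 : c ≤ a
  · by_cases h3 : c ≤ b
    · exact s2 F hF k t hk H htk A B C hA hB hC e c a b hc ha hb (by omega) (by omega)
        (by omega) (by omega) (by omega) (by omega) (by omega)
    · by_cases h4 : 5 * b ≤ k
      · exact Cmain F hF k t hk H htk ht ht2 A B C hA hB hC e c a b hc ha hb hcap hc1 h2 h1 h4
      · exact s2 F hF k t hk H htk A B C hA hB hC e c a b hc ha hb (by omega) (by omega)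
          (by omega) (by omega) (by omega) (by omega) (by omega)
  · have h5 : 14 * a + 70 ≤ 4 * k := by omega
    have h6 : 14 * b + 70 ≤ 4 * k := by omega
    exact sA F hF k t hk H htk A B C hA hB hC e c a b hc ha hb (by omega) (by omega)
      (by omega) (by omega) (by omega) (by omega) (by omega)

include hF hk H htk ht ht2 in
/-- no intersection between about `2 k / 7` and `k / 2` -/
lemma windowC (X Y : Finset ℕ) (hX : X ∈ F) (hY : Y ∈ F) :
    14 * (X ∩ Y).card + 70 ≤ 4 * k ∨ k < 2 * (X ∩ Y).card := by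
  by_contra hcon
  push Not at hcon
  obtain ⟨c, ⟨A, hA, B, hB, hc, hc1⟩, hmin⟩ := exists_min
    (fun n => ∃ A ∈ F, ∃ B ∈ F, (A ∩ B).card = n ∧ 4 * k < 14 * n + 70) (X ∩ Y).card
    ⟨X, hX, Y, hY, rfl, hcon.1⟩
  have hle : c ≤ (X ∩ Y).card := hmin _ ⟨X, hX, Y, hY, rfl, hcon.1⟩
  have w0 := windowI F hF k t hk H htk ht ht2 A B hA hB
  have w1 := windowB F hF k t hk H htk ht ht2 A B hA hB
  rw [hc] at w0 w1
  have hcap : ∀ X ∈ F, ∀ Y ∈ F, 14 * (X ∩ Y).card + 70 ≤ 4 * k ∨ (c ≤ (X ∩ Y).card ∧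
      14 * (X ∩ Y).card < 6 * k) ∨ k < 2 * (X ∩ Y).card := by
    intro X hX Y hY
    by_cases h : 14 * (X ∩ Y).card + 70 ≤ 4 * k
    · exact Or.inl h
    · have h1 := hmin _ ⟨X, hX, Y, hY, rfl, by omega⟩
      rcases windowB F hF k t hk H htk ht ht2 X Y hX hY with h2 | h2
      · exact Or.inr (Or.inl ⟨h1, h2⟩)
      · exact Or.inr (Or.inr h2)
  obtain ⟨C, hC, e, h1, h2⟩ := third F k t hk H htk A B hA hB c hc (by omega)
  rcases le_total (B ∩ C).card (A ∩ C).card with h | h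
  · exact windowC_aux F hF k t hk H htk ht ht2 A B C hA hB hC e c _ _ hc rfl rfl hcap
      (by omega) (by omega) h1 h
  · exact windowC_aux F hF k t hk H htk ht ht2 B A C hB hA hC
      (by rw [Finset.inter_comm B A]; exact e) c _ _ (by rw [Finset.inter_comm]; exact hc)
      rfl rfl hcap (by omega) (by omega) h2 h

include hF hk H htk ht ht2 in
/-- no intersection between about `k / 7` and `k / 2` -/
lemma windowD (X Y : Finset ℕ) (hX : X ∈ F) (hY : Y ∈ F) :
    (X ∩ Y).card + t ≤ k ∨ k < 2 * (X ∩ Y).card := by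
  by_contra hcon
  push Not at hcon
  obtain ⟨c, hc⟩ : ∃ c : ℕ, (X ∩ Y).card = c := ⟨_, rfl⟩
  rw [hc] at hcon
  have w0 := windowC F hF k t hk H htk ht ht2 X Y hX hY
  rw [hc] at w0
  obtain ⟨C, hC, e, h1, h2⟩ := third F k t hk H htk X Y hX hY c hc (by omega)
  have w1 := windowC F hF k t hk H htk ht ht2 X C hX hC
  have w2 := windowC F hF k t hk H htk ht ht2 Y C hY hC
  exact sA F hF k t hk H htk X Y C hX hY hC e c _ _ hc rfl rfl (by omega) (by omega)
    (by omega) (by omega) (by omega) (by omega) (by omega)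

include hF hk H htk ht ht2 in
theorem impossible67 : False := by
  classical
  obtain ⟨A0, hA0, -⟩ := H ∅ (by simp)
  have cA0 := hk A0 hA0
  obtain ⟨T0, hT0, hT0c⟩ := Finset.exists_subset_card_eq (s := A0) (n := t) (by omega)
  obtain ⟨B0, hB0, mB0⟩ := H T0 hT0c.le
  have h0 := inter_card_le A0 B0 T0 hT0 mB0
  obtain ⟨c, ⟨A, hA, B, hB, hc, hc48⟩, hcmax⟩ := exists_max
    (fun n => ∃ A ∈ F, ∃ B ∈ F, (A ∩ B).card = n ∧ 2 * n ≤ k) k (A0 ∩ B0).card
    ⟨A0, hA0, B0, hB0, rfl, by omega⟩ (by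
      rintro n ⟨A, hA, B, hB, rfl, h⟩
      omega)
  have w := windowD F hF k t hk H htk ht ht2 A B hA hB
  rw [hc] at w
  refine end_case67b F hF k t hk H htk ht c ((k + 1) / 2) (by omega) (by omega) ?_ A B hA hB hc
    (by omega)
  intro X hX Y hY h
  exact hcmax _ ⟨X, hX, Y, hY, rfl, by omega⟩

end

/-- Every 7-wise 2-coverable family of `k`-sets has a transversal of size at most
`(6 k + 66) / 7`. -/
theorem bound67 (k : ℕ) (F : Set (Finset ℕ)) (hk : ∀ A ∈ F, A.card = k)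
    (hF : SevenTwoCoverable F) :
    ∃ T : Finset ℕ, 7 * T.card ≤ 6 * k + 66 ∧ ∀ A ∈ F, ∃ x ∈ T, x ∈ A := by
  classical
  by_contra hcon
  push Not at hcon
  have H : Missed F ((6 * k + 66) / 7) := by
    intro T hT
    obtain ⟨A, hA, h⟩ := hcon T (by omega)
    exact ⟨A, hA, fun z hz => h z hz⟩
  rcases Nat.lt_or_ge k ((6 * k + 66) / 7) with hkt | hkt
  · obtain ⟨A0, hA0, -⟩ := H ∅ (by simp)
    have H' : Missed F k := fun T hT => H T (by omega)
    obtain ⟨B, hB, mB⟩ := H' A0 (hk A0 hA0).le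
    have hAB : (A0 ∩ B).card = 0 := by
      rw [Finset.card_eq_zero, Finset.eq_empty_iff_forall_notMem]
      intro z hz
      rw [Finset.mem_inter] at hz
      exact mB z hz.1 hz.2
    obtain ⟨C, hC, hABC, h1, h2⟩ := step F k k hk H' le_rfl 0 A0 B hA0 hB hAB (Nat.zero_le _)
      (k / 2) (k - k / 2) (by omega)
    exact win1 F hF k _ hk H A0 B C hA0 hB hC hABC 0 (A0 ∩ C).card (B ∩ C).card hAB rfl rfl
      (by omega) (by omega) (by omega) (by omega) (by omega) (by omega) (by omega) (by omega)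
  · exact impossible67 F hF k ((6 * k + 66) / 7) hk H hkt (by omega) (by omega)

end Pool.Agent.TX17
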