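import Pool.Agent.TX17.EX1M
import Pool.Agent.TX17.EX2M
import Pool.Agent.TX17.EX3M
import Pool.Agent.TX17.EBM
import Pool.Agent.TX17.End

set_option autoImplicit false

/-!
# The bound `17 k / 20`
-/

namespace Pool.Agent.TX17

open Pool.Agent.TV17 Pool.Agent.TW17

lemma exists_least (P : ℕ → Prop) (n₀ : ℕ) (h0 : P n₀) : ∃ n, P n ∧ ∀ m, P m → n ≤ m := by
  classical
  exact ⟨Nat.find ⟨n₀, h0⟩, Nat.find_spec ⟨n₀, h0⟩, fun m hm => Nat.find_min' _ hm⟩

section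

variable (F : Set (Finset ℕ)) (hF : SevenTwoCoverable F) (k t : ℕ)
  (hk : ∀ A ∈ F, A.card = k) (H : Missed F t) (htk : t ≤ k) (ht : 17 * k + 160 ≤ 20 * t)
  (ht2 : 20 * t ≤ 17 * k + 180)

include hk H htk in
/-- the third member: the larger one of its two intersections is as small as possible -/
lemma third85 (A B : Finset ℕ) (hA : A ∈ F) (hB : B ∈ F) (c : ℕ) (hc : (A ∩ B).card = c)
    (hct : c ≤ t) :
    ∃ A' ∈ F, ∃ B' ∈ F, ∃ C ∈ F, A' ∩ B' ∩ C = ∅ ∧ (A' ∩ B').card = c ∧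
      (B' ∩ C).card ≤ (A' ∩ C).card ∧ 2 * (A' ∩ C).card + c + t ≤ 2 * k + 1 ∧
      ∀ D ∈ F, A' ∩ B' ∩ D = ∅ → (A' ∩ C).card ≤ (A' ∩ D).card ∨
        (A' ∩ C).card ≤ (B' ∩ D).card := by
  classical
  obtain ⟨C0, hC0, e0, h1, h2⟩ := step F k t hk H htk c A B hA hB hc hct ((t - c) / 2)
    ((t - c) / 2) (by omega)
  obtain ⟨n, ⟨C, hC, e, hn⟩, hmin⟩ := exists_least
    (fun n => ∃ C ∈ F, A ∩ B ∩ C = ∅ ∧ max (A ∩ C).card (B ∩ C).card = n) _
    ⟨C0, hC0, e0, rfl⟩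
  have h0 := hmin _ ⟨C0, hC0, e0, rfl⟩
  have hD : ∀ D ∈ F, A ∩ B ∩ D = ∅ → n ≤ (A ∩ D).card ∨ n ≤ (B ∩ D).card := by
    intro D hD e'
    have := hmin _ ⟨D, hD, e', rfl⟩
    exact le_max_iff.1 this
  have hb : 2 * n + c + t ≤ 2 * k + 1 := by omega
  rcases le_total (B ∩ C).card (A ∩ C).card with h | h
  · rw [max_eq_left h] at hn
    exact ⟨A, hA, B, hB, C, hC, e, hc, h, by omega, fun D hDF e' => by
      rw [hn]; exact hD D hDF e'⟩
  · rw [max_eq_right h] at hn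
    refine ⟨B, hB, A, hA, C, hC, by rw [Finset.inter_comm B A]; exact e,
      by rw [Finset.inter_comm]; exact hc, h, by omega, fun D hDF e' => ?_⟩
    rw [hn]
    rw [Finset.inter_comm B A] at e'
    exact (hD D hDF e').symm

include hF hk H htk ht ht2 in
/-- no intersection between `7 k / 20` and `41 k / 80` -/
lemma windowX (X Y : Finset ℕ) (hX : X ∈ F) (hY : Y ∈ F) :
    20 * (X ∩ Y).card < 7 * k ∨ 41 * k < 80 * (X ∩ Y).card := by
  by_contra hcon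
  push Not at hcon
  obtain ⟨c, ⟨A, hA, B, hB, hc, hc1⟩, hmin⟩ := exists_least
    (fun n => ∃ A ∈ F, ∃ B ∈ F, (A ∩ B).card = n ∧ 7 * k ≤ 20 * n) (X ∩ Y).card
    ⟨X, hX, Y, hY, rfl, hcon.1⟩
  have hle : c ≤ (X ∩ Y).card := hmin _ ⟨X, hX, Y, hY, rfl, hcon.1⟩
  have hcap : ∀ X ∈ F, ∀ Y ∈ F, 20 * (X ∩ Y).card ≤ 7 * k ∨ c ≤ (X ∩ Y).card := by
    intro X hX Y hY
    by_cases h : 20 * (X ∩ Y).card < 7 * k
    · exact Or.inl h.le
    · exact Or.inr (hmin _ ⟨X, hX, Y, hY, rfl, by omega⟩)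
  obtain ⟨A', hA', B', hB', C, hC, e, hc', hba, h1, hext⟩ := third85 F k t hk H htk A B hA hB c
    hc (by omega)
  rcases hcap A' hA' C hC with ha | ha
  · exact EX1main F hF k t hk H htk ht ht2 A' B' C hA' hB' hC e c _ _ hc' rfl rfl hcap hext
      hc1 (by omega) h1 ha hba
  · rcases hcap B' hB' C hC with hb | hb
    · exact EX2main F hF k t hk H htk ht ht2 A' B' C hA' hB' hC e c _ _ hc' rfl rfl hcap hext
        hc1 h1 ha hb
    · exact EX3main F hF k t hk H htk ht ht2 A' B' C hA' hB' hC e c _ _ hc' rfl rfl hcap hext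
        hc1 h1 hba hb

include hF hk H htk ht ht2 in
theorem impossible85 : False := by
  classical
  obtain ⟨A0, hA0, -⟩ := H ∅ (by simp)
  have cA0 := hk A0 hA0
  obtain ⟨T0, hT0, hT0c⟩ := Finset.exists_subset_card_eq (s := A0) (n := t) (by omega)
  obtain ⟨B0, hB0, mB0⟩ := H T0 hT0c.le
  have h0 := inter_card_le A0 B0 T0 hT0 mB0
  obtain ⟨c, ⟨A, hA, B, hB, hc, hc48⟩, hcmax⟩ := exists_max
    (fun n => ∃ A ∈ F, ∃ B ∈ F, (A ∩ B).card = n ∧ 20 * n < 7 * k) k (A0 ∩ B0).card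
    ⟨A0, hA0, B0, hB0, rfl, by omega⟩ (by
      rintro n ⟨A, hA, B, hB, rfl, h⟩
      omega)
  have hcap : ∀ X ∈ F, ∀ Y ∈ F, (X ∩ Y).card ≤ c ∨ 41 * k < 80 * (X ∩ Y).card := by
    intro X hX Y hY
    rcases windowX F hF k t hk H htk ht ht2 X Y hX hY with h | h
    · exact Or.inl (hcmax _ ⟨X, hX, Y, hY, rfl, h⟩)
    · exact Or.inr h
  by_cases hc8 : 1 * k ≤ 8 * c
  · obtain ⟨A', hA', B', hB', C, hC, e, hc', hba, h1, hext⟩ := third85 F k t hk H htk A B hA hB c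
      hc (by omega)
    have h2 : (A' ∩ C).card ≤ c := by
      rcases hcap A' hA' C hC with h | h
      · exact h
      · omega
    exact EBmain F hF k t hk H htk ht ht2 A' B' C hA' hB' hC e c _ _ hc' rfl rfl hcap hext
      hc8 (by omega) h2 hba
  · obtain ⟨g, hg1, hg2⟩ : ∃ g : ℕ, 4875 * k ≤ 10000 * g ∧ 10000 * g ≤ 4875 * k + 10000 :=
      ⟨(4875 * k + 9999) / 10000, by omega, by omega⟩
    refine end_case85 F hF k t hk H htk (by omega) c g hg1 hg2 ?_ A B hA hB hc (by omega)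
    intro X hX Y hY h
    rcases hcap X hX Y hY with h' | h'
    · exact h'
    · omega

end

/-- Every 7-wise 2-coverable family of `k`-sets has a transversal of size at most
`(17 k + 179) / 20`. -/
theorem bound85 (k : ℕ) (F : Set (Finset ℕ)) (hk : ∀ A ∈ F, A.card = k)
    (hF : SevenTwoCoverable F) :
    ∃ T : Finset ℕ, 20 * T.card ≤ 17 * k + 179 ∧ ∀ A ∈ F, ∃ x ∈ T, x ∈ A := by
  classical
  by_contra hcon
  push Not at hcon
  have H : Missed F ((17 * k + 179) / 20) := by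
    intro T hT
    obtain ⟨A, hA, h⟩ := hcon T (by omega)
    exact ⟨A, hA, fun z hz => h z hz⟩
  rcases Nat.lt_or_ge k ((17 * k + 179) / 20) with hkt | hkt
  · obtain ⟨A0, hA0, -⟩ := H ∅ (by simp)
    have H' : Missed F k := fun T hT => H T (by omega)
    obtain ⟨B, hB, mB⟩ := H' A0 (hk A0 hA0).le
    have hAB : (A0 ∩ B).card = 0 := by
      rw [Finset.card_eq_zero, Finset.eq_empty_iff_forall_notMem]
      intro z hz
      rw [Finset.mem_inter] at hz
      exact mB z hz.1 hz.2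
    obtain ⟨C, hC, hABC, h1, h2⟩ := step F k k hk H' le_rfl 0 A0 B hA0 hB hAB (Nat.zero_le _)
      (k / 2) (k - k / 2) (by omega)
    exact win1 F hF k _ hk H A0 B C hA0 hB hC hABC 0 (A0 ∩ C).card (B ∩ C).card hAB rfl rfl
      (by omega) (by omega) (by omega) (by omega) (by omega) (by omega) (by omega) (by omega)
  · exact impossible85 F hF k ((17 * k + 179) / 20) hk H hkt (by omega) (by omega)

end Pool.Agent.TX17
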