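import Pool.Agent.TX17.Comp

set_option autoImplicit false

namespace Pool.Agent.TX17

open Pool.Agent.TV17 Pool.Agent.TW17

/-- a part `R` of which `D` misses at least `m` points -/
lemma split_card (R D X : Finset ℕ) (hX : X ⊆ R) (h : ∀ z ∈ X, z ∉ D) :
    (R \ D).card + (R ∩ D).card = R.card ∧ (R ∩ D).card + X.card ≤ R.card := by
  classical
  refine ⟨Finset.card_sdiff_add_card_inter _ _, ?_⟩
  have h1 : R ∩ D ⊆ R \ X := by
    intro z hz
    rw [Finset.mem_inter] at hz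
    exact Finset.mem_sdiff.2 ⟨hz.1, fun hh => h z hh hz.2⟩
  have h2 := Finset.card_le_card h1
  have h3 := Finset.card_sdiff_add_card_eq_card hX
  omega

/-- The response: a member missing prescribed numbers of points in the six regions of three
members without a common point. -/
theorem respond (F : Set (Finset ℕ)) (k t : ℕ) (hk : ∀ A ∈ F, A.card = k) (H : Missed F t)
    (A B C : Finset ℕ) (hA : A ∈ F) (hB : B ∈ F) (hC : C ∈ F) (e : A ∩ B ∩ C = ∅)
    (c a b : ℕ) (hc : (A ∩ B).card = c) (ha : (A ∩ C).card = a) (hb : (B ∩ C).card = b)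
    (k1 k2 k3 k4 k5 k6 : ℕ) (h1 : k1 ≤ c) (h2 : k2 ≤ a) (h3 : k3 ≤ b) (h4 : k4 + c + a ≤ k)
    (h5 : k5 + c + b ≤ k) (h6 : k6 + a + b ≤ k) (hs : k1 + k2 + k3 + k4 + k5 + k6 ≤ t) :
    ∃ (D : Finset ℕ) (n0 n1 n2 n3 n4 n5 n6 n7 n8 n9 n10 n11 : ℕ),
      Cfg F A B C D ![n0, n1, n2, n3, n4, n5, n6, n7, n8, n9, n10, n11] ∧
      n0 + n1 = c ∧ n2 + n3 = a ∧ n4 + n5 = b ∧ n6 + n7 + c + a = k ∧ n8 + n9 + c + b = k ∧
      n10 + n11 + a + b = k ∧ n1 + k1 ≤ c ∧ n3 + k2 ≤ a ∧ n5 + k3 ≤ b ∧ n7 + k4 + c + a ≤ k ∧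
      n9 + k5 + c + b ≤ k ∧ n11 + k6 + a + b ≤ k ∧ n1 + n3 + n5 + n7 + n9 + n11 ≤ k ∧
      (A ∩ D).card = n1 + n3 + n7 ∧ (B ∩ D).card = n1 + n5 + n9 ∧
      (C ∩ D).card = n3 + n5 + n11 := by
  classical
  have he : ∀ z, z ∈ A → z ∈ B → z ∉ C := by
    intro z h1 h2 h3
    have : z ∈ A ∩ B ∩ C := by simp [h1, h2, h3]
    rw [e] at this
    simp at this
  have eB : B ∩ A ∩ C = ∅ := by rw [Finset.inter_comm B A]; exact e
  have eC : C ∩ A ∩ B = ∅ := by
    rw [← e]; ext z; simp only [Finset.mem_inter]; tauto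
  have cA := card_regions A B C e
  have cB := card_regions B A C eB
  have cC := card_regions C A B eC
  rw [hk A hA, hc, ha] at cA
  rw [hk B hB, Finset.inter_comm B A, hc, hb] at cB
  rw [hk C hC, Finset.inter_comm C A, Finset.inter_comm C B, ha, hb] at cC
  obtain ⟨X1, s1, x1⟩ := Finset.exists_subset_card_eq (s := A ∩ B) (n := k1) (by omega)
  obtain ⟨X2, s2, x2⟩ := Finset.exists_subset_card_eq (s := A ∩ C) (n := k2) (by omega)
  obtain ⟨X3, s3, x3⟩ := Finset.exists_subset_card_eq (s := B ∩ C) (n := k3) (by omega)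
  obtain ⟨X4, s4, x4⟩ := Finset.exists_subset_card_eq (s := A \ (B ∪ C)) (n := k4) (by omega)
  obtain ⟨X5, s5, x5⟩ := Finset.exists_subset_card_eq (s := B \ (A ∪ C)) (n := k5) (by omega)
  obtain ⟨X6, s6, x6⟩ := Finset.exists_subset_card_eq (s := C \ (A ∪ B)) (n := k6) (by omega)
  obtain ⟨D, hD, mD⟩ := H (((X1 ∪ X2) ∪ (X3 ∪ X4)) ∪ (X5 ∪ X6)) (by
    have := card_un2 _ _ _ _ (card_un2 _ _ _ _ (card_un2 _ _ _ _ x1.le x2.le)
      (card_un2 _ _ _ _ x3.le x4.le)) (card_un2 _ _ _ _ x5.le x6.le)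
    omega)
  obtain ⟨d1, m1⟩ := split_card (A ∩ B) D X1 s1 (fun z hz => mD z (by simp [hz]))
  obtain ⟨d2, m2⟩ := split_card (A ∩ C) D X2 s2 (fun z hz => mD z (by simp [hz]))
  obtain ⟨d3, m3⟩ := split_card (B ∩ C) D X3 s3 (fun z hz => mD z (by simp [hz]))
  obtain ⟨d4, m4⟩ := split_card (A \ (B ∪ C)) D X4 s4 (fun z hz => mD z (by simp [hz]))
  obtain ⟨d5, m5⟩ := split_card (B \ (A ∪ C)) D X5 s5 (fun z hz => mD z (by simp [hz]))
  obtain ⟨d6, m6⟩ := split_card (C \ (A ∪ B)) D X6 s6 (fun z hz => mD z (by simp [hz]))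
  have f6 : (A \ (B ∪ C)) \ D = A \ (B ∪ C ∪ D) := by
    ext z; simp only [Finset.mem_sdiff, Finset.mem_union]; tauto
  have f7 : (A \ (B ∪ C)) ∩ D = (A ∩ D) \ (B ∪ C) := by
    ext z; simp only [Finset.mem_sdiff, Finset.mem_union, Finset.mem_inter]; tauto
  have f8 : (B \ (A ∪ C)) \ D = B \ (A ∪ C ∪ D) := by
    ext z; simp only [Finset.mem_sdiff, Finset.mem_union]; tauto
  have f9 : (B \ (A ∪ C)) ∩ D = (B ∩ D) \ (A ∪ C) := by
    ext z; simp only [Finset.mem_sdiff, Finset.mem_union, Finset.mem_inter]; tauto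
  have f10 : (C \ (A ∪ B)) \ D = C \ (A ∪ B ∪ D) := by
    ext z; simp only [Finset.mem_sdiff, Finset.mem_union]; tauto
  have f11 : (C \ (A ∪ B)) ∩ D = (C ∩ D) \ (A ∪ B) := by
    ext z; simp only [Finset.mem_sdiff, Finset.mem_union, Finset.mem_inter]; tauto
  rw [f6, f7] at d4
  rw [f7] at m4
  rw [f8, f9] at d5
  rw [f9] at m5
  rw [f10, f11] at d6
  rw [f11] at m6
  -- the intersections with `D`
  have three : ∀ P Q R S : Finset ℕ, S = P ∪ Q ∪ R → Disjoint P Q → Disjoint (P ∪ Q) R →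
      S.card = P.card + Q.card + R.card := by
    intro P Q R S h h1 h2
    rw [h, Finset.card_union_of_disjoint h2, Finset.card_union_of_disjoint h1]
  have gA : (A ∩ D).card = (A ∩ B ∩ D).card + (A ∩ C ∩ D).card + ((A ∩ D) \ (B ∪ C)).card := by
    refine three _ _ _ _ ?_ ?_ ?_
    · ext z; simp only [Finset.mem_sdiff, Finset.mem_union, Finset.mem_inter]; tauto
    · rw [Finset.disjoint_left]; intro z; have := he z
      simp only [Finset.mem_inter]; tauto
    · rw [Finset.disjoint_left]; intro z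
      simp only [Finset.mem_sdiff, Finset.mem_union, Finset.mem_inter]; tauto
  have gB : (B ∩ D).card = (A ∩ B ∩ D).card + (B ∩ C ∩ D).card + ((B ∩ D) \ (A ∪ C)).card := by
    refine three _ _ _ _ ?_ ?_ ?_
    · ext z; simp only [Finset.mem_sdiff, Finset.mem_union, Finset.mem_inter]; tauto
    · rw [Finset.disjoint_left]; intro z; have := he z
      simp only [Finset.mem_inter]; tauto
    · rw [Finset.disjoint_left]; intro z
      simp only [Finset.mem_sdiff, Finset.mem_union, Finset.mem_inter]; tauto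
  have gC : (C ∩ D).card = (A ∩ C ∩ D).card + (B ∩ C ∩ D).card + ((C ∩ D) \ (A ∪ B)).card := by
    refine three _ _ _ _ ?_ ?_ ?_
    · ext z; simp only [Finset.mem_sdiff, Finset.mem_union, Finset.mem_inter]; tauto
    · rw [Finset.disjoint_left]; intro z; have := he z
      simp only [Finset.mem_inter]; tauto
    · rw [Finset.disjoint_left]; intro z
      simp only [Finset.mem_sdiff, Finset.mem_union, Finset.mem_inter]; tauto
  -- the total inside `D`
  have gD : (A ∩ D).card + ((B ∩ C ∩ D).card + ((B ∩ D) \ (A ∪ C)).card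
      + ((C ∩ D) \ (A ∪ B)).card) ≤ k := by
    rw [← hk D hD]
    rw [← three (B ∩ C ∩ D) ((B ∩ D) \ (A ∪ C)) ((C ∩ D) \ (A ∪ B)) _ rfl ?_ ?_]
    · rw [← Finset.card_union_of_disjoint]
      · refine Finset.card_le_card ?_
        intro z
        simp only [Finset.mem_sdiff, Finset.mem_union, Finset.mem_inter]
        tauto
      · rw [Finset.disjoint_left]; intro z; have := he z
        simp only [Finset.mem_sdiff, Finset.mem_union, Finset.mem_inter]; tauto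
    · rw [Finset.disjoint_left]; intro z
      simp only [Finset.mem_sdiff, Finset.mem_union, Finset.mem_inter]; tauto
    · rw [Finset.disjoint_left]; intro z
      simp only [Finset.mem_sdiff, Finset.mem_union, Finset.mem_inter]; tauto
  refine ⟨D, ((A ∩ B) \ D).card, (A ∩ B ∩ D).card, ((A ∩ C) \ D).card, (A ∩ C ∩ D).card,
    ((B ∩ C) \ D).card, (B ∩ C ∩ D).card, (A \ (B ∪ C ∪ D)).card, ((A ∩ D) \ (B ∪ C)).card,
    (B \ (A ∪ C ∪ D)).card, ((B ∩ D) \ (A ∪ C)).card, (C \ (A ∪ B ∪ D)).card,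
    ((C ∩ D) \ (A ∪ B)).card,
    ⟨hA, hB, hC, hD, e, rfl, rfl, rfl, rfl, rfl, rfl, rfl, rfl, rfl, rfl, rfl, rfl⟩, ?_⟩
  clear mD he three f6 f7 f8 f9 f10 f11 s1 s2 s3 s4 s5 s6 e eB eC
  refine ⟨?_, ?_, ?_, ?_, ?_, ?_, ?_, ?_, ?_, ?_, ?_, ?_, ?_, ?_, ?_, ?_⟩ <;> omega

end Pool.Agent.TX17
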