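import Pool.Agent.TX17.Stat

set_option autoImplicit false

/-!
# Elimination of triples by lexicographic induction
-/

namespace Pool.Agent.TX17

open Pool.Agent.TV17 Pool.Agent.TW17

/-- no three members with empty intersection and pairs at most `p1 k / 1000`, `p2 k / 1000`,
`p3 k / 1000` -/
def NB (F : Set (Finset ℕ)) (k p1 p2 p3 : ℕ) : Prop :=
  ∀ A ∈ F, ∀ B ∈ F, ∀ C ∈ F, A ∩ B ∩ C = ∅ → 1000 * (A ∩ B).card ≤ p1 * k →
    1000 * (A ∩ C).card ≤ p2 * k → 1000 * (B ∩ C).card ≤ p3 * k → False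

lemma inter_swap23 (A B C : Finset ℕ) (h : A ∩ B ∩ C = ∅) : A ∩ C ∩ B = ∅ := by
  rw [← h]; ext z; simp only [Finset.mem_inter]; tauto

lemma inter_swap12 (A B C : Finset ℕ) (h : A ∩ B ∩ C = ∅) : B ∩ A ∩ C = ∅ := by
  rw [← h]; ext z; simp only [Finset.mem_inter]; tauto

/-- every triple can be labelled with decreasing pairs -/
lemma sort_triple (F : Set (Finset ℕ)) (A B C : Finset ℕ) (hA : A ∈ F) (hB : B ∈ F) (hC : C ∈ F)
    (e : A ∩ B ∩ C = ∅) (P : ℕ → ℕ → ℕ → Prop)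
    (hP : P (A ∩ B).card (A ∩ C).card (B ∩ C).card)
    (h12 : ∀ x y z, x < y → P x y z → P y x z) (h23 : ∀ x y z, y < z → P x y z → P x z y) :
    ∃ X ∈ F, ∃ Y ∈ F, ∃ Z ∈ F, X ∩ Y ∩ Z = ∅ ∧ P (X ∩ Y).card (X ∩ Z).card (Y ∩ Z).card ∧
      (Y ∩ Z).card ≤ (X ∩ Z).card ∧ (X ∩ Z).card ≤ (X ∩ Y).card := by
  have s23 : ∀ A ∈ F, ∀ B ∈ F, ∀ C ∈ F, A ∩ B ∩ C = ∅ →
      P (A ∩ B).card (A ∩ C).card (B ∩ C).card → (A ∩ C).card ≤ (A ∩ B).card →
      (B ∩ C).card ≤ (A ∩ B).card →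
      ∃ X ∈ F, ∃ Y ∈ F, ∃ Z ∈ F, X ∩ Y ∩ Z = ∅ ∧ P (X ∩ Y).card (X ∩ Z).card (Y ∩ Z).card ∧
        (Y ∩ Z).card ≤ (X ∩ Z).card ∧ (X ∩ Z).card ≤ (X ∩ Y).card := by
    intro A hA B hB C hC e hP h1 h2
    rcases Nat.lt_or_ge (A ∩ C).card (B ∩ C).card with h | h
    · refine ⟨B, hB, A, hA, C, hC, inter_swap12 _ _ _ e, ?_, h.le, ?_⟩
      · rw [Finset.inter_comm B A]
        exact h23 _ _ _ h hP
      · rw [Finset.inter_comm B A]
        exact h2
    · exact ⟨A, hA, B, hB, C, hC, e, hP, h, h1⟩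
  -- bring the largest pair to the first place
  by_cases hmax : (A ∩ C).card ≤ (A ∩ B).card ∧ (B ∩ C).card ≤ (A ∩ B).card
  · exact s23 A hA B hB C hC e hP hmax.1 hmax.2
  · by_cases hac : (B ∩ C).card ≤ (A ∩ C).card
    · -- the largest pair is A ∩ C
      have hlt : (A ∩ B).card < (A ∩ C).card := by
        by_contra hcon
        push Not at hcon
        exact hmax ⟨hcon, hac.trans hcon⟩
      refine s23 A hA C hC B hB (inter_swap23 _ _ _ e) ?_ hlt.le ?_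
      · rw [Finset.inter_comm C B]
        exact h12 _ _ _ hlt hP
      · rw [Finset.inter_comm C B]
        exact hac
    · -- the largest pair is B ∩ C
      push Not at hac
      have hlt : (A ∩ B).card < (B ∩ C).card := by
        by_contra hcon
        push Not at hcon
        exact hmax ⟨hac.le.trans hcon, hcon⟩
      refine s23 B hB C hC A hA ?_ ?_ ?_ ?_
      · rw [← e]; ext z; simp only [Finset.mem_inter]; tauto
      · rw [Finset.inter_comm B A, Finset.inter_comm C A]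
        have h1 := h23 _ _ _ hac hP
        have h2 := h12 _ _ _ hlt h1
        rcases Nat.lt_or_ge (A ∩ B).card (A ∩ C).card with h | h
        · -- P (BC) (AB) (AC), order of the last two is free up to the third place
          exact h2
        · exact h2
      · rw [Finset.inter_comm B A]
        exact hlt.le
      · rw [Finset.inter_comm C A]
        exact hac.le

/-- lexicographic induction on the largest and the second largest pair -/
theorem stage (F : Set (Finset ℕ)) (k : ℕ) (hk : ∀ A ∈ F, A.card = k) (p1 p2 p3 : ℕ)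
    (h12 : p2 ≤ p1) (h23 : p3 ≤ p2)
    (core : ∀ A ∈ F, ∀ B ∈ F, ∀ C ∈ F, A ∩ B ∩ C = ∅ → ∀ c a b : ℕ, (A ∩ B).card = c →
      (A ∩ C).card = a → (B ∩ C).card = b → b ≤ a → a ≤ c → 1000 * c ≤ p1 * k →
      1000 * a ≤ p2 * k → 1000 * b ≤ p3 * k →
      (∀ X ∈ F, ∀ Y ∈ F, ∀ Z ∈ F, X ∩ Y ∩ Z = ∅ → (X ∩ Y).card < c → (X ∩ Z).card < c →
        (Y ∩ Z).card < c → 1000 * (X ∩ Z).card ≤ p2 * k → 1000 * (Y ∩ Z).card ≤ p3 * k →
        False) →
      (∀ X ∈ F, ∀ Y ∈ F, ∀ Z ∈ F, X ∩ Y ∩ Z = ∅ → (X ∩ Y).card ≤ c → (X ∩ Z).card < a →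
        (Y ∩ Z).card < a → 1000 * (Y ∩ Z).card ≤ p3 * k → False) → False) :
    NB F k p1 p2 p3 := by
  have hle : ∀ X ∈ F, ∀ Y, (X ∩ Y).card ≤ k := fun X hX Y => by
    rw [← hk X hX]; exact Finset.card_le_card Finset.inter_subset_left
  have m12 : p2 * k ≤ p1 * k := Nat.mul_le_mul_right _ h12
  have m23 : p3 * k ≤ p2 * k := Nat.mul_le_mul_right _ h23
  have key : ∀ N : ℕ, ∀ A ∈ F, ∀ B ∈ F, ∀ C ∈ F, A ∩ B ∩ C = ∅ →
      (B ∩ C).card ≤ (A ∩ C).card → (A ∩ C).card ≤ (A ∩ B).card →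
      (A ∩ B).card * (k + 1) + (A ∩ C).card = N → 1000 * (A ∩ B).card ≤ p1 * k →
      1000 * (A ∩ C).card ≤ p2 * k → 1000 * (B ∩ C).card ≤ p3 * k → False := by
    intro N
    induction N using Nat.strong_induction_on with
    | _ N ih =>
      intro A hA B hB C hC e hba hac hN h1 h2 h3
      refine core A hA B hB C hC e _ _ _ rfl rfl rfl hba hac h1 h2 h3 ?_ ?_
      · intro X hX Y hY Z hZ e' g1 g2 g3 g4 g5
        obtain ⟨X', hX', Y', hY', Z', hZ', e'', ⟨q1, q2, q3, q4, q5⟩, o1, o2⟩ :=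
          sort_triple F X Y Z hX hY hZ e'
          (fun x y z => x < (A ∩ B).card ∧ y < (A ∩ B).card ∧ z < (A ∩ B).card ∧
            1000 * y ≤ p2 * k ∧ 1000 * z ≤ p3 * k) ⟨g1, g2, g3, g4, g5⟩
          (fun x y z hxy h => ⟨h.2.1, h.1, h.2.2.1, by omega, h.2.2.2.2⟩)
          (fun x y z hyz h => ⟨h.1, h.2.2.1, h.2.1, by omega, by omega⟩)
        have hb1 := hle X' hX' Z'
        refine ih _ ?_ X' hX' Y' hY' Z' hZ' e'' o1 o2 rfl (by omega) q4 q5
        rw [← hN]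
        calc (X' ∩ Y').card * (k + 1) + (X' ∩ Z').card
            < (X' ∩ Y').card * (k + 1) + (k + 1) := by omega
          _ = ((X' ∩ Y').card + 1) * (k + 1) := by ring
          _ ≤ (A ∩ B).card * (k + 1) := Nat.mul_le_mul_right _ q1
          _ ≤ (A ∩ B).card * (k + 1) + (A ∩ C).card := Nat.le_add_right _ _
      · intro X hX Y hY Z hZ e' g1 g2 g3 g4
        have hac' := hac
        obtain ⟨X', hX', Y', hY', Z', hZ', e'', ⟨q1, q2, q3, q4⟩, o1, o2⟩ :=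
          sort_triple F X Y Z hX hY hZ e'
          (fun x y z => x ≤ (A ∩ B).card ∧ y < (A ∩ C).card ∧ z < (A ∩ C).card ∧
            1000 * z ≤ p3 * k) ⟨g1, g2, g3, g4⟩
          (fun x y z hxy h => ⟨by omega, by omega, h.2.2.1, h.2.2.2⟩)
          (fun x y z hyz h => ⟨h.1, h.2.2.1, h.2.1, by omega⟩)
        refine ih _ ?_ X' hX' Y' hY' Z' hZ' e'' o1 o2 rfl (by omega) (by omega) q4
        rw [← hN]
        have := Nat.mul_le_mul_right (k + 1) q1
        omega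
  intro A hA B hB C hC e h1 h2 h3
  obtain ⟨X', hX', Y', hY', Z', hZ', e'', ⟨q1, q2, q3⟩, o1, o2⟩ :=
    sort_triple F A B C hA hB hC e
    (fun x y z => 1000 * x ≤ p1 * k ∧ 1000 * y ≤ p2 * k ∧ 1000 * z ≤ p3 * k) ⟨h1, h2, h3⟩
    (fun x y z hxy h => ⟨by omega, by omega, h.2.2⟩)
    (fun x y z hyz h => ⟨h.1, by omega, by omega⟩)
  exact key _ X' hX' Y' hY' Z' hZ' e'' o1 o2 rfl q1 q2 q3

end Pool.Agent.TX17
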