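import Pool.Agent.TX17.Leaf

set_option autoImplicit false

/-!
# Restarts: three of the members `A, B, C, D` already give a contradiction
-/

namespace Pool.Agent.TX17

open Pool.Agent.TV17 Pool.Agent.TW17

/-- first static rule, `p` is the largest of the three intersections -/
theorem sA (F : Set (Finset ℕ)) (hF : SevenTwoCoverable F) (k t : ℕ)
    (hk : ∀ A ∈ F, A.card = k) (H : Missed F t) (htk : t ≤ k) (X Y Z : Finset ℕ)
    (hX : X ∈ F) (hY : Y ∈ F) (hZ : Z ∈ F) (e : X ∩ Y ∩ Z = ∅)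
    (p q r : ℕ) (hp : (X ∩ Y).card = p) (hq : (X ∩ Z).card = q) (hr : (Y ∩ Z).card = r)
    (i0 : 2 * q + k ≤ 2 * t) (i1 : 2 * r + k ≤ 2 * t) (i2 : q + r + 2 * k ≤ 3 * t)
    (i3 : p + 3 * k ≤ 4 * t) (i4 : p + q ≤ t) (i5 : p + r ≤ t) (i6 : 3 * p + k ≤ 3 * t) :
    False := by
  refine win1 F hF k t hk H X Y Z hX hY hZ e p q r hp hq hr i1 i0 i2 i6 i3 ?_ ?_ ?_ <;> omega

/-- first static rule, `q` is the largest of the three intersections -/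
theorem sB (F : Set (Finset ℕ)) (hF : SevenTwoCoverable F) (k t : ℕ)
    (hk : ∀ A ∈ F, A.card = k) (H : Missed F t) (htk : t ≤ k) (X Y Z : Finset ℕ)
    (hX : X ∈ F) (hY : Y ∈ F) (hZ : Z ∈ F) (e : X ∩ Y ∩ Z = ∅)
    (p q r : ℕ) (hp : (X ∩ Y).card = p) (hq : (X ∩ Z).card = q) (hr : (Y ∩ Z).card = r)
    (i0 : 2 * r + k ≤ 2 * t) (i1 : 2 * p + k ≤ 2 * t) (i2 : p + r + 2 * k ≤ 3 * t)
    (i3 : q + 3 * k ≤ 4 * t) (i4 : q + r ≤ t) (i5 : p + q ≤ t) (i6 : 3 * q + k ≤ 3 * t) :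
    False := by
  refine sA F hF k t hk H htk X Z Y hX hZ hY ?_ q p r hq hp ?_ i1 i0 i2 i3 ?_ ?_ i6
  · rw [← e]; ext z; simp only [Finset.mem_inter]; tauto
  · rw [Finset.inter_comm]; exact hr
  · omega
  · omega

/-- first static rule, `r` is the largest of the three intersections -/
theorem sC (F : Set (Finset ℕ)) (hF : SevenTwoCoverable F) (k t : ℕ)
    (hk : ∀ A ∈ F, A.card = k) (H : Missed F t) (htk : t ≤ k) (X Y Z : Finset ℕ)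
    (hX : X ∈ F) (hY : Y ∈ F) (hZ : Z ∈ F) (e : X ∩ Y ∩ Z = ∅)
    (p q r : ℕ) (hp : (X ∩ Y).card = p) (hq : (X ∩ Z).card = q) (hr : (Y ∩ Z).card = r)
    (i0 : 2 * p + k ≤ 2 * t) (i1 : 2 * q + k ≤ 2 * t) (i2 : p + q + 2 * k ≤ 3 * t)
    (i3 : r + 3 * k ≤ 4 * t) (i4 : p + r ≤ t) (i5 : q + r ≤ t) (i6 : 3 * r + k ≤ 3 * t) :
    False := by
  refine sA F hF k t hk H htk Y Z X hY hZ hX ?_ r p q hr ?_ ?_ i0 i1 i2 i3 ?_ ?_ i6
  · rw [← e]; ext z; simp only [Finset.mem_inter]; tauto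
  · rw [Finset.inter_comm]; exact hp
  · rw [Finset.inter_comm]; exact hq
  · omega
  · omega

lemma pick_u (x1 x2 x3 s : ℕ) (h : 2 * s ≤ x1 + x2 + x3) (h12 : s ≤ x1 + x2)
    (h13 : s ≤ x1 + x3) (h23 : s ≤ x2 + x3) :
    ∃ ua ub uc : ℕ, ua + uc ≤ x1 ∧ ub + uc ≤ x2 ∧ ua + ub ≤ x3 ∧ s ≤ ua + ub + uc := by
  by_cases hs : s ≤ x3
  · by_cases h1 : s ≤ x1
    · exact ⟨s, 0, 0, by omega, by omega, by omega, by omega⟩
    · exact ⟨x1, s - x1, 0, by omega, by omega, by omega, by omega⟩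
  · by_cases h1 : s ≤ x1
    · exact ⟨s - (s - x3), 0, s - x3, by omega, by omega, by omega, by omega⟩
    · by_cases h2 : s - x3 ≤ x1
      · exact ⟨x1 - (s - x3), s - x1, s - x3, by omega, by omega, by omega, by omega⟩
      · omega

/-- second static rule -/
theorem s2 (F : Set (Finset ℕ)) (hF : SevenTwoCoverable F) (k t : ℕ)
    (hk : ∀ A ∈ F, A.card = k) (H : Missed F t) (htk : t ≤ k) (X Y Z : Finset ℕ)
    (hX : X ∈ F) (hY : Y ∈ F) (hZ : Z ∈ F) (e : X ∩ Y ∩ Z = ∅)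
    (p q r : ℕ) (hp : (X ∩ Y).card = p) (hq : (X ∩ Z).card = q) (hr : (Y ∩ Z).card = r)
    (i0 : r + k ≤ p + q + t) (i1 : p + q + 2 * k ≤ 3 * t + r)
    (i2 : p + k ≤ q + r + t) (i3 : q + r + 2 * k ≤ 3 * t + p)
    (i4 : q + k ≤ r + p + t) (i5 : r + p + 2 * k ≤ 3 * t + q)
    (i6 : p + q + r + 3 * k ≤ 5 * t) : False := by
  obtain ⟨s, hs⟩ : ∃ s : ℕ, (s + t = p + q + r ∨ (s = 0 ∧ p + q + r ≤ t)) :=
    ⟨p + q + r - t, by omega⟩
  obtain ⟨x1, hx1⟩ : ∃ x : ℕ, x + r + k = p + q + t := ⟨p + q + t - r - k, by omega⟩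
  obtain ⟨x2, hx2⟩ : ∃ x : ℕ, x + q + k = r + p + t := ⟨r + p + t - q - k, by omega⟩
  obtain ⟨x3, hx3⟩ : ∃ x : ℕ, x + p + k = q + r + t := ⟨q + r + t - p - k, by omega⟩
  obtain ⟨ua, ub, uc, h1, h2, h3, h4⟩ := pick_u x1 x2 x3 s (by omega) (by omega) (by omega)
    (by omega)
  refine win2 F hF k t hk H X Y Z hX hY hZ e p q r hp hq hr ua ub uc ?_ ?_ ?_ ?_ ?_ ?_ ?_ <;>
    omega

/-- the third set `D` has no point in `A ∩ B` -/
lemma emptyD (A B D : Finset ℕ) (n : ℕ) (h : (A ∩ B ∩ D).card = n) (h0 : n = 0) :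
    A ∩ B ∩ D = ∅ := Finset.card_eq_zero.1 (h.trans h0)

end Pool.Agent.TX17
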